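import Pool.Agent.T2H90.CJ.StmC

/-! Package BA of project CJ. -/

set_option autoImplicit false

namespace Pool.Agent.T2H90.CJ

open Pool.Agent.H598R2.Cnt Pool.Agent.TH694.GP

namespace PkgBA

variable {V : Type} [DecidableEq V]

lemma mem_KK3 {x y z : V} {p : Finset V} (h : p ∈ KK ({x, y, z} : Finset V)) :
    p = {x, y} ∨ p = {x, z} ∨ p = {y, z} := by
  unfold KK at h
  rw [Finset.mem_powersetCard] at h
  obtain ⟨h1, h2⟩ := h
  obtain ⟨a, b, hab, rfl⟩ := Finset.card_eq_two.1 h2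
  have ha : a ∈ ({x, y, z} : Finset V) := h1 (by simp)
  have hb : b ∈ ({x, y, z} : Finset V) := h1 (by simp)
  simp only [Finset.mem_insert, Finset.mem_singleton] at ha hb
  rcases ha with rfl | rfl | rfl <;> rcases hb with rfl | rfl | rfl
  · exact absurd rfl hab
  · exact Or.inl rfl
  · exact Or.inr (Or.inl rfl)
  · exact Or.inl (Finset.pair_comm _ _)
  · exact absurd rfl hab
  · exact Or.inr (Or.inr rfl)
  · exact Or.inr (Or.inl (Finset.pair_comm _ _))
  · exact Or.inr (Or.inr (Finset.pair_comm _ _))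
  · exact absurd rfl hab

lemma rk_insert_le {e : Finset V} (he : e.card = 2) (Δ : Finset (Finset V)) :
    rk (insert e Δ) ≤ rk Δ + 1 := by
  have h1 := rk_union_le {e} Δ
  rw [rk_singleton he] at h1
  rw [Finset.insert_eq]
  omega

end PkgBA

open PkgBA

theorem pBA (hKV : S_KV) (hST : S_ST) : S_BA := by
  intro V _ U Γ v x y z hOn hU5 hRR hvU hRv hxy hxz hyz hN hxyΓ hnR
  obtain ⟨hP, hsub⟩ := hOn
  obtain ⟨hst1, -, -, hst4, hst5, hst6⟩ := hST V U Γ v ⟨hP, hsub⟩ hvU
  rw [hN] at hst1 hst4 hst5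
  obtain ⟨Δ, hΔ⟩ : ∃ Δ : Finset (Finset V),
    Δ = (del Γ v).erase {x, y} ∪ {{x, z}, {y, z}} := ⟨_, rfl⟩
  rw [← hΔ] at hnR ⊢
  obtain ⟨W, hW⟩ : ∃ W : Finset V, W = U.erase v := ⟨_, rfl⟩
  rw [← hW] at hnR hRv ⊢
  have hWc : W.card + 1 = U.card := by
    rw [hW]
    exact Finset.card_erase_add_one hvU
  have hW2 : 2 ≤ W.card := by omega
  have hxN : x ∈ ({x, y, z} : Finset V) := by simp
  have hyN : y ∈ ({x, y, z} : Finset V) := by simp
  have hzN : z ∈ ({x, y, z} : Finset V) := by simp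
  have hxW : x ∈ W := by
    rw [hW, Finset.mem_erase]
    exact ⟨fun e => hst4 (e ▸ hxN), hst5 hxN⟩
  have hyW : y ∈ W := by
    rw [hW, Finset.mem_erase]
    exact ⟨fun e => hst4 (e ▸ hyN), hst5 hyN⟩
  have hzW : z ∈ W := by
    rw [hW, Finset.mem_erase]
    exact ⟨fun e => hst4 (e ▸ hzN), hst5 hzN⟩
  have hpair : ∀ {a b : V}, a ≠ b → ({a, b} : Finset V).card = 2 := fun h => Finset.card_pair h
  have hpsub : ∀ {a b : V}, a ∈ W → b ∈ W → ({a, b} : Finset V) ⊆ W := by
    intro a b ha hb c hc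
    rw [Finset.mem_insert, Finset.mem_singleton] at hc
    rcases hc with rfl | rfl
    · exact ha
    · exact hb
  have hmemΔ : ∀ g, g ∈ Δ ↔ (g ≠ {x, y} ∧ g ∈ Γ ∧ v ∉ g) ∨ g = {x, z} ∨ g = {y, z} := by
    intro g
    rw [hΔ, Finset.mem_union, Finset.mem_erase, Finset.mem_insert, Finset.mem_singleton]
    unfold del
    rw [Finset.mem_filter]
  have hΔP : Pairs Δ := by
    intro g hg
    rcases (hmemΔ g).1 hg with h | h | h
    · exact hP g h.2.1
    · rw [h]; exact hpair hxz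
    · rw [h]; exact hpair hyz
  have hΔW : ∀ g ∈ Δ, g ⊆ W := by
    intro g hg
    rcases (hmemΔ g).1 hg with h | h | h
    · intro c hc
      rw [hW, Finset.mem_erase]
      exact ⟨fun e => h.2.2 (e ▸ hc), hsub g h.2.1 hc⟩
    · rw [h]; exact hpsub hxW hzW
    · rw [h]; exact hpsub hyW hzW
  have hIP : Pairs (insert {x, y} Δ) := by
    intro g hg
    rcases Finset.mem_insert.1 hg with h | h
    · rw [h]; exact hpair hxy
    · exact hΔP g h
  have hIW : ∀ g ∈ insert {x, y} Δ, g ⊆ W := by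
    intro g hg
    rcases Finset.mem_insert.1 hg with h | h
    · rw [h]; exact hpsub hxW hyW
    · exact hΔW g h
  have hIR : Rig (insert {x, y} Δ) W := by
    refine hRv.mono fun g hg => ?_
    unfold del at hg
    rw [Finset.mem_filter] at hg
    rw [Finset.mem_insert]
    by_cases h : g = {x, y}
    · exact Or.inl h
    · exact Or.inr ((hmemΔ g).2 (Or.inl ⟨h, hg.1, hg.2⟩))
  have h1 : rk Δ + 4 = 2 * W.card := by
    have h2 := (rig_iff_rk hIP hIW hW2).1 hIR
    have h3 := rk_insert_le (hpair hxy) Δ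
    have h4 := rk_le_of_sub hΔP hΔW hW2
    have h5 : rk Δ + 3 ≠ 2 * W.card := fun h => hnR ((rig_iff_rk hΔP hΔW hW2).2 h)
    omega
  refine ⟨h1, ?_, ?_⟩
  · rintro B hB ⟨hxB, hyB⟩
    obtain ⟨e, he, rfl⟩ := mem_bodies.1 hB
    have h2 : Rig (cmp Δ e) (vs (cmp Δ e)) :=
      (rig_iff_rk (pairs_cmp hΔP e) (fun p hp => sub_vs hp) (two_le_vs hΔP he)).2 (rk_cmp hΔP he)
    have h3 : Rig Δ (vs (cmp Δ e)) := h2.mono (cmp_subset Δ e)
    refine hnR (rig_of_rig_insert hΔP h3 (hpair hxy) ?_ hΔW hIR)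
    intro c hc
    rw [Finset.mem_insert, Finset.mem_singleton] at hc
    rcases hc with rfl | rfl
    · exact hxB
    · exact hyB
  · intro f hf hfxz hfyz
    have hf' : f ≠ {x, y} ∧ f ∈ Γ ∧ v ∉ f := by
      rcases (hmemΔ f).1 hf with h | h | h
      · exact h
      · exact absurd h hfxz
      · exact absurd h hfyz
    obtain ⟨A, hA⟩ : ∃ A : Finset (Finset V), A = insert {x, y} (Δ.erase f) := ⟨_, rfl⟩
    have hAP : Pairs A := by
      intro g hg
      rw [hA] at hg
      rcases Finset.mem_insert.1 hg with h | h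
      · rw [h]; exact hpair hxy
      · exact hΔP g (Finset.mem_of_mem_erase h)
    have hKK : KK ({x, y, z} : Finset V) ⊆ A := by
      intro p hp
      rw [hA]
      rcases mem_KK3 hp with h | h | h
      · rw [h]; exact Finset.mem_insert_self _ _
      · rw [h]
        refine Finset.mem_insert_of_mem (Finset.mem_erase.2 ⟨fun e => hfxz e.symm, ?_⟩)
        exact (hmemΔ _).2 (Or.inr (Or.inl rfl))
      · rw [h]
        refine Finset.mem_insert_of_mem (Finset.mem_erase.2 ⟨fun e => hfyz e.symm, ?_⟩)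
        exact (hmemΔ _).2 (Or.inr (Or.inr rfl))
    have hN3 : 2 ≤ ({x, y, z} : Finset V).card := by
      rw [Finset.card_eq_three.2 ⟨x, y, z, hxy, hxz, hyz, rfl⟩]
      norm_num
    have h2 := hKV V A {x, y, z} v hAP hst4 hN3 hKK
    have h3 : Γ.erase f ⊆ A ∪ star v {x, y, z} := by
      intro g hg
      rw [Finset.mem_erase] at hg
      rw [Finset.mem_union]
      by_cases hvg : v ∈ g
      · right
        rw [← hst1]
        exact Finset.mem_filter.2 ⟨hg.2, hvg⟩
      · left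
        rw [hA, Finset.mem_insert, Finset.mem_erase]
        by_cases h : g = {x, y}
        · exact Or.inl h
        · exact Or.inr ⟨hg.1, (hmemΔ g).2 (Or.inl ⟨h, hg.2, hvg⟩)⟩
    have h4 := rk_mono h3
    have h5 : rk (Γ.erase f) + 3 = 2 * U.card :=
      (rig_iff_rk (fun g hg => hP g (Finset.mem_of_mem_erase hg))
        (fun g hg => hsub g (Finset.mem_of_mem_erase hg)) (by omega)).1 (hRR.2 f hf'.2.1)
    have h6 : rk A ≤ rk (Δ.erase f) + 1 := by
      rw [hA]
      exact rk_insert_le (hpair hxy) _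
    have h7 := rk_mono (Finset.erase_subset f Δ)
    omega

end Pool.Agent.T2H90.CJ
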