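import Pool.Agent.T2H90.CJ.StmC

/-! # Package BC: a vertex of degree 3, the counting argument -/

set_option autoImplicit false

namespace Pool.Agent.T2H90.CJ

open Pool.Agent.H598R2.Cnt Pool.Agent.TH694.GP

namespace PkgBC

variable {V : Type} [DecidableEq V]

/-- number of members containing `u` -/
def r (𝓑 : Finset (Finset V)) (u : V) : ℕ := (𝓑.filter (fun B' => u ∈ B')).card

/-- number of shared vertices -/
def s (𝓑 : Finset (Finset V)) (B : Finset V) : ℕ := (B.filter (fun u => 2 ≤ r 𝓑 u)).card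

lemma two_le_r {𝓑 : Finset (Finset V)} {u : V} {A B : Finset V} (hA : A ∈ 𝓑) (hB : B ∈ 𝓑)
    (hAB : A ≠ B) (h1 : u ∈ A) (h2 : u ∈ B) : 2 ≤ r 𝓑 u := by
  have h : ({A, B} : Finset (Finset V)) ⊆ 𝓑.filter (fun B' => u ∈ B') := by
    intro C hC
    simp only [Finset.mem_insert, Finset.mem_singleton] at hC
    rcases hC with rfl | rfl
    · exact Finset.mem_filter.2 ⟨hA, h1⟩
    · exact Finset.mem_filter.2 ⟨hB, h2⟩
  have h3 := Finset.card_le_card h
  rwa [Finset.card_pair hAB] at h3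

lemma eq_of_r {𝓑 : Finset (Finset V)} {u : V} {A B : Finset V} (hr : r 𝓑 u ≤ 1) (hA : A ∈ 𝓑)
    (hB : B ∈ 𝓑) (h1 : u ∈ A) (h2 : u ∈ B) : A = B := by
  by_contra hAB
  have := two_le_r hA hB hAB h1 h2
  omega

lemma eq_of_r2 {𝓑 : Finset (Finset V)} {u : V} {A B C : Finset V} (hr : r 𝓑 u ≤ 2) (hA : A ∈ 𝓑)
    (hB : B ∈ 𝓑) (hC : C ∈ 𝓑) (hAB : A ≠ B) (h1 : u ∈ A) (h2 : u ∈ B) (h3 : u ∈ C) :
    C = A ∨ C = B := by
  by_contra hcon
  push Not at hcon
  have h : ({C, A, B} : Finset (Finset V)) ⊆ 𝓑.filter (fun B' => u ∈ B') := by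
    intro D hD
    simp only [Finset.mem_insert, Finset.mem_singleton] at hD
    rcases hD with rfl | rfl | rfl
    · exact Finset.mem_filter.2 ⟨hC, h3⟩
    · exact Finset.mem_filter.2 ⟨hA, h1⟩
    · exact Finset.mem_filter.2 ⟨hB, h2⟩
  have h4 := Finset.card_le_card h
  rw [Finset.card_insert_of_notMem (by simp [hcon.1, hcon.2]), Finset.card_pair hAB] at h4
  unfold r at hr
  omega

lemma sum_ge {𝓑 : Finset (Finset V)} {A B : Finset V} (hA : A ∈ 𝓑) (hB : B ∈ 𝓑) (hAB : A ≠ B)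
    (f : Finset V → ℕ) (h3 : ∀ C ∈ 𝓑, C ≠ A → C ≠ B → 3 ≤ f C) :
    f A + f B + 3 * 𝓑.card ≤ ∑ C ∈ 𝓑, f C + 6 := by
  have h1 := Finset.add_sum_erase 𝓑 f hA
  have hB' : B ∈ 𝓑.erase A := Finset.mem_erase.2 ⟨hAB.symm, hB⟩
  have h2 := Finset.add_sum_erase (𝓑.erase A) f hB'
  have h4 : ((𝓑.erase A).erase B).card * 3 ≤ ∑ C ∈ (𝓑.erase A).erase B, f C := by
    rw [← smul_eq_mul]
    refine Finset.card_nsmul_le_sum _ _ _ fun C hC => ?_
    rw [Finset.mem_erase, Finset.mem_erase] at hC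
    exact h3 C hC.2.2 hC.2.1 hC.1
  have h5 := Finset.card_erase_add_one hB'
  have h6 := Finset.card_erase_add_one hA
  omega

end PkgBC

open PkgBC in
theorem pBC (hBA : S_BA) (hCNT : S_CNT) (hBIG : S_BIG) (hDEG : S_DEG) (hST : S_ST) : S_BC := by
  intro V _ U Γ v x y z hOn h5 hTC hRR hv hdel hxy hxz hyz hN hxyΓ
  by_contra hnot
  obtain ⟨hrk, hno, hbr⟩ := hBA V U Γ v x y z hOn h5 hRR hv hdel hxy hxz hyz hN hxyΓ hnot
  obtain ⟨-, -, -, hvN, hNU, hmemN⟩ := hST V U Γ v hOn hv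
  rw [hN] at hvN hNU
  have hmemN' : ∀ i, {v, i} ∈ Γ → i = x ∨ i = y ∨ i = z := by
    intro i hi
    have := (hmemN i).2 hi
    rw [hN] at this
    simpa using this
  simp only [Finset.mem_insert, Finset.mem_singleton, not_or] at hvN
  obtain ⟨hvx, hvy, hvz⟩ := hvN
  have hxU : x ∈ U := hNU (by simp)
  have hyU : y ∈ U := hNU (by simp)
  have hzU : z ∈ U := hNU (by simp)
  set W : Finset V := U.erase v with hW
  have hxW : x ∈ W := Finset.mem_erase.2 ⟨Ne.symm hvx, hxU⟩
  have hyW : y ∈ W := Finset.mem_erase.2 ⟨Ne.symm hvy, hyU⟩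
  have hzW : z ∈ W := Finset.mem_erase.2 ⟨Ne.symm hvz, hzU⟩
  set Δ : Finset (Finset V) := (del Γ v).erase {x, y} ∪ {{x, z}, {y, z}} with hΔ
  -- membership in `Δ`
  have hmemΔ : ∀ p, p ∈ Γ → v ∉ p → p ≠ {x, y} → p ∈ Δ := by
    intro p hp hvp hne
    refine Finset.mem_union_left _ (Finset.mem_erase.2 ⟨hne, ?_⟩)
    exact Finset.mem_filter.2 ⟨hp, hvp⟩
  have hxzΔ : ({x, z} : Finset V) ∈ Δ := Finset.mem_union_right _ (by simp)
  have hyzΔ : ({y, z} : Finset V) ∈ Δ := Finset.mem_union_right _ (by simp)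
  have hcases : ∀ p ∈ Δ, (p ∈ Γ ∧ v ∉ p) ∨ p = {x, z} ∨ p = {y, z} := by
    intro p hp
    rcases Finset.mem_union.1 hp with h | h
    · have h1 := Finset.mem_filter.1 (Finset.mem_erase.1 h).2
      exact Or.inl h1
    · right
      simpa using h
  have hP : Pairs Δ := by
    intro p hp
    rcases hcases p hp with h | rfl | rfl
    · exact hOn.1 p h.1
    · exact Finset.card_pair hxz
    · exact Finset.card_pair hyz
  have hsub : ∀ p ∈ Δ, p ⊆ W := by
    intro p hp
    rcases hcases p hp with h | rfl | rfl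
    · intro u hu
      exact Finset.mem_erase.2 ⟨fun e => h.2 (e ▸ hu), hOn.2 p h.1 hu⟩
    · intro u hu
      simp only [Finset.mem_insert, Finset.mem_singleton] at hu
      rcases hu with rfl | rfl
      · exact hxW
      · exact hzW
    · intro u hu
      simp only [Finset.mem_insert, Finset.mem_singleton] at hu
      rcases hu with rfl | rfl
      · exact hyW
      · exact hzW
  have hbs := bodies_spec hP hsub
  set 𝓑 : Finset (Finset V) := bodies Δ with h𝓑
  have hbody : ∀ p ∈ Δ, vs (cmp Δ p) ∈ 𝓑 ∧ p ⊆ vs (cmp Δ p) := by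
    intro p hp
    exact ⟨mem_bodies.2 ⟨p, hp, rfl⟩, sub_vs (mem_cmp_self hp)⟩
  -- the sum
  have hsum : ∑ B ∈ 𝓑, (2 * B.card - 3) = rk Δ := by
    have h := rk_filter hP (fun _ => True)
    simp only [Finset.filter_true] at h
    exact h.symm
  have hsum2 : 2 * ∑ B ∈ 𝓑, B.card = rk Δ + 3 * 𝓑.card := by
    rw [← hsum, Finset.mul_sum, mul_comm 3, ← smul_eq_mul (𝓑.card), ← Finset.sum_const,
      ← Finset.sum_add_distrib]
    refine Finset.sum_congr rfl fun B hB => ?_
    have := hbs.two B hB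
    omega
  -- every vertex is in a body
  have hcov : ∀ u ∈ W, ∃ B ∈ 𝓑, u ∈ B := by
    intro u hu
    have key : ∃ p ∈ Δ, u ∈ p := by
      by_cases hux : u = x
      · exact ⟨_, hxzΔ, by simp [hux]⟩
      by_cases huy : u = y
      · exact ⟨_, hyzΔ, by simp [huy]⟩
      have huU : u ∈ U := (Finset.mem_erase.1 hu).2
      have huv : u ≠ v := (Finset.mem_erase.1 hu).1
      have h3 := (hDEG V U Γ u hOn hRR (by omega) huU).1
      obtain ⟨w, hw, hwv⟩ : ∃ w ∈ Nb U Γ {u}, w ≠ v := by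
        by_contra hcon
        push Not at hcon
        have h4 : Nb U Γ {u} ⊆ {v} := fun w hw => Finset.mem_singleton.2 (hcon w hw)
        have h6 := Finset.card_le_card h4
        rw [Finset.card_singleton] at h6
        omega
      have hwΓ : ({u, w} : Finset V) ∈ Γ := ((hST V U Γ u hOn huU).2.2.2.2.2 w).1 hw
      refine ⟨{u, w}, hmemΔ _ hwΓ ?_ ?_, by simp⟩
      · simp only [Finset.mem_insert, Finset.mem_singleton, not_or]
        exact ⟨fun e => huv e.symm, fun e => hwv e.symm⟩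
      · intro e
        have : u ∈ ({x, y} : Finset V) := e ▸ (by simp)
        simp only [Finset.mem_insert, Finset.mem_singleton] at this
        exact this.elim hux huy
    obtain ⟨p, hp, hup⟩ := key
    exact ⟨_, (hbody p hp).1, (hbody p hp).2 hup⟩
  obtain ⟨hc1, hc2⟩ := hCNT V W 𝓑 hbs.subU hcov
  have hc1' : ∑ B ∈ 𝓑, s 𝓑 B + 2 * W.card ≤ 2 * ∑ B ∈ 𝓑, B.card := hc1
  have hc2' : ∑ B ∈ 𝓑, s 𝓑 B + 2 * W.card = 2 * ∑ B ∈ 𝓑, B.card → ∀ u ∈ W, r 𝓑 u ≤ 2 := hc2
  -- the two special bodies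
  set B₁ : Finset V := vs (cmp Δ {x, z}) with hB₁
  set B₂ : Finset V := vs (cmp Δ {y, z}) with hB₂
  have hB₁m : B₁ ∈ 𝓑 := (hbody _ hxzΔ).1
  have hB₂m : B₂ ∈ 𝓑 := (hbody _ hyzΔ).1
  have hxB₁ : x ∈ B₁ := (hbody _ hxzΔ).2 (by simp)
  have hzB₁ : z ∈ B₁ := (hbody _ hxzΔ).2 (by simp)
  have hyB₂ : y ∈ B₂ := (hbody _ hyzΔ).2 (by simp)
  have hzB₂ : z ∈ B₂ := (hbody _ hyzΔ).2 (by simp)
  have hB12 : B₁ ≠ B₂ := by
    intro e
    exact hno B₁ hB₁m ⟨hxB₁, e ▸ hyB₂⟩
  have hrz : 2 ≤ r 𝓑 z := two_le_r hB₁m hB₂m hB12 hzB₁ hzB₂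
  -- edges of `Γ` at ordinary vertices
  have hedge : ∀ u w, u ∈ W → u ≠ x → u ≠ y → u ≠ z → ({w, u} : Finset V) ∈ Γ →
      ({w, u} : Finset V) ∈ Δ := by
    intro u w hu hux huy huz hwu
    have huv : u ≠ v := (Finset.mem_erase.1 hu).1
    refine hmemΔ _ hwu ?_ ?_
    · simp only [Finset.mem_insert, Finset.mem_singleton, not_or]
      refine ⟨fun e => ?_, fun e => huv e.symm⟩
      subst e
      rcases hmemN' u hwu with h | h | h
      · exact hux h
      · exact huy h
      · exact huz h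
    · intro e
      have : u ∈ ({x, y} : Finset V) := e ▸ (by simp)
      simp only [Finset.mem_insert, Finset.mem_singleton] at this
      exact this.elim hux huy
  -- claim A
  have hA : ∀ B ∈ 𝓑, 4 ≤ B.card → 3 ≤ (B.filter (fun u => 2 ≤ r 𝓑 u ∨ u = x ∨ u = y)).card := by
    intro B hB hB4
    by_contra hcon
    push Not at hcon
    set X : Finset V := B.filter (fun u => ¬ (2 ≤ r 𝓑 u ∨ u = x ∨ u = y)) with hX
    have hXne : X.Nonempty := by
      by_contra hempty
      have hall : ∀ u ∈ B, 2 ≤ r 𝓑 u ∨ u = x ∨ u = y := by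
        intro u hu
        by_contra hcon2
        exact hempty ⟨u, Finset.mem_filter.2 ⟨hu, hcon2⟩⟩
      rw [Finset.filter_true_of_mem hall] at hcon
      omega
    have hNX : Nb U Γ X ⊆ B.filter (fun u => 2 ≤ r 𝓑 u ∨ u = x ∨ u = y) := by
      intro w hw
      obtain ⟨hwU, hwX, u, huX, hwu⟩ := mem_Nb.1 hw
      obtain ⟨huB, hu⟩ := Finset.mem_filter.1 huX
      push Not at hu
      obtain ⟨hur, hux, huy⟩ := hu
      have huz : u ≠ z := by
        rintro rfl
        omega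
      have hΔe := hedge u w (hbs.subU B hB huB) hux huy huz hwu
      obtain ⟨hb1, hb2⟩ := hbody _ hΔe
      have hBB : vs (cmp Δ {w, u}) = B :=
        eq_of_r (by omega) hb1 hB (hb2 (by simp)) huB
      have hwB : w ∈ B := by
        rw [← hBB]
        exact hb2 (by simp)
      rw [Finset.mem_filter]
      refine ⟨hwB, ?_⟩
      by_contra hcon2
      exact hwX (Finset.mem_filter.2 ⟨hwB, hcon2⟩)
    refine hTC X ⟨?_, hXne, ?_, ?_⟩
    · intro u hu
      exact Finset.mem_of_mem_erase (hbs.subU B hB (Finset.mem_filter.1 hu).1)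
    · have := Finset.card_le_card hNX
      omega
    · intro e
      have hvX : v ∈ X ∪ Nb U Γ X := by
        rw [e]
        exact hv
      have hvB : v ∈ B := by
        rcases Finset.mem_union.1 hvX with h | h
        · exact (Finset.mem_filter.1 h).1
        · exact (Finset.mem_filter.1 (hNX h)).1
      exact (Finset.mem_erase.1 (hbs.subU B hB hvB)).1 rfl
  -- other bodies
  have hother : ∀ B ∈ 𝓑, B ≠ B₁ → B ≠ B₂ → 3 ≤ s 𝓑 B := by
    intro B hB h1 h2
    obtain ⟨f, hf, hfB⟩ := mem_bodies.1 hB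
    have hfx : f ≠ {x, z} := by
      rintro rfl
      exact h1 hfB.symm
    have hfy : f ≠ {y, z} := by
      rintro rfl
      exact h2 hfB.symm
    have hB4 : 4 ≤ B.card := by
      rw [← hfB]
      exact (hBIG V Δ f hP hf).1 (hbr f hf hfx hfy)
    refine (hA B hB hB4).trans (Finset.card_le_card ?_)
    intro u hu
    obtain ⟨huB, hu⟩ := Finset.mem_filter.1 hu
    refine Finset.mem_filter.2 ⟨huB, ?_⟩
    rcases hu with h | h | h
    · exact h
    · exact two_le_r hB hB₁m h1 huB (h ▸ hxB₁)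
    · exact two_le_r hB hB₂m h2 huB (h ▸ hyB₂)
  -- the special bodies
  have hs1 : 1 ≤ s 𝓑 B₁ ∧ (4 ≤ B₁.card → 2 ≤ s 𝓑 B₁) := by
    constructor
    · exact Finset.card_pos.2 ⟨z, Finset.mem_filter.2 ⟨hzB₁, hrz⟩⟩
    · intro h4
      have h3 := hA B₁ hB₁m h4
      have hsub2 : B₁.filter (fun u => 2 ≤ r 𝓑 u ∨ u = x ∨ u = y) ⊆
          insert x (B₁.filter (fun u => 2 ≤ r 𝓑 u)) := by
        intro u hu
        obtain ⟨huB, hu⟩ := Finset.mem_filter.1 hu
        rw [Finset.mem_insert, Finset.mem_filter]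
        rcases hu with h | h | h
        · exact Or.inr ⟨huB, h⟩
        · exact Or.inl h
        · exact absurd ⟨hxB₁, h ▸ huB⟩ (hno B₁ hB₁m)
      have h6 := (Finset.card_le_card hsub2).trans (Finset.card_insert_le _ _)
      unfold s
      omega
  have hs2 : 1 ≤ s 𝓑 B₂ ∧ (4 ≤ B₂.card → 2 ≤ s 𝓑 B₂) := by
    constructor
    · exact Finset.card_pos.2 ⟨z, Finset.mem_filter.2 ⟨hzB₂, hrz⟩⟩
    · intro h4
      have h3 := hA B₂ hB₂m h4
      have hsub2 : B₂.filter (fun u => 2 ≤ r 𝓑 u ∨ u = x ∨ u = y) ⊆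
          insert y (B₂.filter (fun u => 2 ≤ r 𝓑 u)) := by
        intro u hu
        obtain ⟨huB, hu⟩ := Finset.mem_filter.1 hu
        rw [Finset.mem_insert, Finset.mem_filter]
        rcases hu with h | h | h
        · exact Or.inr ⟨huB, h⟩
        · exact absurd ⟨h ▸ huB, hyB₂⟩ (hno B₂ hB₂m)
        · exact Or.inl h
      have h6 := (Finset.card_le_card hsub2).trans (Finset.card_insert_le _ _)
      unfold s
      omega
  have hge := sum_ge hB₁m hB₂m hB12 (s 𝓑) hother
  have hW4 : 4 ≤ 2 * W.card := by omega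
  have hs1e : s 𝓑 B₁ = 1 := by
    have := hs1.1
    have := hs2.1
    omega
  have hs2e : s 𝓑 B₂ = 1 := by
    have := hs1.1
    have := hs2.1
    omega
  have hB₁s : B₁ = {x, z} := by
    have h4 : ¬ 4 ≤ B₁.card := fun h => by
      have := hs1.2 h
      omega
    have h6 := (hBIG V Δ {x, z} hP hxzΔ).2 fun h => h4 ((hBIG V Δ {x, z} hP hxzΔ).1 h)
    rw [hB₁, h6]
    simp [vs]
  have hB₂s : B₂ = {y, z} := by
    have h4 : ¬ 4 ≤ B₂.card := fun h => by
      have := hs2.2 h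
      omega
    have h6 := (hBIG V Δ {y, z} hP hyzΔ).2 fun h => h4 ((hBIG V Δ {y, z} hP hyzΔ).1 h)
    rw [hB₂, h6]
    simp [vs]
  have hr2 : r 𝓑 z ≤ 2 := by
    refine hc2' ?_ z hzW
    omega
  have hrx : r 𝓑 x ≤ 1 := by
    by_contra hcon
    have h6 : ({x, z} : Finset V) ⊆ B₁.filter (fun u => 2 ≤ r 𝓑 u) := by
      intro u hu
      simp only [Finset.mem_insert, Finset.mem_singleton] at hu
      rcases hu with rfl | rfl
      · exact Finset.mem_filter.2 ⟨hxB₁, by omega⟩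
      · exact Finset.mem_filter.2 ⟨hzB₁, hrz⟩
    have h7 := Finset.card_le_card h6
    rw [Finset.card_pair hxz] at h7
    unfold s at hs1e
    omega
  have hry : r 𝓑 y ≤ 1 := by
    by_contra hcon
    have h6 : ({y, z} : Finset V) ⊆ B₂.filter (fun u => 2 ≤ r 𝓑 u) := by
      intro u hu
      simp only [Finset.mem_insert, Finset.mem_singleton] at hu
      rcases hu with rfl | rfl
      · exact Finset.mem_filter.2 ⟨hyB₂, by omega⟩
      · exact Finset.mem_filter.2 ⟨hzB₂, hrz⟩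
    have h7 := Finset.card_le_card h6
    rw [Finset.card_pair hyz] at h7
    unfold s at hs2e
    omega
  -- neighbours of `x, y, z, v`
  have hclosed : ∀ w, ∀ u ∈ ({v, x, y, z} : Finset V), ({w, u} : Finset V) ∈ Γ →
      w ∈ ({v, x, y, z} : Finset V) := by
    intro w u hu hwu
    simp only [Finset.mem_insert, Finset.mem_singleton] at hu ⊢
    by_cases hwv : w = v
    · exact Or.inl hwv
    right
    by_cases huv : u = v
    · subst huv
      rw [Finset.pair_comm] at hwu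
      exact hmemN' w hwu
    have hvwu : v ∉ ({w, u} : Finset V) := by
      simp only [Finset.mem_insert, Finset.mem_singleton, not_or]
      exact ⟨fun e => hwv e.symm, fun e => huv e.symm⟩
    by_cases hxye : ({w, u} : Finset V) = {x, y}
    · have : w ∈ ({x, y} : Finset V) := hxye ▸ (by simp)
      simp only [Finset.mem_insert, Finset.mem_singleton] at this
      rcases this with h | h
      · exact Or.inl h
      · exact Or.inr (Or.inl h)
    have hΔe := hmemΔ _ hwu hvwu hxye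
    obtain ⟨hb1, hb2⟩ := hbody _ hΔe
    have hwb : w ∈ vs (cmp Δ {w, u}) := hb2 (by simp)
    have hub : u ∈ vs (cmp Δ {w, u}) := hb2 (by simp)
    rcases hu with rfl | rfl | rfl | rfl
    · exact absurd rfl huv
    · have h6 := eq_of_r hrx hb1 hB₁m hub hxB₁
      rw [h6, hB₁s] at hwb
      simp only [Finset.mem_insert, Finset.mem_singleton] at hwb
      rcases hwb with h | h
      · exact Or.inl h
      · exact Or.inr (Or.inr h)
    · have h6 := eq_of_r hry hb1 hB₂m hub hyB₂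
      rw [h6, hB₂s] at hwb
      simp only [Finset.mem_insert, Finset.mem_singleton] at hwb
      rcases hwb with h | h
      · exact Or.inr (Or.inl h)
      · exact Or.inr (Or.inr h)
    · rcases eq_of_r2 hr2 hB₁m hB₂m hb1 hB12 hzB₁ hzB₂ hub with h6 | h6
      · rw [h6, hB₁s] at hwb
        simp only [Finset.mem_insert, Finset.mem_singleton] at hwb
        rcases hwb with h | h
        · exact Or.inl h
        · exact Or.inr (Or.inr h)
      · rw [h6, hB₂s] at hwb
        simp only [Finset.mem_insert, Finset.mem_singleton] at hwb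
        rcases hwb with h | h
        · exact Or.inr (Or.inl h)
        · exact Or.inr (Or.inr h)
  have hNb0 : Nb U Γ {v, x, y, z} = ∅ := by
    rw [Finset.eq_empty_iff_forall_notMem]
    intro w hw
    obtain ⟨-, hwX, u, huX, hwu⟩ := mem_Nb.1 hw
    exact hwX (hclosed w u huX hwu)
  refine hTC {v, x, y, z} ⟨?_, ⟨v, by simp⟩, ?_, ?_⟩
  · intro u hu
    simp only [Finset.mem_insert, Finset.mem_singleton] at hu
    rcases hu with rfl | rfl | rfl | rfl
    · exact hv
    · exact hxU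
    · exact hyU
    · exact hzU
  · rw [hNb0]
    simp
  · rw [hNb0, Finset.union_empty]
    intro e
    have h6 : ({v, x, y, z} : Finset V).card ≤ 4 := Finset.card_le_four
    rw [e] at h6
    omega

end Pool.Agent.T2H90.CJ
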