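import Pool.Agent.T2H90.CJ.StmC

/-!
# Package BIG: bodies with a non-bridge edge have at least four vertices
-/

set_option autoImplicit false

namespace Pool.Agent.T2H90.CJ

open Pool.Agent.H598R2.Cnt Pool.Agent.TH694.GP

namespace PkgBIG

variable {V : Type} [DecidableEq V]

theorem rk_erase_add_one {Γ : Finset (Finset V)} (hΓ : Pairs Γ) {e : Finset V} (he : e ∈ Γ)
    (h : rk (Γ.erase e) ≠ rk Γ) : Sepr Γ {e} := by
  have h1 : rk (Γ.erase e) ≤ rk Γ := rk_mono (Finset.erase_subset _ _)
  have h2 : rk ({e} ∪ Γ.erase e) ≤ rk {e} + rk (Γ.erase e) := rk_union_le _ _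
  have h3 : ({e} ∪ Γ.erase e : Finset (Finset V)) = Γ := by
    rw [← Finset.insert_eq, Finset.insert_erase he]
  rw [h3, rk_singleton (hΓ e he)] at h2
  refine ⟨Finset.singleton_subset_iff.2 he, ?_⟩
  rw [Finset.sdiff_singleton_eq_erase, rk_singleton (hΓ e he)]
  omega

end PkgBIG

open PkgBIG in
theorem pBIG : S_BIG := by
  intro V _ Γ e hΓ he
  constructor
  · intro h
    by_contra hcon
    have hB : (vs (cmp Γ e)).card ≤ 3 := by omega
    have hB2 := two_le_vs hΓ he
    have hrk := rk_cmp hΓ he
    have hD : Pairs (cmp Γ e) := pairs_cmp hΓ e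
    have heD : e ∈ cmp Γ e := mem_cmp_self he
    have hsub : cmp Γ e ⊆ (vs (cmp Γ e)).powersetCard 2 := by
      intro p hp
      rw [Finset.mem_powersetCard]
      exact ⟨sub_vs hp, hD p hp⟩
    have hcard := Finset.card_le_card hsub
    rw [Finset.card_powersetCard] at hcard
    have hle : (cmp Γ e).card ≤ rk (cmp Γ e) := by
      have hc : (vs (cmp Γ e)).card = 2 ∨ (vs (cmp Γ e)).card = 3 := by omega
      rcases hc with hc | hc
      · rw [hc] at hcard hrk
        have : Nat.choose 2 2 = 1 := by decide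
        omega
      · rw [hc] at hcard hrk
        have : Nat.choose 3 2 = 3 := by decide
        omega
    obtain ⟨I, hI, hs, hIc⟩ := exists_card_rk (cmp Γ e)
    have hIe : I = cmp Γ e := Finset.eq_of_subset_of_card_le hI (by omega)
    rw [hIe] at hs
    have hsep : Sepr (cmp Γ e) {e} := by
      refine ⟨Finset.singleton_subset_iff.2 heD, ?_⟩
      rw [Finset.sdiff_singleton_eq_erase, rk_singleton (hΓ e he), rk_of_sp hs,
        rk_of_sp (hs.mono (Finset.erase_subset _ _)), Finset.card_erase_of_mem heD]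
      have : 0 < (cmp Γ e).card := Finset.card_pos.2 ⟨e, heD⟩
      omega
    have h2 := (sepr_trans (sepr_cmp hΓ he) hsep).2
    rw [Finset.sdiff_singleton_eq_erase, rk_singleton (hΓ e he), h] at h2
    omega
  · intro h
    have h1 := rk_erase_add_one hΓ he h
    refine Finset.Subset.antisymm (cmp_subset_of_sepr h1 (Finset.mem_singleton_self e)) ?_
    exact Finset.singleton_subset_iff.2 (mem_cmp_self he)

end Pool.Agent.T2H90.CJ
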