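import Pool.Agent.T2H90.CJ.StmC

set_option autoImplicit false

namespace Pool.Agent.T2H90.CJ

open Pool.Agent.H598R2.Cnt Pool.Agent.TH694.GP

namespace PkgCIR

variable {V : Type} [DecidableEq V]

theorem sp_of_notMem {C D : Finset (Finset V)} (hC : Circ C) (hD : D ⊆ C) {e : Finset V} (he : e ∈ C)
    (heD : e ∉ D) : Sp D :=
  (hC.2.2 e he).mono fun x hx => Finset.mem_erase.2 ⟨fun h => heD (h ▸ hx), hD hx⟩

theorem nonempty {C : Finset (Finset V)} (hC : Circ C) : C.Nonempty := by
  rcases C.eq_empty_or_nonempty with h | h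
  · exact absurd (h ▸ M1.sp_empty) hC.2.1
  · exact h

theorem rank {C : Finset (Finset V)} (hC : Circ C) : rk C + 1 = C.card := by
  obtain ⟨e, he⟩ := nonempty hC
  have h1 := card_le_rk (Finset.erase_subset e C) (hC.2.2 e he)
  have h2 := Finset.card_erase_add_one he
  obtain ⟨I, hI, hs, hc⟩ := exists_card_rk C
  have h3 : I.card < C.card := by
    apply Finset.card_lt_card
    refine Finset.ssubset_iff_subset_ne.2 ⟨hI, ?_⟩
    rintro rfl
    exact hC.2.1 hs
  omega

theorem con {C : Finset (Finset V)} (hC : Circ C) : Con C := by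
  intro e he
  by_contra hne
  have hsep := sepr_cmp hC.1 he
  have heS := mem_cmp_self he
  obtain ⟨f, hf, hfS⟩ := Finset.exists_of_ssubset (Finset.ssubset_iff_subset_ne.2 ⟨cmp_subset C e, hne⟩)
  have h1 : Sp (cmp C e) := sp_of_notMem hC (cmp_subset C e) hf hfS
  have h2 : Sp (C \ cmp C e) :=
    sp_of_notMem hC Finset.sdiff_subset he (fun h => (Finset.mem_sdiff.1 h).2 heS)
  have h3 := hsep.2
  rw [rk_of_sp h1, rk_of_sp h2] at h3
  have h4 := rank hC
  have h5 := Finset.card_sdiff_add_card_eq_card (cmp_subset C e)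
  omega

theorem two {C : Finset (Finset V)} (hC : Circ C) : 2 ≤ C.card := by
  have h1 := rank hC
  by_contra h
  have h2 : C.card = 1 := by omega
  obtain ⟨e, rfl⟩ := Finset.card_eq_one.1 h2
  have h3 := rk_singleton (hC.1 e (Finset.mem_singleton_self e))
  omega

theorem exists_circ (I : Finset (Finset V)) (e : Finset V) (hp : Pairs (insert e I)) (hI : Sp I)
    (hn : ¬ Sp (insert e I)) : ∃ C ⊆ insert e I, Circ C ∧ e ∈ C := by
  classical
  obtain ⟨C, hC, hmin⟩ := Finset.exists_min_image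
    ((insert e I).powerset.filter (fun C => ¬ Sp C)) Finset.card
    ⟨insert e I, Finset.mem_filter.2 ⟨Finset.mem_powerset_self _, hn⟩⟩
  rw [Finset.mem_filter, Finset.mem_powerset] at hC
  refine ⟨C, hC.1, ⟨fun p h => hp p (hC.1 h), hC.2, ?_⟩, ?_⟩
  · intro f hf
    by_contra hfs
    have h1 := hmin (C.erase f) (Finset.mem_filter.2
      ⟨Finset.mem_powerset.2 ((Finset.erase_subset f C).trans hC.1), hfs⟩)
    have h2 := Finset.card_erase_add_one hf
    omega
  · by_contra he
    apply hC.2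
    refine hI.mono fun x hx => ?_
    rcases Finset.mem_insert.1 (hC.1 hx) with rfl | h
    · exact absurd hx he
    · exact h

end PkgCIR

theorem pCIR : S_CIR := by
  intro V _
  exact ⟨fun C hC => ⟨PkgCIR.rank hC, PkgCIR.con hC, PkgCIR.two hC⟩, PkgCIR.exists_circ⟩

end Pool.Agent.T2H90.CJ
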