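import Pool.Agent.T2H90.CJ.StmG

set_option autoImplicit false

namespace Pool.Agent.T2H90.CJ

open Pool.Agent.H598R2.Cnt Pool.Agent.TH694.GP Pool.Agent.H135R2 Pool.Agent.H632R2.Cogirth
open Pool.Agent.H135R2.VS (Conf fl IR Str Ker)

namespace PkgCJJ

theorem on_univ {V : Type} [Fintype V] [DecidableEq V] (G : SimpleGraph V) :
    On Finset.univ (prs G) :=
  ⟨prs_pairs G, fun _ _ => Finset.subset_univ _⟩

end PkgCJJ

theorem pCJJ (hSUF : S_SUF) (hSEPN : S_SEPN) (hNEC : S_NEC) (hLK : S_LK) (hLR : S_LR) : S_CJJ := by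
  intro V _ _ G h4
  rw [hLK V G h4, hLR V G (by omega)]
  constructor
  · intro h
    exact ⟨hSEPN V G h4 h, hNEC V G h4 h⟩
  · rintro ⟨h1, h2⟩ p hp q hq i j
    refine hSUF V p Finset.univ (prs G) hp (PkgCJJ.on_univ G) (by simpa using h4) h1 h2 q ?_ i
      (Finset.mem_univ _) j (Finset.mem_univ _)
    intro a b hab
    obtain ⟨u, v, huv, he⟩ := (mem_prs G _).1 hab
    have h5 : a = u ∧ b = v ∨ a = v ∧ b = u := by
      have h1 : a ∈ ({u, v} : Finset V) := by rw [← he]; simp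
      have h2 : b ∈ ({u, v} : Finset V) := by rw [← he]; simp
      have h3 : u ∈ ({a, b} : Finset V) := by rw [he]; simp
      have h4 : v ∈ ({a, b} : Finset V) := by rw [he]; simp
      simp only [Finset.mem_insert, Finset.mem_singleton] at h1 h2 h3 h4
      rcases h1 with h1 | h1 <;> rcases h2 with h2 | h2
      · subst h1; subst h2
        rcases h4 with h4 | h4
        · exact Or.inl ⟨rfl, h4.symm⟩
        · exact Or.inl ⟨rfl, h4.symm⟩
      · exact Or.inl ⟨h1, h2⟩
      · exact Or.inr ⟨h1, h2⟩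
      · subst h1; subst h2
        rcases h3 with h3 | h3
        · exact Or.inl ⟨h3.symm, rfl⟩
        · exact Or.inl ⟨h3.symm, rfl⟩
    rcases h5 with ⟨rfl, rfl⟩ | ⟨rfl, rfl⟩
    · exact hq _ _ huv
    · exact hq _ _ huv.symm

end Pool.Agent.T2H90.CJ
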