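import Pool.Agent.T2H90.CJ.StmC

set_option autoImplicit false

namespace Pool.Agent.T2H90.CJ

open Pool.Agent.H598R2.Cnt Pool.Agent.TH694.GP

theorem pCNT : S_CNT := by
  intro V _ U 𝓑 hU hcov
  set r : V → ℕ := fun u => (𝓑.filter (fun B' => u ∈ B')).card with hr
  have hswap : ∀ P : V → Prop, ∀ [DecidablePred P],
      ∑ B ∈ 𝓑, (B.filter P).card = ∑ u ∈ U, if P u then r u else 0 := by
    intro P _
    have h1 : ∀ B ∈ 𝓑, (B.filter P).card = ∑ u ∈ U, if u ∈ B ∧ P u then 1 else 0 := by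
      intro B hB
      rw [← Finset.card_filter]
      congr 1
      ext u
      simp only [Finset.mem_filter]
      exact ⟨fun h => ⟨hU B hB h.1, h⟩, fun h => h.2⟩
    rw [Finset.sum_congr rfl h1, Finset.sum_comm]
    refine Finset.sum_congr rfl fun u _ => ?_
    by_cases hP : P u
    · rw [if_pos hP, hr]
      simp only [hP, and_true]
      rw [← Finset.card_filter]
    · rw [if_neg hP]
      simp [hP]
  have hs1 := hswap (fun u => 2 ≤ r u)
  have hs2 : ∑ B ∈ 𝓑, B.card = ∑ u ∈ U, r u := by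
    have := hswap (fun _ => True)
    simpa using this
  have hr1 : ∀ u ∈ U, 1 ≤ r u := by
    intro u hu
    obtain ⟨B, hB, huB⟩ := hcov u hu
    exact Finset.card_pos.2 ⟨B, Finset.mem_filter.2 ⟨hB, huB⟩⟩
  have hpt : ∀ u ∈ U, (if 2 ≤ r u then r u else 0) + 2 ≤ 2 * r u := by
    intro u hu
    have := hr1 u hu
    split_ifs with h
    · omega
    · omega
  have hL : ∑ B ∈ 𝓑, (B.filter (fun u => 2 ≤ r u)).card + 2 * U.card =
      ∑ u ∈ U, ((if 2 ≤ r u then r u else 0) + 2) := by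
    rw [hs1, Finset.sum_add_distrib, Finset.sum_const, smul_eq_mul, mul_comm]
  have hR : 2 * ∑ B ∈ 𝓑, B.card = ∑ u ∈ U, 2 * r u := by
    rw [hs2, Finset.mul_sum]
  refine ⟨?_, ?_⟩
  · show ∑ B ∈ 𝓑, (B.filter (fun u => 2 ≤ r u)).card + 2 * U.card ≤ _
    rw [hL, hR]
    exact Finset.sum_le_sum hpt
  · intro heq u hu
    have heq' : ∑ B ∈ 𝓑, (B.filter (fun u => 2 ≤ r u)).card + 2 * U.card = 2 * ∑ B ∈ 𝓑, B.card := heq
    rw [hL, hR] at heq'
    have := (Finset.sum_eq_sum_iff_of_le hpt).1 heq' u hu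
    show r u ≤ 2
    split_ifs at this with h
    · omega
    · omega

end Pool.Agent.T2H90.CJ
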