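import Pool.Agent.T2H90.CJ.StmC

/-!
# Package COMB : the reduction
-/

set_option autoImplicit false

namespace Pool.Agent.T2H90.CJ

open Pool.Agent.H598R2.Cnt Pool.Agent.TH694.GP

theorem pCOMB (hCOV : S_COV) (hCON3 : S_CON3) (hVV : S_VV) (hDEG : S_DEG) (hTCV : S_TCV)
    (hRRV : S_RRV) (hRED : S_RED) : S_COMB := by
  intro V _ U Γ hOn hU hTC hRR
  have hcov := (hCOV V U Γ hOn hRR.1 (by omega)).1
  have hcon := hCON3 V U Γ hOn (by omega) hTC hRR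
  have hrk : rk Γ + 3 = 2 * U.card := (rig_iff_rk hOn.1 hOn.2 (by omega)).1 hRR.1
  have hcard : 2 ≤ Γ.card := by
    have := rk_le_card Γ
    omega
  obtain ⟨v, hv, hrig⟩ := hVV V Γ hOn.1 hcon hcard
  rw [hcov] at hv hrig
  exact ⟨v, hv, (hDEG V U Γ v hOn hRR (by omega) hv).1, hrig,
    (hRED V U Γ v hOn hRR.1 (by omega) hv).2, hTCV V U Γ v hOn hTC hv,
    hRRV V U Γ v hOn hU hTC hRR hv hrig⟩

end Pool.Agent.T2H90.CJ
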