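import Pool.Agent.T2H90.CJ.StmC

/-!
# Project CJ: 3-connected and redundantly rigid graphs are connected in the matroid sense
-/

set_option autoImplicit false

namespace Pool.Agent.T2H90.CJ

open Pool.Agent.H598R2.Cnt Pool.Agent.TH694.GP

namespace PkgCON3

theorem rk_bodies {V : Type} [DecidableEq V] {Γ : Finset (Finset V)} (hΓ : Pairs Γ) :
    rk Γ = ∑ B ∈ bodies Γ, (2 * B.card - 3) := by
  have h := rk_filter hΓ (fun _ => True)
  rw [Finset.filter_true_of_mem (fun _ _ => trivial),
    Finset.filter_true_of_mem (fun _ _ => trivial)] at h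
  exact h

end PkgCON3

theorem pCON3 (hCNT : S_CNT) (hBIG : S_BIG) (hCOV : S_COV) : S_CON3 := by
  intro V _ U Γ hOn hU hTC hRR e he
  have hΓ : Pairs Γ := hOn.1
  have hsub := hOn.2
  obtain ⟨hvs, -⟩ := hCOV V U Γ hOn hRR.1 hU
  have hrkU : rk Γ + 3 = 2 * U.card := (rig_iff_rk hΓ hsub (by omega)).1 hRR.1
  have hspec := bodies_spec hΓ hsub
  have hfour : ∀ B ∈ bodies Γ, 4 ≤ B.card := by
    intro B hB
    obtain ⟨f, hf, rfl⟩ := mem_bodies.1 hB
    refine (hBIG V Γ f hΓ hf).1 ?_
    have h1 := hRR.2 f hf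
    have h2 : Pairs (Γ.erase f) := fun p hp => hΓ p (Finset.mem_of_mem_erase hp)
    have h3 := (rig_iff_rk h2 (fun p hp => hsub p (Finset.mem_of_mem_erase hp)) (by omega)).1 h1
    omega
  have hsum : rk Γ + 3 * (bodies Γ).card = 2 * ∑ B ∈ bodies Γ, B.card := by
    rw [PkgCON3.rk_bodies hΓ, Finset.mul_sum, mul_comm 3 (bodies Γ).card, ← smul_eq_mul,
      ← Finset.sum_const, ← Finset.sum_add_distrib]
    refine Finset.sum_congr rfl fun B hB => ?_
    have := hfour B hB
    omega
  have hcov : ∀ u ∈ U, ∃ B ∈ bodies Γ, u ∈ B := by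
    intro u hu
    rw [← hvs] at hu
    obtain ⟨p, hp, hup⟩ := mem_vs.1 hu
    exact ⟨vs (cmp Γ p), mem_bodies.2 ⟨p, hp, rfl⟩, sub_vs (mem_cmp_self hp) hup⟩
  have hC := (hCNT V U (bodies Γ) hspec.subU hcov).1
  -- at most one body
  have hk : (bodies Γ).card ≤ 1 := by
    by_contra hk
    have hk2 : 1 < (bodies Γ).card := by omega
    have hs : ∀ B ∈ bodies Γ, 3 ≤
        (B.filter (fun u => 2 ≤ ((bodies Γ).filter (fun B' => u ∈ B')).card)).card := by
      intro B hB
      by_contra hcon
      have hcard := Finset.card_filter_add_card_filter_not (s := B)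
        (fun u => 2 ≤ ((bodies Γ).filter (fun B' => u ∈ B')).card)
      have hB4 := hfour B hB
      set X := B.filter (fun u => ¬ 2 ≤ ((bodies Γ).filter (fun B' => u ∈ B')).card) with hX
      have hNb : Nb U Γ X ⊆
          B.filter (fun u => 2 ≤ ((bodies Γ).filter (fun B' => u ∈ B')).card) := by
        intro v hv
        obtain ⟨hvU, hvX, x, hx, hvx⟩ := mem_Nb.1 hv
        have hxB : x ∈ B := (Finset.mem_filter.1 hx).1
        have hxr := (Finset.mem_filter.1 hx).2
        have hmem : vs (cmp Γ {v, x}) ∈ bodies Γ := mem_bodies.2 ⟨_, hvx, rfl⟩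
        have hsubv : ({v, x} : Finset V) ⊆ vs (cmp Γ {v, x}) := sub_vs (mem_cmp_self hvx)
        have hBB : vs (cmp Γ {v, x}) = B := by
          by_contra hne
          apply hxr
          have h1 : ({vs (cmp Γ {v, x}), B} : Finset (Finset V)) ⊆
              (bodies Γ).filter (fun B' => x ∈ B') := by
            intro D hD
            rw [Finset.mem_insert, Finset.mem_singleton] at hD
            rw [Finset.mem_filter]
            rcases hD with rfl | rfl
            · exact ⟨hmem, hsubv (Finset.mem_insert_of_mem (Finset.mem_singleton_self x))⟩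
            · exact ⟨hB, hxB⟩
          have h2 := Finset.card_le_card h1
          rw [Finset.card_pair hne] at h2
          exact h2
        have hvB : v ∈ B := by
          rw [← hBB]
          exact hsubv (Finset.mem_insert_self v _)
        rw [Finset.mem_filter]
        refine ⟨hvB, ?_⟩
        by_contra hr
        exact hvX (Finset.mem_filter.2 ⟨hvB, hr⟩)
      apply hTC X
      refine ⟨(Finset.filter_subset _ _).trans (hspec.subU B hB), ?_, ?_, ?_⟩
      · rw [← Finset.card_pos]
        omega
      · have := Finset.card_le_card hNb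
        omega
      · intro hXU
        have hUB : U ⊆ B := by
          rw [← hXU]
          refine Finset.union_subset (Finset.filter_subset _ _) (hNb.trans (Finset.filter_subset _ _))
        obtain ⟨B', hB', hne⟩ := Finset.exists_mem_ne hk2 B
        obtain ⟨f, hf, hfB⟩ := mem_bodies.1 hB
        obtain ⟨g, hg, hgB⟩ := mem_bodies.1 hB'
        have h1 : cmp Γ f ≠ cmp Γ g := by
          intro h
          apply hne
          rw [← hgB, ← hfB, h]
        have h2 := vs_inter_le hΓ hf hg h1
        rw [hfB, hgB, Finset.inter_eq_right.2 ((hspec.subU B' hB').trans hUB)] at h2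
        have := hfour B' hB'
        omega
    have h3 := Finset.sum_le_sum hs
    rw [Finset.sum_const, smul_eq_mul] at h3
    omega
  refine Finset.Subset.antisymm (cmp_subset Γ e) fun f hf => ?_
  have h1 : vs (cmp Γ e) = vs (cmp Γ f) :=
    Finset.card_le_one.1 hk _ (mem_bodies.2 ⟨e, he, rfl⟩) _ (mem_bodies.2 ⟨f, hf, rfl⟩)
  rw [cmp_eq_of_vs hΓ he hf h1]
  exact mem_cmp_self hf

end Pool.Agent.T2H90.CJ
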