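import Pool.Agent.T2H90.CJ.StmC

/-!
# Package COV : a rigid graph covers its vertices
-/

set_option autoImplicit false

namespace Pool.Agent.T2H90.CJ

open Pool.Agent.H598R2.Cnt Pool.Agent.TH694.GP

namespace PkgCOV

variable {V : Type} [DecidableEq V]

theorem pairs_del {Γ : Finset (Finset V)} (h : Pairs Γ) (v : V) : Pairs (del Γ v) :=
  fun p hp => h p (Finset.mem_filter.1 hp).1

theorem del_sub {U : Finset V} {Γ : Finset (Finset V)} (h : ∀ p ∈ Γ, p ⊆ U) (v : V) :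
    ∀ p ∈ del Γ v, p ⊆ U.erase v := by
  intro p hp x hx
  obtain ⟨h1, h2⟩ := Finset.mem_filter.1 hp
  rw [Finset.mem_erase]
  refine ⟨?_, h p h1 hx⟩
  rintro rfl
  exact h2 hx

theorem rk_del_le {U : Finset V} {Γ : Finset (Finset V)} (hΓ : Pairs Γ) (h : ∀ p ∈ Γ, p ⊆ U)
    (hU : 3 ≤ U.card) {v : V} (hv : v ∈ U) : rk (del Γ v) + 3 ≤ 2 * (U.card - 1) := by
  have h2 : (U.erase v).card = U.card - 1 := Finset.card_erase_of_mem hv
  rw [← h2]
  exact rk_le_of_sub (pairs_del hΓ v) (del_sub h v) (by omega)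

end PkgCOV

open PkgCOV in
theorem pCOV (hST : S_ST) : S_COV := by
  intro V _ U Γ hOn hR hU
  obtain ⟨hΓ, hsub⟩ := hOn
  have hrk : rk Γ + 3 = 2 * U.card := (rig_iff_rk hΓ hsub (by omega)).1 hR
  have hdeg : ∀ v ∈ U, 2 ≤ (Nb U Γ {v}).card := by
    intro v hv
    obtain ⟨-, h2, -⟩ := hST V U Γ v ⟨hΓ, hsub⟩ hv
    have h3 := rk_del_le hΓ hsub hU hv
    have h4 : Γ ⊆ del Γ v ∪ Γ.filter (fun e => v ∈ e) := by
      intro e he
      rw [Finset.mem_union]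
      by_cases hve : v ∈ e
      · exact Or.inr (Finset.mem_filter.2 ⟨he, hve⟩)
      · exact Or.inl (Finset.mem_filter.2 ⟨he, hve⟩)
    have h5 := rk_mono h4
    have h6 := rk_union_le (del Γ v) (Γ.filter (fun e => v ∈ e))
    have h7 := rk_le_card (Γ.filter (fun e => v ∈ e))
    omega
  refine ⟨?_, hdeg⟩
  apply Finset.Subset.antisymm (vs_sub hsub)
  intro x hx
  obtain ⟨-, h2, -⟩ := hST V U Γ x ⟨hΓ, hsub⟩ hx
  have h3 := hdeg x hx
  have h4 : 0 < (Γ.filter (fun e => x ∈ e)).card := by omega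
  obtain ⟨e, he⟩ := Finset.card_pos.1 h4
  rw [Finset.mem_filter] at he
  exact mem_vs.2 ⟨e, he.1, he.2⟩

end Pool.Agent.T2H90.CJ
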