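import Pool.Agent.T2H90.CJ.StmC

/-!
# Package DEG : degrees in redundantly rigid graphs
-/

set_option autoImplicit false

namespace Pool.Agent.T2H90.CJ

open Pool.Agent.H598R2.Cnt Pool.Agent.TH694.GP

theorem pDEG (hST : S_ST) (hCOV : S_COV) : S_DEG := by
  intro V _ U Γ v hOn hRR hU hv
  obtain ⟨-, h2, -⟩ := hST V U Γ v hOn hv
  have hc2 := (hCOV V U Γ hOn hRR.1 hU).2 v hv
  obtain ⟨hΓ, hsub⟩ := hOn
  have h4 : 0 < (Γ.filter (fun e => v ∈ e)).card := by omega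
  obtain ⟨e, he⟩ := Finset.card_pos.1 h4
  have he' := Finset.mem_filter.1 he
  have hΓe : Pairs (Γ.erase e) := fun p hp => hΓ p (Finset.mem_of_mem_erase hp)
  have hsube : ∀ p ∈ Γ.erase e, p ⊆ U := fun p hp => hsub p (Finset.mem_of_mem_erase hp)
  have hrk : rk (Γ.erase e) + 3 = 2 * U.card :=
    (rig_iff_rk hΓe hsube (by omega)).1 (hRR.2 e he'.1)
  have hpd : Pairs (del Γ v) := fun p hp => hΓ p (Finset.mem_filter.1 hp).1
  have hds : ∀ p ∈ del Γ v, p ⊆ U.erase v := by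
    intro p hp x hx
    obtain ⟨h1, h2⟩ := Finset.mem_filter.1 hp
    rw [Finset.mem_erase]
    refine ⟨?_, hsub p h1 hx⟩
    rintro rfl
    exact h2 hx
  have hUc : (U.erase v).card = U.card - 1 := Finset.card_erase_of_mem hv
  have h3 : rk (del Γ v) + 3 ≤ 2 * (U.erase v).card := rk_le_of_sub hpd hds (by omega)
  have h5 : Γ.erase e ⊆ del Γ v ∪ (Γ.filter (fun e => v ∈ e)).erase e := by
    intro f hf
    rw [Finset.mem_erase] at hf
    rw [Finset.mem_union]
    by_cases hvf : v ∈ f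
    · exact Or.inr (Finset.mem_erase.2 ⟨hf.1, Finset.mem_filter.2 ⟨hf.2, hvf⟩⟩)
    · exact Or.inl (Finset.mem_filter.2 ⟨hf.2, hvf⟩)
  have h6 := rk_mono h5
  have h7 := rk_union_le (del Γ v) ((Γ.filter (fun e => v ∈ e)).erase e)
  have h8 := rk_le_card ((Γ.filter (fun e => v ∈ e)).erase e)
  have h9 : ((Γ.filter (fun e => v ∈ e)).erase e).card = (Γ.filter (fun e => v ∈ e)).card - 1 :=
    Finset.card_erase_of_mem he
  refine ⟨by omega, fun h => ?_⟩
  rw [rig_iff_rk hpd hds (by omega)]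
  omega

end Pool.Agent.T2H90.CJ
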