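import Pool.Agent.T2H90.CJ.StmC

set_option autoImplicit false

namespace Pool.Agent.T2H90.CJ

open Pool.Agent.H598R2.Cnt Pool.Agent.TH694.GP

theorem pDEG3 (hST : S_ST) : S_DEG3 := by
  intro V _ U Γ hOn hcard
  by_contra hcon
  push Not at hcon
  have h1 : ∑ u ∈ U, (Γ.filter (fun e => u ∈ e)).card = ∑ e ∈ Γ, (U.filter (fun u => u ∈ e)).card :=
    Finset.sum_card_bipartiteAbove_eq_sum_card_bipartiteBelow (fun (u : V) (e : Finset V) => u ∈ e)
  have h2 : ∀ e ∈ Γ, (U.filter (fun u => u ∈ e)).card = 2 := by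
    intro e he
    have : U.filter (fun u => u ∈ e) = e := by
      ext u
      rw [Finset.mem_filter]
      exact ⟨fun h => h.2, fun h => ⟨hOn.2 e he h, h⟩⟩
    rw [this]
    exact hOn.1 e he
  rw [Finset.sum_congr rfl h2, Finset.sum_const, smul_eq_mul] at h1
  have h3 : ∑ _u ∈ U, 4 ≤ ∑ u ∈ U, (Γ.filter (fun e => u ∈ e)).card := by
    refine Finset.sum_le_sum fun u hu => ?_
    have h := (hST V U Γ u hOn hu).2.1
    rw [h]
    have := hcon u hu
    omega
  rw [Finset.sum_const, smul_eq_mul] at h3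
  omega

end Pool.Agent.T2H90.CJ
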