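import Pool.Agent.T2H90.CJ.StmC

set_option autoImplicit false

namespace Pool.Agent.T2H90.CJ

open Pool.Agent.H598R2.Cnt Pool.Agent.TH694.GP

namespace PkgEAR

variable {V : Type} [DecidableEq V]

theorem sp_of_notMem {C D : Finset (Finset V)} (hC : Circ C) (hD : D ⊆ C) {e : Finset V} (he : e ∈ C)
    (heD : e ∉ D) : Sp D :=
  (hC.2.2 e he).mono fun x hx => Finset.mem_erase.2 ⟨fun h => heD (h ▸ hx), hD hx⟩

theorem inter_eq {E I J : Finset (Finset V)} (hI : Maxl E I) (hIJ : I ⊆ J) (hJ : Sp J) : J ∩ E = I := by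
  refine Finset.Subset.antisymm ?_ (Finset.subset_inter hIJ hI.1)
  intro p hp
  rw [Finset.mem_inter] at hp
  by_contra hpI
  exact hI.2.2 p hp.2 hpI (hJ.mono (Finset.insert_subset hp.1 hIJ))

end PkgEAR

theorem pEAR (hCIR : S_CIR) (hUNI : S_UNI) (hLINK : S_LINK) : S_EAR := by
  classical
  intro V _ Γ E hΓ hcon hconE hE hne hneΓ hmax
  obtain ⟨C1, h1, h2, h3, h4⟩ := hLINK V Γ E hΓ hcon hE hne hneΓ
  obtain ⟨C, hC, hmin⟩ := Finset.exists_min_image
    (Γ.powerset.filter (fun C => Circ C ∧ (C ∩ E).Nonempty ∧ (C \ E).Nonempty)) (fun C => (C \ E).card)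
    ⟨C1, Finset.mem_filter.2 ⟨Finset.mem_powerset.2 h1, h2, h3, h4⟩⟩
  rw [Finset.mem_filter, Finset.mem_powerset] at hC
  obtain ⟨hCΓ, hCc, ⟨x, hx⟩, ⟨y, hy⟩⟩ := hC
  rw [Finset.mem_inter] at hx
  rw [Finset.mem_sdiff] at hy
  have hEp : Pairs E := fun p hp => hΓ p (hE hp)
  have hEC : E ∪ C ⊆ Γ := Finset.union_subset hE hCΓ
  have hEC2 : E ∪ C = Γ := by
    have h5 : Con (E ∪ C) := hUNI V E C (fun p hp => hΓ p (hEC hp)) hconE ((hCIR V).1 C hCc).2.1
      ⟨x, Finset.mem_inter.2 ⟨hx.2, hx.1⟩⟩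
    rcases hmax (E ∪ C) h5 Finset.subset_union_left hEC with h | h
    · exact absurd (h ▸ Finset.mem_union_right E hy.1) hy.2
    · exact h
  have hA : Γ \ E = C \ E := by
    rw [← hEC2]
    ext z
    simp only [Finset.mem_sdiff, Finset.mem_union]
    tauto
  have hAs : Sp (C \ E) :=
    PkgEAR.sp_of_notMem hCc Finset.sdiff_subset hx.1 (fun h => (Finset.mem_sdiff.1 h).2 hx.2)
  have hECs : Sp (E ∩ C) :=
    PkgEAR.sp_of_notMem hCc Finset.inter_subset_right hy.1 (fun h => hy.2 (Finset.mem_inter.1 h).1)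
  have hrC := ((hCIR V).1 C hCc).1
  have hsub := rk_submod hEp hCc.1
  rw [hEC2, rk_of_sp hECs] at hsub
  have hcard : (E ∩ C).card + (C \ E).card = C.card := by
    rw [Finset.inter_comm]
    exact Finset.card_inter_add_card_sdiff C E
  rw [hA]
  refine ⟨le_antisymm (by omega) ?_, hAs⟩
  by_contra hlt
  push Not at hlt
  obtain ⟨I, -, hI⟩ := exists_maxl (Finset.empty_subset E) (M1.sp_empty (V := V))
  obtain ⟨J, hIJ, hJ⟩ := exists_maxl (Γ := Γ) (hI.1.trans hE) hI.2.1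
  have hJE := PkgEAR.inter_eq hI hIJ hJ.2.1
  have e1 := rk_eq hEp hI
  have e2 := rk_eq hΓ hJ
  have e3 := Finset.card_inter_add_card_sdiff J E
  rw [hJE] at e3
  have hJA : J \ E ⊆ C \ E := by
    rw [← hA]
    exact Finset.sdiff_subset_sdiff hJ.1 subset_rfl
  have e4 := Finset.card_sdiff_add_card_eq_card hJA
  have e5 : 1 < ((C \ E) \ (J \ E)).card := by omega
  obtain ⟨a, ha, b, hb, hab⟩ := Finset.one_lt_card.1 e5
  simp only [Finset.mem_sdiff, not_and, not_not] at ha hb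
  have haJ : a ∉ J := fun h => ha.1.2 (ha.2 h)
  have hbJ : b ∉ J := fun h => hb.1.2 (hb.2 h)
  have hpairs : Pairs (insert a J) := fun p hp => by
    rcases Finset.mem_insert.1 hp with rfl | hp
    · exact hΓ _ (hCΓ ha.1.1)
    · exact hΓ p (hJ.1 hp)
  obtain ⟨D, hD, hDc, haD⟩ := (hCIR V).2 J a hpairs hJ.2.1 (hJ.2.2 a (hCΓ ha.1.1) haJ)
  have hDΓ : D ⊆ Γ := hD.trans (Finset.insert_subset (hCΓ ha.1.1) hJ.1)
  have hDA : D \ E ⊆ (C \ E).erase b := by
    intro z hz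
    rw [Finset.mem_sdiff] at hz
    refine Finset.mem_erase.2 ⟨?_, ?_⟩
    · rintro rfl
      rcases Finset.mem_insert.1 (hD hz.1) with h | h
      · exact hab h.symm
      · exact hbJ h
    · rw [← hA]
      exact Finset.mem_sdiff.2 ⟨hDΓ hz.1, hz.2⟩
  have hbA : b ∈ C \ E := Finset.mem_sdiff.2 hb.1
  by_cases hDE : (D ∩ E).Nonempty
  · have h6 := hmin D (Finset.mem_filter.2 ⟨Finset.mem_powerset.2 hDΓ, hDc, hDE,
      ⟨a, Finset.mem_sdiff.2 ⟨haD, ha.1.2⟩⟩⟩)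
    have h7 := Finset.card_le_card hDA
    have h8 := Finset.card_erase_add_one hbA
    omega
  · apply hDc.2.1
    refine hAs.mono fun z hz => ?_
    have hzE : z ∉ E := fun h => hDE ⟨z, Finset.mem_inter.2 ⟨hz, h⟩⟩
    exact Finset.mem_of_mem_erase (hDA (Finset.mem_sdiff.2 ⟨hz, hzE⟩))

end Pool.Agent.T2H90.CJ
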