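import Pool.Agent.T2H90.CJ.StmG

set_option autoImplicit false

namespace Pool.Agent.T2H90.CJ

open Pool.Agent.H598R2.Cnt Pool.Agent.TH694.GP Pool.Agent.H135R2 Pool.Agent.H632R2.Cogirth
open Pool.Agent.H135R2.VS (Conf fl IR Str Ker)

namespace PkgGE

theorem fl_eq {V : Type} (p q : V → Plane) (i j : V) :
    fl (d := 2) (fun v => (q v).ofLp) (fun v => (q v).ofLp) i j =
      fl (d := 2) (fun v => (p v).ofLp) (fun v => (p v).ofLp) i j ↔ dist (p i) (p j) = dist (q i) (q j) := by
  rw [Geo.dist_iff]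
  unfold fl
  rw [Fin.sum_univ_two, Fin.sum_univ_two]
  constructor
  · intro h
    nlinarith [h]
  · intro h
    nlinarith [h]

end PkgGE

theorem pGE : S_GE := by
  intro V _ _ G
  unfold GRc GloballyRigid Equivalent TH694.GP.Congruent
  constructor
  · intro h p hp q hq u v
    refine (PkgGE.fl_eq p q u v).1 ?_
    refine h (fun v => (p v).ofLp) hp (fun v => (q v).ofLp) ?_ u v
    intro i j hij
    exact (PkgGE.fl_eq p q i j).2 (hq i j hij)
  · intro h p hp q hq i j
    refine (PkgGE.fl_eq (fun v => WithLp.toLp 2 (p v)) (fun v => WithLp.toLp 2 (q v)) i j).2 ?_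
    refine h (fun v => WithLp.toLp 2 (p v)) hp (fun v => WithLp.toLp 2 (q v)) ?_ i j
    intro u v huv
    exact (PkgGE.fl_eq (fun v => WithLp.toLp 2 (p v)) (fun v => WithLp.toLp 2 (q v)) u v).1 (hq u v huv)

end Pool.Agent.T2H90.CJ
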