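import Pool.Agent.T2H90.CJ.StmG

/-!
# Project CJ, package HA

If deleting the edge `{a, b}` makes `m` a flex then the stress of `{a, b}` is zero.
-/

set_option autoImplicit false

namespace Pool.Agent.T2H90.CJ

open Pool.Agent.H598R2.Cnt Pool.Agent.TH694.GP Pool.Agent.H135R2 Pool.Agent.H632R2.Cogirth
open Pool.Agent.H135R2.VS (Conf fl IR Str Ker)

namespace PkgHA

variable {V : Type} [Fintype V] [DecidableEq V]

theorem two (a b : V) (c d : ℝ) (g : V → V → ℝ) :
    ∑ i, ∑ j, ((if i = a ∧ j = b then c else 0) + (if i = b ∧ j = a then d else 0)) * g i j =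
      c * g a b + d * g b a := by
  simp only [add_mul, Finset.sum_add_distrib, ite_mul, zero_mul, ite_and]
  congr 1
  · rw [Finset.sum_eq_single a]
    · simp
    · intro i _ hi
      simp [hi]
    · intro h
      exact absurd (Finset.mem_univ a) h
  · rw [Finset.sum_eq_single b]
    · simp
    · intro i _ hi
      simp [hi]
    · intro h
      exact absurd (Finset.mem_univ b) h

/-- the weights without the pair `a`, `b` -/
def rem (ω : V → V → ℝ) (a b : V) (i j : V) : ℝ :=
  if (i = a ∧ j = b) ∨ (i = b ∧ j = a) then 0 else ω i j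

omit [Fintype V] in
theorem rem_add (ω : V → V → ℝ) {a b : V} (hab : a ≠ b) (i j : V) :
    ω i j = rem ω a b i j +
      ((if i = a ∧ j = b then ω a b else 0) + (if i = b ∧ j = a then ω b a else 0)) := by
  unfold rem
  by_cases h1 : i = a ∧ j = b
  · obtain ⟨rfl, rfl⟩ := h1
    simp [hab]
  · by_cases h2 : i = b ∧ j = a
    · obtain ⟨rfl, rfl⟩ := h2
      simp [hab.symm]
    · simp [h1, h2]

theorem sum_rem (ω : V → V → ℝ) {a b : V} (hab : a ≠ b) (g : V → V → ℝ) (hg : g b a = g a b) :
    ∑ i, ∑ j, ω i j * g i j = ∑ i, ∑ j, rem ω a b i j * g i j + (ω a b + ω b a) * g a b := by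
  have h := two a b (ω a b) (ω b a) g
  rw [hg] at h
  have e : ∀ i j, ω i j * g i j = rem ω a b i j * g i j +
      ((if i = a ∧ j = b then ω a b else 0) + (if i = b ∧ j = a then ω b a else 0)) * g i j := by
    intro i j
    rw [← add_mul, ← rem_add ω hab]
  simp only [e, Finset.sum_add_distrib]
  rw [h]
  ring

end PkgHA

open PkgHA in
theorem pHA : S_HA := by
  intro V _ _ H p m ω a b hω hab hm hne
  have hne' : a ≠ b := hab.ne
  have hadj : ∀ i j, H.Adj i j → ¬ ((i = a ∧ j = b) ∨ (i = b ∧ j = a)) →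
      (H.deleteEdges {s(a, b)}).Adj i j := by
    intro i j hij hn
    rw [SimpleGraph.deleteEdges_adj]
    refine ⟨hij, fun h => hn ?_⟩
    rw [Set.mem_singleton_iff, Sym2.eq_iff] at h
    exact h
  -- the stress is antisymmetric on the deleted edge
  have h0 : ω a b + ω b a = 0 := by
    have h1 := hω.sum_fl m
    rw [sum_rem ω hne' (fun i j => fl p m i j) (VS.fl_symm p m b a)] at h1
    have h2 : ∑ i, ∑ j, rem ω a b i j * fl p m i j = 0 := by
      refine Finset.sum_eq_zero fun i _ => Finset.sum_eq_zero fun j _ => ?_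
      unfold rem
      split_ifs with h
      · rw [zero_mul]
      · by_cases hij : H.Adj i j
        · rw [hm i j (hadj i j hij h), mul_zero]
        · rw [hω.1 i j hij, zero_mul]
    rw [h2, zero_add] at h1
    exact (mul_eq_zero.1 h1).resolve_right hne
  have hen : ∀ y z : V → ℝ, VS.en (rem ω a b) y z = VS.en ω y z := by
    intro y z
    have h1 := sum_rem ω hne' (fun i j => (y i - y j) * (z i - z j)) (by ring)
    rw [h0, zero_mul, add_zero] at h1
    exact h1.symm
  have hker : Ker (rem ω a b) = Ker ω := by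
    ext y
    rw [VS.mem_Ker, VS.mem_Ker]
    simp only [hen]
  refine ⟨rem ω a b, ⟨fun i j hij => ?_, fun c => ?_⟩, hker⟩
  · by_cases h : (i = a ∧ j = b) ∨ (i = b ∧ j = a)
    · unfold rem
      rw [if_pos h]
    · unfold rem
      rw [if_neg h]
      exact hω.1 i j fun h' => hij (hadj i j h' h)
  · rw [hker]
    exact hω.2 c

end Pool.Agent.T2H90.CJ
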