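import Pool.Agent.T2H90.CJ.StmG

/-!
# Project CJ, package HB (helper55): affine images with three edges of the same length
-/

set_option autoImplicit false

namespace Pool.Agent.T2H90.CJ

open Pool.Agent.H135R2.VS (Conf fl)

theorem pHB (hQF : S_QF) : S_HB := by
  intro V p q A b i j hq hl hpar
  have key : ∀ h h' : V, fl q q h h' - fl p p h h' =
      (A 0 0 ^ 2 + A 1 0 ^ 2 - 1) * (p h 0 - p h' 0) ^ 2 +
        2 * (A 0 0 * A 0 1 + A 1 0 * A 1 1) * (p h 0 - p h' 0) * (p h 1 - p h' 1) +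
        (A 0 1 ^ 2 + A 1 1 ^ 2 - 1) * (p h 1 - p h' 1) ^ 2 := by
    intro h h'
    simp only [fl, Fin.sum_univ_two, hq, dotProduct]
    ring
  have h3 : ∀ k, (A 0 0 ^ 2 + A 1 0 ^ 2 - 1) * (p (i k) 0 - p (j k) 0) ^ 2 +
        2 * (A 0 0 * A 0 1 + A 1 0 * A 1 1) * (p (i k) 0 - p (j k) 0) * (p (i k) 1 - p (j k) 1) +
        (A 0 1 ^ 2 + A 1 1 ^ 2 - 1) * (p (i k) 1 - p (j k) 1) ^ 2 = 0 := by
    intro k
    rw [← key, hl k, sub_self]
  obtain ⟨hx, hy, hz⟩ := hQF (A 0 0 ^ 2 + A 1 0 ^ 2 - 1) (A 0 0 * A 0 1 + A 1 0 * A 1 1)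
    (A 0 1 ^ 2 + A 1 1 ^ 2 - 1) (fun a => p (i 0) a - p (j 0) a) (fun a => p (i 1) a - p (j 1) a)
    (fun a => p (i 2) a - p (j 2) a) (hpar 0 1 (by decide)) (hpar 0 2 (by decide))
    (hpar 1 2 (by decide)) (h3 0) (h3 1) (h3 2)
  intro h h'
  have h4 := key h h'
  rw [hx, hy, hz] at h4
  linarith

end Pool.Agent.T2H90.CJ
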