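import Pool.Agent.T2H90.CJ.StmG

/-!
# Project CJ, package HEN (helper55): deletion of an edge of a graph with a stress of maximal rank
-/

set_option autoImplicit false

namespace Pool.Agent.T2H90.CJ

open Pool.Agent.H598R2.Cnt Pool.Agent.TH694.GP Pool.Agent.H135R2 Pool.Agent.H632R2.Cogirth
open Pool.Agent.H135R2.VS (Conf fl IR Str Ker)

theorem pHEN (hIRS : S_IRS) (hNPA : S_NPA) (hHB : S_HB) (hHA : S_HA) : S_HEN := by
  classical
  intro V _ _ H p ω a b h4 hp hIR hω hK hab
  by_contra hno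
  have hno' := hno
  unfold IR at hno'
  push Not at hno'
  obtain ⟨m, hm, i₀, j₀, h0⟩ := hno'
  have hmab : fl p m a b ≠ 0 := by
    intro h
    apply h0
    apply hIR
    intro i j hij
    by_cases he : s(i, j) = s(a, b)
    · rw [Sym2.eq_iff] at he
      rcases he with ⟨rfl, rfl⟩ | ⟨rfl, rfl⟩
      · exact h
      · rw [VS.fl_symm]
        exact h
    · exact hm i j ((SimpleGraph.deleteEdges_adj).2 ⟨hij, he⟩)
  obtain ⟨ω', hω', hker⟩ := hHA V H p m ω a b hω hab hm hmab
  apply hno
  refine VS.ir_of_gr hp fun q hq => ?_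
  have hs := hω'.transfer hp hq
  have hs2 : ∀ c, ∃ (α : Fin 2 → ℝ) (β : ℝ), ∀ i, q i c = α ⬝ᵥ p i + β := by
    intro c
    have h1 := hs.2 c
    rw [hker] at h1
    exact hK _ h1
  choose A B hAB using hs2
  have hrig : Rig (prs H) Finset.univ := (hIRS V H p hp (by omega)).1 hIR
  obtain ⟨I, hI, -, -, hIc⟩ := hrig
  rw [Finset.card_univ] at hIc
  have h5 : 3 ≤ ((prs H).erase {a, b}).card := by
    have h6 := Finset.card_le_card hI
    have h7 := Finset.pred_card_le_card_erase (s := prs H) (a := ({a, b} : Finset V))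
    omega
  obtain ⟨T, hT, hTc⟩ := Finset.exists_subset_card_eq h5
  let e : Fin 3 → Finset V := fun k => (T.equivFinOfCardEq hTc).symm k
  have he : Function.Injective e := fun k l hkl =>
    (T.equivFinOfCardEq hTc).symm.injective (Subtype.ext hkl)
  have heT : ∀ k, e k ∈ (prs H).erase {a, b} := fun k =>
    hT ((T.equivFinOfCardEq hTc).symm k).2
  have hex : ∀ k, ∃ u v, H.Adj u v ∧ e k = {u, v} := fun k =>
    (mem_prs H _).1 (Finset.mem_erase.1 (heT k)).2
  choose i j hadj heq using hex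
  have hadj' : ∀ k, (H.deleteEdges {s(a, b)}).Adj (i k) (j k) := by
    intro k
    refine (SimpleGraph.deleteEdges_adj).2 ⟨hadj k, ?_⟩
    intro h
    have h1 : s(i k, j k) = s(a, b) := h
    have h2 := congrArg Sym2.toFinset h1
    rw [toFinset_mk, toFinset_mk] at h2
    exact (Finset.mem_erase.1 (heT k)).1 ((heq k).trans h2)
  exact hHB V p q A B i j (fun h c => hAB c h) (fun k => hq _ _ (hadj' k))
    (fun k l hkl => hNPA V p (i k) (j k) (i l) (j l) hp (H.ne_of_adj (hadj k))
      (H.ne_of_adj (hadj l)) (fun h => hkl (he ((heq k).trans (h.trans (heq l).symm)))))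

end Pool.Agent.T2H90.CJ
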