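import Pool.Agent.T2H90.CJ.StmG

/-!
# Package IRG : generic rigid frameworks are infinitesimally rigid
-/

set_option autoImplicit false

namespace Pool.Agent.T2H90.CJ

open Pool.Agent.H598R2.Cnt Pool.Agent.TH694.GP Pool.Agent.H135R2 Pool.Agent.H632R2.Cogirth
open Pool.Agent.H135R2.VS (Conf fl IR Str Ker)

namespace PkgIRG

variable {V : Type} [Fintype V] [DecidableEq V]

/-- the functional given by the motion `m` -/
noncomputable def Phi (m : Conf 2 V) : (V → Fin 2 → ℝ) →ₗ[ℝ] ℝ where
  toFun r := ∑ w, ∑ a, r w a * m w a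
  map_add' r s := by
    rw [← Finset.sum_add_distrib]
    refine Finset.sum_congr rfl fun w _ => ?_
    rw [← Finset.sum_add_distrib]
    refine Finset.sum_congr rfl fun a _ => ?_
    simp only [Pi.add_apply]
    ring
  map_smul' c r := by
    simp only [RingHom.id_apply, smul_eq_mul]
    rw [Finset.mul_sum]
    refine Finset.sum_congr rfl fun w _ => ?_
    rw [Finset.mul_sum]
    refine Finset.sum_congr rfl fun a _ => ?_
    simp only [Pi.smul_apply, smul_eq_mul]
    ring

theorem phi_rv (p m : Conf 2 V) {i j : V} (hij : i ≠ j) :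
    Phi m (Pool.Agent.H632R2.Laman.rv p {i, j}) = fl p m i j := by
  change ∑ w, ∑ a, Pool.Agent.H632R2.Laman.rv p {i, j} w a * m w a = fl p m i j
  rw [Finset.sum_eq_add i j hij]
  · simp only [Pool.Agent.H632R2.Laman.rv_pair p hij, if_true, if_neg hij.symm]
    unfold VS.fl
    rw [← Finset.sum_add_distrib]
    refine Finset.sum_congr rfl fun a _ => ?_
    simp only [Pi.sub_apply]
    ring
  · intro w _ hw
    simp only [Pool.Agent.H632R2.Laman.rv_pair p hij, if_neg hw.1, if_neg hw.2]
    simp
  · intro h; exact absurd (Finset.mem_univ _) h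
  · intro h; exact absurd (Finset.mem_univ _) h

end PkgIRG

open PkgIRG in
theorem pIRG : S_IRG := by
  intro V _ _ p Γ X hp hΓ hR hX m hm i hi j hj
  rcases eq_or_ne i j with rfl | hij
  · exact VS.fl_self p m i
  obtain ⟨I, hI, hSp, hIX, hIc⟩ := hR
  by_cases hmem : ({i, j} : Finset V) ∈ I
  · exact hm i j (hI hmem)
  have hIP : Pairs I := fun e he => hΓ e (hI he)
  have hind : LinearIndepOn ℝ (Pool.Agent.H632R2.Laman.rv p) (I : Set (Finset V)) :=
    Pool.Agent.H632R2.Laman.indep_gen_of_sp (z := p) hp hIP hSp
  have hinsP : Pairs (insert {i, j} I) := by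
    intro e he
    rcases Finset.mem_insert.1 he with rfl | he
    · exact Finset.card_pair hij
    · exact hIP e he
  have hnsp : ¬ Sp (insert {i, j} I) := by
    intro h
    have h1 := h X hX
    have h2 : ins (insert {i, j} I) X = (insert {i, j} I).card := by
      unfold ins
      congr 1
      apply Finset.filter_true_of_mem
      intro e he
      rcases Finset.mem_insert.1 he with rfl | he
      · intro x hx
        rcases Finset.mem_insert.1 hx with rfl | hx
        · exact hi
        · rw [Finset.mem_singleton] at hx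
          subst hx
          exact hj
      · exact hIX e he
    have h3 : (insert {i, j} I).card = I.card + 1 := Finset.card_insert_of_notMem hmem
    omega
  have hspan : Pool.Agent.H632R2.Laman.rv p {i, j} ∈
      Submodule.span ℝ (Pool.Agent.H632R2.Laman.rv p '' (I : Set (Finset V))) := by
    by_contra hno
    have h1 := (linearIndepOn_insert (K := ℝ) (f := Pool.Agent.H632R2.Laman.rv p)
      (s := (I : Set (Finset V))) (a := ({i, j} : Finset V)) (by exact_mod_cast hmem)).2 ⟨hind, hno⟩
    rw [← Finset.coe_insert] at h1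
    exact hnsp (Pool.Agent.H632R2.Laman.sp_of_indep hinsP h1)
  have hker : Submodule.span ℝ (Pool.Agent.H632R2.Laman.rv p '' (I : Set (Finset V))) ≤
      LinearMap.ker (Phi m) := by
    rw [Submodule.span_le]
    rintro _ ⟨e, he, rfl⟩
    have heI : e ∈ I := by exact_mod_cast he
    obtain ⟨u, v, huv, rfl⟩ := Finset.card_eq_two.1 (hIP e heI)
    change Phi m (Pool.Agent.H632R2.Laman.rv p {u, v}) = 0
    rw [phi_rv p m huv]
    exact hm u v (hI heI)
  have h := hker hspan
  rw [LinearMap.mem_ker, phi_rv p m hij] at h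
  exact h

end Pool.Agent.T2H90.CJ
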