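import Pool.Agent.T2H90.CJ.StmG

/-!
# Project CJ, package IRS (helper55): infinitesimal rigidity and the count matroid
-/

set_option autoImplicit false

namespace Pool.Agent.T2H90.CJ

open Pool.Agent.H598R2.Cnt Pool.Agent.TH694.GP Pool.Agent.H135R2 Pool.Agent.H632R2.Cogirth
open Pool.Agent.H135R2.VS (Conf fl IR Str Ker)

namespace PkgIRS

/-- skew linear maps of the plane -/
theorem skew2 (L : (Fin 2 → ℝ) →ₗ[ℝ] (Fin 2 → ℝ)) (hL : ∀ x y, x ⬝ᵥ L y = - (y ⬝ᵥ L x)) :
    ∃ s : ℝ, ∀ x, L x 0 = - s * x 1 ∧ L x 1 = s * x 0 := by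
  refine ⟨L (Pi.single 0 1) 1, fun x => ?_⟩
  have h0 : ∀ y : Fin 2 → ℝ, L y 0 = - (y ⬝ᵥ L (Pi.single 0 1)) := by
    intro y
    rw [← hL]
    simp
  have h1 : ∀ y : Fin 2 → ℝ, L y 1 = - (y ⬝ᵥ L (Pi.single 1 1)) := by
    intro y
    rw [← hL]
    simp
  have a0 : L (Pi.single 0 1) 0 = 0 := by
    have := h0 (Pi.single 0 1)
    simp at this
    linarith
  have a1 : L (Pi.single 1 1) 1 = 0 := by
    have := h1 (Pi.single 1 1)
    simp at this
    linarith
  have a2 : L (Pi.single 1 1) 0 = - L (Pi.single 0 1) 1 := by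
    have := h0 (Pi.single 1 1)
    simpa using this
  constructor
  · rw [h0 x]
    simp only [dotProduct, Fin.sum_univ_two, a0]
    ring
  · rw [h1 x]
    simp only [dotProduct, Fin.sum_univ_two, a1, a2]
    ring

/-- the infinitesimal motions given by a rotation and a translation -/
def T {V : Type} (p : Conf 2 V) : (Fin 3 → ℝ) →ₗ[ℝ] (V × Fin 2 → ℝ) where
  toFun c i := if i.2 = 0 then - c 0 * p i.1 1 + c 1 else c 0 * p i.1 0 + c 2
  map_add' x y := by
    ext i
    simp only [Pi.add_apply]
    split_ifs <;> ring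
  map_smul' r x := by
    ext i
    simp only [Pi.smul_apply, smul_eq_mul, RingHom.id_apply]
    split_ifs <;> ring

theorem mulVec_eq {V : Type} [Fintype V] [DecidableEq V] (G : SimpleGraph V) (p : Conf 2 V)
    (x : V × Fin 2 → ℝ) (u v : V) (h : G.Adj u v) :
    (rigidityMatrix G p).mulVec x ⟨s(u, v), h⟩ = fl p (fun i a => x (i, a)) u v := by
  have huv : u ≠ v := G.ne_of_adj h
  simp only [Matrix.mulVec, dotProduct]
  rw [Fintype.sum_prod_type]
  simp only [row_eq, toFinset_mk, Pool.Agent.H632R2.Laman.rv_pair p huv]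
  rw [Finset.sum_eq_add u v huv]
  · simp only [if_true, if_neg huv.symm, fl, Pi.sub_apply, Fin.sum_univ_two]
    ring
  · intro w _ hw
    rw [if_neg hw.1, if_neg hw.2]
    simp
  · intro h; exact absurd (Finset.mem_univ _) h
  · intro h; exact absurd (Finset.mem_univ _) h

end PkgIRS

theorem pIRS (hIRG : S_IRG) : S_IRS := by
  classical
  intro V _ _ G p hp h3
  have hpairs := prs_pairs G
  constructor
  · intro hIR
    have hgen : Pool.Agent.H632R2.Laman.Gen p := hp
    refine (Pool.Agent.H632R2.Laman.rig_iff_rank (z := p) hgen hpairs (fun _ _ => Finset.subset_univ _)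
      (by rw [Finset.card_univ]; omega)).2 ?_
    rw [← rank_eq, Finset.card_univ]
    have hrn := LinearMap.finrank_range_add_finrank_ker (rigidityMatrix G p).mulVecLin
    have hdim : Module.finrank ℝ (V × Fin 2 → ℝ) = Fintype.card V * 2 := by
      rw [Module.finrank_fintype_fun_eq_card, Fintype.card_prod, Fintype.card_fin]
    have hker : LinearMap.ker (rigidityMatrix G p).mulVecLin ≤ LinearMap.range (PkgIRS.T p) := by
      intro x hx
      rw [LinearMap.mem_ker, Matrix.mulVecLin_apply] at hx
      have hfl : ∀ i j, fl p (fun i a => x (i, a)) i j = 0 := by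
        apply hIR
        intro i j hij
        rw [← PkgIRS.mulVec_eq G p x i j hij, hx]
        rfl
      obtain ⟨L, b, hL, hm⟩ := VS.trivial_motion (hp.as (by omega)) hfl
      obtain ⟨s, hs⟩ := PkgIRS.skew2 L hL
      refine ⟨![s, b 0, b 1], ?_⟩
      ext ⟨i, a⟩
      have hmi := hm i
      fin_cases a
      · have h1 := congrFun hmi 0
        simp only [Pi.add_apply, (hs (p i)).1] at h1
        simp [PkgIRS.T, h1]
      · have h1 := congrFun hmi 1
        simp only [Pi.add_apply, (hs (p i)).2] at h1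
        simp [PkgIRS.T, h1]
    have h4 := Submodule.finrank_mono hker
    have h5 := LinearMap.finrank_range_le (PkgIRS.T p)
    rw [Module.finrank_fintype_fun_eq_card, Fintype.card_fin] at h5
    have h6 : (rigidityMatrix G p).rank =
      Module.finrank ℝ (LinearMap.range (rigidityMatrix G p).mulVecLin) := rfl
    omega
  · intro hR m hm i j
    refine hIRG V p (prs G) Finset.univ hp hpairs hR (by rw [Finset.card_univ]; omega) m ?_ i
      (Finset.mem_univ _) j (Finset.mem_univ _)
    intro k l hkl
    obtain ⟨u, v, huv, he⟩ := (mem_prs G _).1 hkl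
    have hkl' : k ≠ l := by
      intro h
      have := hpairs _ hkl
      rw [h, Finset.pair_eq_singleton, Finset.card_singleton] at this
      omega
    have h1 : k ∈ ({u, v} : Finset V) := by rw [← he]; simp
    have h2 : l ∈ ({u, v} : Finset V) := by rw [← he]; simp
    rw [Finset.mem_insert, Finset.mem_singleton] at h1 h2
    rcases h1 with rfl | rfl
    · rcases h2 with rfl | rfl
      · exact absurd rfl hkl'
      · exact hm _ _ huv
    · rcases h2 with rfl | rfl
      · exact hm _ _ huv.symm
      · exact absurd rfl hkl'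

end Pool.Agent.T2H90.CJ
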