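import Pool.Agent.T2H90.CJ.StmC

/-!
# Package K4 : with four vertices 3-connected means complete
-/

set_option autoImplicit false

namespace Pool.Agent.T2H90.CJ

open Pool.Agent.H598R2.Cnt Pool.Agent.TH694.GP

theorem pK4 : S_K4 := by
  intro V _ U Γ hOn hU hTC
  obtain ⟨hΓ, hsub⟩ := hOn
  apply Finset.Subset.antisymm
  · intro p hp
    exact Finset.mem_powersetCard.2 ⟨hsub p hp, hΓ p hp⟩
  · intro p hp
    obtain ⟨hpU, hp2⟩ := Finset.mem_powersetCard.1 hp
    obtain ⟨a, b, hab, rfl⟩ := Finset.card_eq_two.1 hp2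
    by_contra hno
    have ha : a ∈ U := hpU (by simp)
    have hb : b ∈ U := hpU (by simp)
    have hNb : Nb U Γ {a} ⊆ (U.erase a).erase b := by
      intro x hx
      obtain ⟨h1, h2, y, hy, h3⟩ := mem_Nb.1 hx
      rw [Finset.mem_singleton] at hy h2
      subst hy
      rw [Finset.mem_erase, Finset.mem_erase]
      refine ⟨?_, h2, h1⟩
      rintro rfl
      rw [Finset.pair_comm] at h3
      exact hno h3
    refine hTC {a} ⟨Finset.singleton_subset_iff.2 ha, Finset.singleton_nonempty a, ?_, ?_⟩
    · have h1 := Finset.card_le_card hNb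
      have h2 : ((U.erase a).erase b).card = (U.erase a).card - 1 :=
        Finset.card_erase_of_mem (Finset.mem_erase.2 ⟨hab.symm, hb⟩)
      have h3 : (U.erase a).card = U.card - 1 := Finset.card_erase_of_mem ha
      omega
    · intro h
      have hb' : b ∈ {a} ∪ Nb U Γ {a} := by rw [h]; exact hb
      rw [Finset.mem_union, Finset.mem_singleton] at hb'
      rcases hb' with hb' | hb'
      · exact hab hb'.symm
      · exact (Finset.mem_erase.1 (hNb hb')).1 rfl

end Pool.Agent.T2H90.CJ
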