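import Pool.Agent.T2H90.CJ.StmC

/-!
# Project CJ, package KV (helper55): adding a vertex joined to a complete graph
-/

set_option autoImplicit false

namespace Pool.Agent.T2H90.CJ

open Pool.Agent.H598R2.Cnt Pool.Agent.TH694.GP

theorem pKV (hKR : S_KR) : S_KV := by
  intro V _ A N v hA hv hN hKA
  have hPK : ∀ M : Finset V, Pairs (KK M) := fun M p hp => (Finset.mem_powersetCard.1 hp).2
  have h1 := (hKR V (insert v N) (by
    rw [Finset.card_insert_of_notMem hv]; omega)).2
  rw [Finset.card_insert_of_notMem hv] at h1
  have h2 := (hKR V N hN).2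
  have h3 := rk_submod hA (hPK (insert v N))
  have h4 : rk (KK N) ≤ rk (A ∩ KK (insert v N)) := by
    refine rk_mono (Finset.subset_inter hKA ?_)
    intro p hp
    exact Finset.mem_powersetCard.2
      ⟨(Finset.mem_powersetCard.1 hp).1.trans (Finset.subset_insert v N),
        (Finset.mem_powersetCard.1 hp).2⟩
  have h5 : rk (A ∪ star v N) ≤ rk (A ∪ KK (insert v N)) := by
    refine rk_mono (Finset.union_subset_union_right ?_)
    intro p hp
    unfold star at hp
    obtain ⟨i, hi, rfl⟩ := Finset.mem_image.1 hp
    refine Finset.mem_powersetCard.2 ⟨?_, Finset.card_pair (fun h => hv (h ▸ hi))⟩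
    intro x hx
    rw [Finset.mem_insert, Finset.mem_singleton] at hx
    rcases hx with rfl | rfl
    · exact Finset.mem_insert_self _ _
    · exact Finset.mem_insert_of_mem hi
  omega

end Pool.Agent.T2H90.CJ
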