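import Pool.Agent.T2H90.CJ.StmG

set_option autoImplicit false

namespace Pool.Agent.T2H90.CJ

open Pool.Agent.H598R2.Cnt Pool.Agent.TH694.GP Pool.Agent.H135R2 Pool.Agent.H632R2.Cogirth
open Pool.Agent.H135R2.VS (Conf fl IR Str Ker)

namespace PkgLIN

theorem qf (x y z u0 u1 v0 v1 w0 w1 : ℝ)
    (h1 : u0 * v1 - u1 * v0 ≠ 0) (h2 : u0 * w1 - u1 * w0 ≠ 0) (h3 : v0 * w1 - v1 * w0 ≠ 0)
    (e1 : x * u0 ^ 2 + 2 * y * u0 * u1 + z * u1 ^ 2 = 0)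
    (e2 : x * v0 ^ 2 + 2 * y * v0 * v1 + z * v1 ^ 2 = 0)
    (e3 : x * w0 ^ 2 + 2 * y * w0 * w1 + z * w1 ^ 2 = 0) : x = 0 ∧ y = 0 ∧ z = 0 := by
  have hB : x * u0 * v0 + y * (u0 * v1 + u1 * v0) + z * u1 * v1 = 0 := by
    have h : (u0 * w1 - u1 * w0) * (v0 * w1 - v1 * w0) *
        (x * u0 * v0 + y * (u0 * v1 + u1 * v0) + z * u1 * v1) = 0 := by
      linear_combination (1 / 2 : ℝ) * ((v0 * w1 - v1 * w0) ^ 2 * e1 + (u0 * w1 - u1 * w0) ^ 2 * e2 -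
        (u0 * v1 - u1 * v0) ^ 2 * e3)
    exact (mul_eq_zero.1 h).resolve_left (mul_ne_zero h2 h3)
  have hc : (u0 * v1 - u1 * v0) ^ 2 ≠ 0 := pow_ne_zero _ h1
  refine ⟨?_, ?_, ?_⟩
  · have h : (u0 * v1 - u1 * v0) ^ 2 * x = 0 := by
      linear_combination v1 ^ 2 * e1 + u1 ^ 2 * e2 - 2 * u1 * v1 * hB
    exact (mul_eq_zero.1 h).resolve_left hc
  · have h : (u0 * v1 - u1 * v0) ^ 2 * y = 0 := by
      linear_combination - v0 * v1 * e1 - u0 * u1 * e2 + (u0 * v1 + u1 * v0) * hB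
    exact (mul_eq_zero.1 h).resolve_left hc
  · have h : (u0 * v1 - u1 * v0) ^ 2 * z = 0 := by
      linear_combination v0 ^ 2 * e1 + u0 ^ 2 * e2 - 2 * u0 * v0 * hB
    exact (mul_eq_zero.1 h).resolve_left hc

end PkgLIN

theorem pLIN : S_LIN := by
  intro V _ N a b hN hb hab hw
  obtain ⟨y0, hy0⟩ := hw ![1, 0]
  obtain ⟨y1, hy1⟩ := hw ![0, 1]
  have k0 : ∀ i ∈ N, b i 0 = a i 0 * y0 0 + a i 1 * y0 1 := by
    intro i hi
    have := hy0 i hi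
    simp [dotProduct, Fin.sum_univ_two] at this
    linarith
  have k1 : ∀ i ∈ N, b i 1 = a i 0 * y1 0 + a i 1 * y1 1 := by
    intro i hi
    have := hy1 i hi
    simp [dotProduct, Fin.sum_univ_two] at this
    linarith
  have hQ : ∀ i ∈ N, (y0 0 ^ 2 + y1 0 ^ 2 - 1) * a i 0 ^ 2 +
      2 * (y0 0 * y0 1 + y1 0 * y1 1) * a i 0 * a i 1 + (y0 1 ^ 2 + y1 1 ^ 2 - 1) * a i 1 ^ 2 = 0 := by
    intro i hi
    have := hab i hi
    simp only [dotProduct, Fin.sum_univ_two] at this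
    rw [k0 i hi, k1 i hi] at this
    linear_combination - this
  have hc : ∀ i ∈ N, ∀ j ∈ N, i ≠ j → a i 0 * a j 1 - a i 1 * a j 0 ≠ 0 := by
    intro i hi j hj hij h
    apply hb i hi j hj hij
    rw [k0 i hi, k1 i hi, k0 j hj, k1 j hj]
    linear_combination (y0 0 * y1 1 - y0 1 * y1 0) * h
  obtain ⟨t, ht, htc⟩ := Finset.exists_subset_card_eq hN
  obtain ⟨i, j, k, hij, hik, hjk, rfl⟩ := Finset.card_eq_three.1 htc
  have hi : i ∈ N := ht (by simp)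
  have hj : j ∈ N := ht (by simp)
  have hk : k ∈ N := ht (by simp)
  obtain ⟨e1, e2, e3⟩ := PkgLIN.qf _ _ _ _ _ _ _ _ _ (hc i hi j hj hij) (hc i hi k hk hik)
    (hc j hj k hk hjk) (hQ i hi) (hQ j hj) (hQ k hk)
  intro i' hi' j' hj'
  simp only [dotProduct, Fin.sum_univ_two]
  rw [k0 i' hi', k1 i' hi', k0 j' hj', k1 j' hj']
  linear_combination - a i' 0 * a j' 0 * e1 - (a i' 0 * a j' 1 + a i' 1 * a j' 0) * e2 -
    a i' 1 * a j' 1 * e3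

end Pool.Agent.T2H90.CJ
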