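import Pool.Agent.T2H90.CJ.StmC

set_option autoImplicit false

namespace Pool.Agent.T2H90.CJ

open Pool.Agent.H598R2.Cnt Pool.Agent.TH694.GP

namespace PkgLINK

variable {V : Type} [DecidableEq V]

theorem inter_eq {E I J : Finset (Finset V)} (hI : Maxl E I) (hIJ : I ⊆ J) (hJ : Sp J) : J ∩ E = I := by
  refine Finset.Subset.antisymm ?_ (Finset.subset_inter hIJ hI.1)
  intro p hp
  rw [Finset.mem_inter] at hp
  by_contra hpI
  exact hI.2.2 p hp.2 hpI (hJ.mono (Finset.insert_subset hp.1 hIJ))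

end PkgLINK

theorem pLINK (hCIR : S_CIR) : S_LINK := by
  intro V _ Γ E hΓ hcon hE hne hneΓ
  by_contra hcon2
  push Not at hcon2
  obtain ⟨I, -, hI⟩ := exists_maxl (Finset.empty_subset E) (M1.sp_empty (V := V))
  obtain ⟨J, hIJ, hJ⟩ := exists_maxl (Γ := Γ) (hI.1.trans hE) hI.2.1
  have hJE := PkgLINK.inter_eq hI hIJ hJ.2.1
  have hEp : Pairs E := fun p hp => hΓ p (hE hp)
  have hDp : Pairs (Γ \ E) := fun p hp => hΓ p (Finset.mem_sdiff.1 hp).1
  have hM : Maxl (Γ \ E) (J \ E) := by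
    refine ⟨Finset.sdiff_subset_sdiff hJ.1 subset_rfl, hJ.2.1.mono Finset.sdiff_subset, ?_⟩
    intro f hf hfJ hsp
    rw [Finset.mem_sdiff] at hf
    have hfJ' : f ∉ J := fun h => hfJ (Finset.mem_sdiff.2 ⟨h, hf.2⟩)
    have hpairs : Pairs (insert f J) := fun p hp => by
      rcases Finset.mem_insert.1 hp with rfl | hp
      · exact hΓ _ hf.1
      · exact hΓ p (hJ.1 hp)
    obtain ⟨C, hC, hCc, hfC⟩ := (hCIR V).2 J f hpairs hJ.2.1 (hJ.2.2 f hf.1 hfJ')
    have hCΓ : C ⊆ Γ := hC.trans (Finset.insert_subset hf.1 hJ.1)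
    have h1 : ¬ (C ∩ E).Nonempty := by
      intro h
      have h2 := hcon2 C hCΓ hCc h
      have : f ∈ C \ E := Finset.mem_sdiff.2 ⟨hfC, hf.2⟩
      rw [h2] at this
      exact Finset.notMem_empty _ this
    apply hCc.2.1
    refine hsp.mono fun x hx => ?_
    rcases Finset.mem_insert.1 (hC hx) with rfl | h
    · exact Finset.mem_insert_self _ _
    · refine Finset.mem_insert_of_mem (Finset.mem_sdiff.2 ⟨h, fun hxE => h1 ⟨x, ?_⟩⟩)
      exact Finset.mem_inter.2 ⟨hx, hxE⟩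
  have hsep : Sepr Γ E := by
    refine ⟨hE, ?_⟩
    rw [rk_eq hEp hI, rk_eq hDp hM, rk_eq hΓ hJ, ← hJE]
    exact Finset.card_inter_add_card_sdiff J E
  obtain ⟨e, he⟩ := hne
  have h1 := cmp_subset_of_sepr hsep he
  rw [hcon e (hE he)] at h1
  exact hneΓ (Finset.Subset.antisymm hE h1)

end Pool.Agent.T2H90.CJ
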