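import Pool.Agent.T2H90.CJ.StmG

/-!
# Project CJ, package LK (helper55): 3-connectedness in two languages
-/

set_option autoImplicit false

namespace Pool.Agent.T2H90.CJ

open Pool.Agent.H598R2.Cnt Pool.Agent.TH694.GP Pool.Agent.H135R2 Pool.Agent.H632R2.Cogirth

namespace PkgLK

theorem pair_mem {V : Type} [Fintype V] [DecidableEq V] (G : SimpleGraph V) (u v : V) :
    ({u, v} : Finset V) ∈ prs G ↔ G.Adj u v := by
  rw [mem_prs]
  constructor
  · rintro ⟨x, y, hxy, he⟩
    have hne : x ≠ y := G.ne_of_adj hxy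
    have hc : ({u, v} : Finset V).card = 2 := by rw [he]; exact Finset.card_pair hne
    have huv : u ≠ v := by
      rintro rfl
      rw [Finset.pair_eq_singleton, Finset.card_singleton] at hc
      omega
    have h1 : u ∈ ({x, y} : Finset V) := by rw [← he]; simp
    have h2 : v ∈ ({x, y} : Finset V) := by rw [← he]; simp
    rw [Finset.mem_insert, Finset.mem_singleton] at h1 h2
    rcases h1 with rfl | rfl
    · rcases h2 with rfl | rfl
      · exact absurd rfl huv
      · exact hxy
    · rcases h2 with rfl | rfl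
      · exact hxy.symm
      · exact absurd rfl huv
  · intro h
    exact ⟨u, v, h, rfl⟩

end PkgLK

theorem pLK : S_LK := by
  classical
  intro V _ _ G h4
  constructor
  · intro h X hX
    obtain ⟨-, hXne, hNb, hne⟩ := hX
    set S : Finset V := Nb Finset.univ (prs G) X with hS
    have hc := h S hNb
    have hmS : ∀ v, v ∈ S ↔ v ∈ Nb Finset.univ (prs G) X := fun v => by rw [hS]
    obtain ⟨x, hx⟩ := hXne
    have hxS : x ∉ S := by
      intro h1
      rw [hS, mem_Nb] at h1
      exact h1.2.1 hx
    obtain ⟨y, hy'⟩ : ∃ y, y ∉ X ∪ S := by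
      by_contra hcon
      push Not at hcon
      exact hne (Finset.eq_univ_iff_forall.2 hcon)
    rw [Finset.mem_union, not_or] at hy'
    have hr := hc.preconnected ⟨x, hxS⟩ ⟨y, hy'.2⟩
    rw [SimpleGraph.reachable_iff_reflTransGen] at hr
    have key : ∀ z : {v | v ∉ S}, Relation.ReflTransGen (G.induce {v | v ∉ S}).Adj
        ⟨x, hxS⟩ z → (z : V) ∈ X := by
      intro z hz
      induction hz with
      | refl => exact hx
      | @tail b c hb hab ih =>
        by_contra hcX
        apply c.2
        refine (hmS _).2 (mem_Nb.2 ?_)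
        refine ⟨Finset.mem_univ _, hcX, _, ih, ?_⟩
        rw [PkgLK.pair_mem]
        exact hab.symm
    exact hy'.1 (key _ hr)
  · intro h S hS
    have hcard : ∃ v : V, v ∉ S := by
      by_contra hcon
      push Not at hcon
      have h1 : (Finset.univ : Finset V).card ≤ S.card :=
        Finset.card_le_card (fun v _ => hcon v)
      rw [Finset.card_univ] at h1
      omega
    obtain ⟨v0, hv0⟩ := hcard
    have hne : Nonempty {v | v ∉ S} := ⟨⟨v0, hv0⟩⟩
    refine ⟨?_⟩
    intro x y
    by_contra hxy
    set X : Finset V := Finset.univ.filter (fun v : V =>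
      ∃ hv : v ∉ S, (G.induce {v | v ∉ S}).Reachable x ⟨v, hv⟩) with hX
    have hmem : ∀ v : V, v ∈ X ↔
        ∃ hv : v ∉ S, (G.induce {v | v ∉ S}).Reachable x ⟨v, hv⟩ := by
      intro v
      rw [hX, Finset.mem_filter]
      exact ⟨fun h => h.2, fun h => ⟨Finset.mem_univ _, h⟩⟩
    have hNbS : Nb Finset.univ (prs G) X ⊆ S := by
      intro v hv
      rw [mem_Nb] at hv
      obtain ⟨-, h2, w, hw, h3⟩ := hv
      have h5 : G.Adj v w := (PkgLK.pair_mem G v w).1 h3
      obtain ⟨hwS, hreach⟩ := (hmem w).1 hw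
      by_contra hvS
      apply h2
      rw [hmem]
      refine ⟨hvS, hreach.trans ?_⟩
      apply SimpleGraph.Adj.reachable
      exact h5.symm
    refine h X ⟨Finset.subset_univ _, ⟨x, (hmem x).2 ⟨x.2, SimpleGraph.Reachable.refl _⟩⟩,
      (Finset.card_le_card hNbS).trans hS, ?_⟩
    intro hU
    have h1 : (y : V) ∈ X ∪ Nb Finset.univ (prs G) X := by rw [hU]; exact Finset.mem_univ _
    rcases Finset.mem_union.1 h1 with h2 | h2
    · obtain ⟨hyS, hreach⟩ := (hmem y).1 h2
      exact hxy hreach
    · exact y.2 (hNbS h2)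

end Pool.Agent.T2H90.CJ
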