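import Pool.Agent.T2H90.CJ.StmG

set_option autoImplicit false

namespace Pool.Agent.T2H90.CJ

open Pool.Agent.H598R2.Cnt Pool.Agent.TH694.GP Pool.Agent.H135R2 Pool.Agent.H632R2.Cogirth
open Pool.Agent.H135R2.VS (Conf fl IR Str Ker)

namespace PkgLR

theorem prs_delete {V : Type} [Fintype V] [DecidableEq V] (G : SimpleGraph V) (e : Sym2 V) :
    prs (G.deleteEdges {e}) = (prs G).erase (Sym2.toFinset e) := by
  have h := prs_deleteEdges G {e}
  rw [Finset.coe_singleton, Finset.image_singleton] at h
  rw [h, Finset.sdiff_singleton_eq_erase]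

end PkgLR

theorem pLR : S_LR := by
  intro V _ _ G h2
  unfold RR
  rw [rigid_iff G h2]
  refine and_congr Iff.rfl ?_
  constructor
  · intro h e he
    obtain ⟨u, v, huv, rfl⟩ := (mem_prs G e).1 he
    have h1 := (rigid_iff _ h2).1 (h s(u, v) (by rwa [SimpleGraph.mem_edgeSet]))
    rw [PkgLR.prs_delete, toFinset_mk] at h1
    exact h1
  · intro h e he
    rw [rigid_iff _ h2, PkgLR.prs_delete]
    apply h
    classical
    unfold prs
    exact Finset.mem_image_of_mem _ (SimpleGraph.mem_edgeFinset.2 he)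

end Pool.Agent.T2H90.CJ
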