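import Pool.Agent.T2H90.CJ.StmG

set_option autoImplicit false

namespace Pool.Agent.T2H90.CJ

open Pool.Agent.H598R2.Cnt Pool.Agent.TH694.GP Pool.Agent.H135R2 Pool.Agent.H632R2.Cogirth
open Pool.Agent.H135R2.VS (Conf fl IR Str Ker)

namespace PkgNEC

theorem prs_delete {V : Type} [Fintype V] [DecidableEq V] (G : SimpleGraph V) (e : Sym2 V) :
    prs (G.deleteEdges {e}) = (prs G).erase (Sym2.toFinset e) := by
  have h := prs_deleteEdges G {e}
  rw [Finset.coe_singleton, Finset.image_singleton] at h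
  rw [h, Finset.sdiff_singleton_eq_erase]

end PkgNEC

theorem pNEC (hIRS : S_IRS) (hHEN : S_HEN) : S_NEC := by
  intro V _ _ G h4 hG
  obtain ⟨p, ω, hp, hIR, hω, hK⟩ := VS.ght_exists (d := 2) (H := G) (by norm_num) (by omega) hG
  refine ⟨(hIRS V G p hp (by omega)).1 hIR, ?_⟩
  intro e he
  obtain ⟨u, v, huv, rfl⟩ := (mem_prs G e).1 he
  have h1 := hHEN V G p ω u v h4 hp hIR hω hK huv
  have h2 := (hIRS V _ p hp (by omega)).1 h1
  rw [PkgNEC.prs_delete, toFinset_mk] at h2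
  exact h2

end Pool.Agent.T2H90.CJ
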