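import Pool.Agent.T2H90.CJ.StmG

/-!
# Package NPA : different edges of a generic configuration are not parallel
-/

set_option autoImplicit false

namespace Pool.Agent.T2H90.CJ

open Pool.Agent.H598R2.Cnt Pool.Agent.TH694.GP Pool.Agent.H135R2 Pool.Agent.H632R2.Cogirth
open Pool.Agent.H135R2.VS (Conf fl IR Str Ker)

namespace PkgNPA

theorem aux {V : Type} [Fintype V] [DecidableEq V] {p : Conf 2 V} (hp : VS.Gen p) {i j k l : V}
    (hij : i ≠ j) (hkl : k ≠ l) (hik : i ≠ k) (hil : i ≠ l) :
    (p i 0 - p j 0) * (p k 1 - p l 1) - (p i 1 - p j 1) * (p k 0 - p l 0) ≠ 0 := by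
  intro h
  obtain ⟨D, hD⟩ := VS.Gen.der hp (fun h a => if h = i then (if a = 0 then 1 else 0) else 0)
  have h1 := congrArg D h
  simp only [map_sub, map_zero, Derivation.leibniz, hD, smul_eq_mul, if_true, if_neg hij.symm,
    if_neg hik.symm, if_neg hil.symm] at h1
  norm_num at h1
  have h2 : p k 1 ≠ p l 1 := Pool.Agent.H632R2.Laman.Gen.ne (z := p) hp hkl 1
  exact h2 (by linarith)

end PkgNPA

open PkgNPA in
theorem pNPA : S_NPA := by
  intro V _ _ p i j k l hp hij hkl hne
  by_cases hi : i = k ∨ i = l
  · have hj : j ≠ k ∧ j ≠ l := by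
      constructor
      · rintro rfl
        rcases hi with rfl | rfl
        · exact hij rfl
        · exact hne (Finset.pair_comm _ _)
      · rintro rfl
        rcases hi with rfl | rfl
        · exact hne rfl
        · exact hij rfl
    have h := aux hp hij.symm hkl hj.1 hj.2
    intro h0
    apply h
    linarith
  · push Not at hi
    exact aux hp hij hkl hi.1 hi.2

end Pool.Agent.T2H90.CJ
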