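import Pool.Agent.T2H90.CJ.StmG

/-!
# Project CJ, package QF (helper55): a quadratic form of the plane with three zero directions
-/

set_option autoImplicit false

namespace Pool.Agent.T2H90.CJ

theorem pQF : S_QF := by
  intro x y z u v w huv huw hvw hu hv hw
  have hd : (u 0 * v 1 - u 1 * v 0) * (u 0 * w 1 - u 1 * w 0) * (v 0 * w 1 - v 1 * w 0) ≠ 0 :=
    mul_ne_zero (mul_ne_zero huv huw) hvw
  have hx : x * ((u 0 * v 1 - u 1 * v 0) * (u 0 * w 1 - u 1 * w 0) * (v 0 * w 1 - v 1 * w 0)) = 0 := by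
    linear_combination (v 1 * w 1 * (v 0 * w 1 - v 1 * w 0)) * hu
      - (u 1 * w 1 * (u 0 * w 1 - u 1 * w 0)) * hv + (u 1 * v 1 * (u 0 * v 1 - u 1 * v 0)) * hw
  have hz : z * ((u 0 * v 1 - u 1 * v 0) * (u 0 * w 1 - u 1 * w 0) * (v 0 * w 1 - v 1 * w 0)) = 0 := by
    linear_combination (v 0 * w 0 * (v 0 * w 1 - v 1 * w 0)) * hu
      - (u 0 * w 0 * (u 0 * w 1 - u 1 * w 0)) * hv + (u 0 * v 0 * (u 0 * v 1 - u 1 * v 0)) * hw
  have hy : (2 * y) * ((u 0 * v 1 - u 1 * v 0) * (u 0 * w 1 - u 1 * w 0) *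
      (v 0 * w 1 - v 1 * w 0)) = 0 := by
    linear_combination (-(v 0 * w 1 + v 1 * w 0) * (v 0 * w 1 - v 1 * w 0)) * hu
      + ((u 0 * w 1 + u 1 * w 0) * (u 0 * w 1 - u 1 * w 0)) * hv
      - ((u 0 * v 1 + u 1 * v 0) * (u 0 * v 1 - u 1 * v 0)) * hw
  have hx' := (mul_eq_zero.1 hx).resolve_right hd
  have hy' := (mul_eq_zero.1 hy).resolve_right hd
  have hz' := (mul_eq_zero.1 hz).resolve_right hd
  exact ⟨hx', by linarith, hz'⟩

end Pool.Agent.T2H90.CJ
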