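import Pool.Agent.T2H90.CJ.StmC

/-!
# Project CJ, package RED (helper55): replacing a vertex by the complete graph on its neighbours
-/

set_option autoImplicit false

namespace Pool.Agent.T2H90.CJ

open Pool.Agent.H598R2.Cnt Pool.Agent.TH694.GP

theorem pRED (hKR : S_KR) (hKV : S_KV) (hST : S_ST) (hCOV : S_COV) : S_RED := by
  intro V _ U Γ v hOn hRig hU hv
  obtain ⟨-, -, hdec, hvN, hNU, -⟩ := hST V U Γ v hOn hv
  have h2N := (hCOV V U Γ hOn hRig hU).2 v hv
  set N := Nb U Γ {v} with hN
  have hPK : Pairs (KK N) := fun p hp => (Finset.mem_powersetCard.1 hp).2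
  have hOn' : On (U.erase v) (del Γ v ∪ KK N) := by
    refine ⟨fun p hp => ?_, fun p hp => ?_⟩
    · rcases Finset.mem_union.1 hp with h | h
      · exact hOn.1 p (Finset.mem_filter.1 h).1
      · exact hPK p h
    · rcases Finset.mem_union.1 hp with h | h
      · have h1 := Finset.mem_filter.1 h
        exact Finset.subset_erase.2 ⟨hOn.2 p h1.1, h1.2⟩
      · have h1 := (Finset.mem_powersetCard.1 h).1
        exact Finset.subset_erase.2 ⟨h1.trans hNU, fun h2 => hvN (h1 h2)⟩
  refine ⟨?_, hOn'⟩
  have hc : (U.erase v).card + 1 = U.card := Finset.card_erase_add_one hv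
  have h1 := hKV V (del Γ v ∪ KK N) N v hOn'.1 hvN h2N Finset.subset_union_right
  have h2 : rk Γ ≤ rk (del Γ v ∪ KK N ∪ star v N) := by
    refine rk_mono ?_
    conv_lhs => rw [← hdec]
    intro p hp
    rcases Finset.mem_union.1 hp with h | h
    · exact Finset.mem_union_left _ (Finset.mem_union_left _ h)
    · exact Finset.mem_union_right _ h
  have h3 := (rig_iff_rk hOn.1 hOn.2 (by omega)).1 hRig
  have h4 := rk_le_of_sub hOn'.1 hOn'.2 (by omega)
  exact (rig_iff_rk hOn'.1 hOn'.2 (by omega)).2 (by omega)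

end Pool.Agent.T2H90.CJ
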