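import Pool.Agent.T2H90.CJ.StmG

set_option autoImplicit false

namespace Pool.Agent.T2H90.CJ

open Pool.Agent.H598R2.Cnt Pool.Agent.TH694.GP Pool.Agent.H135R2 Pool.Agent.H632R2.Cogirth
open Pool.Agent.H135R2.VS (Conf fl IR Str Ker)
open Pool.Agent.H632R2.Laman (rv rv_pair triv rv_dot_triv indep_gen_of_sp rv_of_notMem)

namespace PkgRNG

variable {V : Type} [Fintype V] [DecidableEq V]

theorem pr_fl (q f : Conf 2 V) {i j : V} (h : i ≠ j) :
    ∑ w, ∑ a, rv q {i, j} w a * f w a = fl q f i j := by
  rw [Finset.sum_eq_add i j h]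
  · simp only [rv_pair q h, if_true, if_neg h.symm, fl, Fin.sum_univ_two, Pi.sub_apply]
    ring
  · intro w _ hw
    simp [rv_pair q h, hw.1, hw.2]
  · intro h; exact absurd (Finset.mem_univ _) h
  · intro h; exact absurd (Finset.mem_univ _) h

theorem pr_flX (q f : Conf 2 V) (X : Finset V) {i j : V} (h : i ≠ j) (hX : ({i, j} : Finset V) ⊆ X) :
    ∑ c : X × Fin 2, rv q {i, j} c.1.1 c.2 * f c.1.1 c.2 = fl q f i j := by
  rw [← pr_fl q f h, Fintype.sum_prod_type]
  rw [Finset.sum_coe_sort X (fun w => ∑ a, rv q {i, j} w a * f w a)]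
  refine Finset.sum_subset (Finset.subset_univ _) fun w _ hw => ?_
  rw [rv_of_notMem q (fun h' => hw (hX h'))]
  simp

theorem indep {p q : Conf 2 V} (hp : VS.Gen p) {I : Finset (Finset V)} (hP : Pairs I) (hI : Sp I)
    (hq : Eqv p q I) : LinearIndepOn ℝ (rv q) (I : Set (Finset V)) := by
  have h1 := indep_gen_of_sp (show Pool.Agent.H632R2.Laman.Gen p from hp) hP hI
  rw [linearIndepOn_finset_iff] at h1 ⊢
  intro g hg
  apply h1
  -- the pairing with every vector vanishes
  have key : ∀ v : Conf 2 V, ∑ e ∈ I, g e * ∑ w, ∑ a, rv p e w a * v w a = 0 := by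
    intro v
    obtain ⟨D, hD⟩ := hp.der v
    have hD' : (fun i => VS.dv D (p i)) = v := by
      ext i a
      exact hD i a
    have h2 : ∀ e ∈ I, ∑ w, ∑ a, rv p e w a * v w a =
        ∑ w, ∑ a, rv q e w a * VS.dv D (q w) a := by
      intro e he
      obtain ⟨i, j, hij, rfl⟩ := Finset.card_eq_two.1 (hP e he)
      rw [pr_fl p v hij, pr_fl q (fun w => VS.dv D (q w)) hij]
      have h3 := congrArg D (hq i j he)
      rw [VS.der_fl, VS.der_fl, hD', VS.fl_comm _ q, VS.fl_comm _ p] at h3
      linarith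
    rw [Finset.sum_congr rfl fun e he => by rw [h2 e he]]
    have h4 : ∑ e ∈ I, g e * ∑ w, ∑ a, rv q e w a * VS.dv D (q w) a =
        ∑ w, ∑ a, (∑ e ∈ I, g e • rv q e) w a * VS.dv D (q w) a := by
      simp only [Finset.sum_apply, Pi.smul_apply, smul_eq_mul, Finset.mul_sum, Finset.sum_mul]
      rw [Finset.sum_comm]
      refine Finset.sum_congr rfl fun w _ => ?_
      rw [Finset.sum_comm]
      refine Finset.sum_congr rfl fun a _ => Finset.sum_congr rfl fun e _ => by ring
    rw [h4, hg]
    simp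
  set S := ∑ e ∈ I, g e • rv p e with hS
  have h5 : ∑ w, ∑ a, S w a * S w a = 0 := by
    rw [← key S]
    conv_lhs =>
      enter [2, w, 2, a, 1]
      rw [hS]
    simp only [Finset.sum_apply, Pi.smul_apply, smul_eq_mul, Finset.mul_sum, Finset.sum_mul]
    symm
    rw [Finset.sum_comm]
    refine Finset.sum_congr rfl fun w _ => ?_
    rw [Finset.sum_comm]
    refine Finset.sum_congr rfl fun a _ => Finset.sum_congr rfl fun e _ => by ring
  funext w a
  have h6 : ∀ w ∈ Finset.univ, 0 ≤ ∑ a, S w a * S w a :=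
    fun w _ => Finset.sum_nonneg fun a _ => mul_self_nonneg _
  have h7 := (Finset.sum_eq_zero_iff_of_nonneg h6).1 h5 w (Finset.mem_univ _)
  have h8 := (Finset.sum_eq_zero_iff_of_nonneg (fun a _ => mul_self_nonneg (S w a))).1 h7 a
    (Finset.mem_univ _)
  simpa using h8

end PkgRNG

open PkgRNG in
theorem pRNG : S_RNG := by
  classical
  intro V _ _ p q Γ X hp hΓ hR hX hq m hm
  obtain ⟨I, hIΓ, hI, hIX, hIc⟩ := hR
  have hPI : Pairs I := fun e he => hΓ e (hIΓ he)
  have hqI : Eqv p q I := fun i j h => hq i j (hIΓ h)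
  have hind := indep hp hPI hI hqI
  -- q is not constant on X
  have hIne : I.Nonempty := by
    rw [← Finset.card_pos]; omega
  obtain ⟨e0, he0⟩ := hIne
  obtain ⟨x, y, hxy, rfl⟩ := Finset.card_eq_two.1 (hPI e0 he0)
  have hxX : x ∈ X := hIX _ he0 (by simp)
  have hyX : y ∈ X := hIX _ he0 (by simp)
  have hqxy : q x ≠ q y := by
    intro h
    have h1 := hqI x y he0
    have h2 : fl q q x y = 0 := by simp [fl, h]
    rw [h2] at h1
    have h3 := VS.eq_of_fl_diag h1.symm
    exact Pool.Agent.H632R2.Laman.Gen.ne (show Pool.Agent.H632R2.Laman.Gen p from hp) hxy 0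
      (congrFun h3 0)
  -- the matrix
  let M : Matrix I (X × Fin 2) ℝ := Matrix.of fun e c => rv q e.1 c.1.1 c.2
  have hMrow : LinearIndependent ℝ M.row := by
    rw [Fintype.linearIndependent_iff]
    intro g hg e
    rw [linearIndepOn_finset_iff] at hind
    have h1 := hind (fun e => if h : e ∈ I then g ⟨e, h⟩ else 0) (by
      rw [← Finset.sum_coe_sort]
      funext w a
      simp only [Finset.sum_apply, Pi.smul_apply, smul_eq_mul, Finset.coe_mem, dif_pos,
        Subtype.coe_eta, Pi.zero_apply]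
      by_cases hw : w ∈ X
      · have h2 := congrFun hg (⟨w, hw⟩, a)
        simpa [Finset.sum_apply, M, Matrix.row] using h2
      · refine Finset.sum_eq_zero fun e _ => ?_
        rw [rv_of_notMem q (fun h' => hw (hIX _ e.2 h'))]
        simp) e.1 e.2
    simpa using h1
  have hrk : M.rank = I.card := by
    rw [hMrow.rank_matrix, Fintype.card_coe]
  have hdim := LinearMap.finrank_range_add_finrank_ker M.mulVecLin
  have hd2 : Module.finrank ℝ (X × Fin 2 → ℝ) = 2 * X.card := by
    rw [Module.finrank_fintype_fun_eq_card, Fintype.card_prod, Fintype.card_coe, Fintype.card_fin]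
    ring
  have hker : Module.finrank ℝ (LinearMap.ker M.mulVecLin) = 3 := by
    have : Module.finrank ℝ (LinearMap.range M.mulVecLin) = M.rank := rfl
    rw [this, hrk, hd2] at hdim
    omega
  have hmem : ∀ f : X × Fin 2 → ℝ, f ∈ LinearMap.ker M.mulVecLin ↔
      ∀ e ∈ I, ∑ c : X × Fin 2, rv q e c.1.1 c.2 * f c = 0 := by
    intro f
    rw [LinearMap.mem_ker]
    constructor
    · intro h e he
      have := congrFun h ⟨e, he⟩
      simpa [Matrix.mulVec, dotProduct, M] using this
    · intro h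
      ext e
      have := h e.1 e.2
      simpa [Matrix.mulVec, dotProduct, M] using this
  let tv : Fin 3 → LinearMap.ker M.mulVecLin := fun i => ⟨triv q X i, (hmem _).2 fun e he =>
    rv_dot_triv q X (hPI e he) (hIX e he) i⟩
  have htv : LinearIndependent ℝ tv := by
    rw [Fintype.linearIndependent_iff]
    intro g hg
    have h1 := congrArg (fun u : LinearMap.ker M.mulVecLin => (u : X × Fin 2 → ℝ)) hg
    simp only [Submodule.coe_sum, Submodule.coe_smul, Submodule.coe_zero, tv, Fin.sum_univ_three] at h1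
    have hx0 := congrFun h1 (⟨x, hxX⟩, 0)
    have hx1 := congrFun h1 (⟨x, hxX⟩, 1)
    have hy0 := congrFun h1 (⟨y, hyX⟩, 0)
    have hy1 := congrFun h1 (⟨y, hyX⟩, 1)
    simp [triv] at hx0 hx1 hy0 hy1
    have g2 : g 2 = 0 := by
      by_contra h2
      apply hqxy
      funext a
      fin_cases a
      · have : g 2 * (q x 0 - q y 0) = 0 := by linarith
        have := (mul_eq_zero.1 this).resolve_left h2
        simp only [Fin.zero_eta]; linarith
      · have : g 2 * (q x 1 - q y 1) = 0 := by linarith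
        have := (mul_eq_zero.1 this).resolve_left h2
        simp only [Fin.mk_one]; linarith
    rw [g2] at hx0 hx1
    intro i
    fin_cases i
    · simp only [Fin.zero_eta]; linarith
    · simp only [Fin.mk_one]; linarith
    · exact g2
  have hspan := htv.span_eq_top_of_card_eq_finrank' (by rw [hker, Fintype.card_fin])
  have hmu : (fun c : X × Fin 2 => m c.1.1 c.2) ∈ LinearMap.ker M.mulVecLin := by
    rw [hmem]
    intro e he
    obtain ⟨i, j, hij, rfl⟩ := Finset.card_eq_two.1 (hPI e he)
    rw [pr_flX q m X hij (hIX _ he)]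
    exact hm i j (hIΓ he)
  have h1 : (⟨_, hmu⟩ : LinearMap.ker M.mulVecLin) ∈ Submodule.span ℝ (Set.range tv) := by
    rw [hspan]; exact Submodule.mem_top
  rw [Submodule.mem_span_range_iff_exists_fun] at h1
  obtain ⟨c, hc⟩ := h1
  have h2 := congrArg (fun u : LinearMap.ker M.mulVecLin => (u : X × Fin 2 → ℝ)) hc
  simp only [Submodule.coe_sum, Submodule.coe_smul, tv, Fin.sum_univ_three] at h2
  refine ⟨c 2, ![c 0, c 1], fun i hi => ?_⟩
  have h3 := congrFun h2 (⟨i, hi⟩, 0)
  have h4 := congrFun h2 (⟨i, hi⟩, 1)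
  simp [triv] at h3 h4
  constructor
  · simp only [Matrix.cons_val_zero]; linarith
  · show m i 1 = c 2 * q i 0 + c 1
    linarith

end Pool.Agent.T2H90.CJ
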