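import Pool.Agent.T2H90.CJ.StmC

/-! Package RRV of project CJ. -/

set_option autoImplicit false

namespace Pool.Agent.T2H90.CJ

open Pool.Agent.H598R2.Cnt Pool.Agent.TH694.GP

namespace PkgRRV

variable {V : Type} [DecidableEq V]

lemma rig_pair {Δ : Finset (Finset V)} {a b : V} (hab : a ≠ b) (h : {a, b} ∈ Δ) :
    Rig Δ {a, b} := by
  have hc : ({a, b} : Finset V).card = 2 := Finset.card_pair hab
  have h1 : Rig {({a, b} : Finset V)} {a, b} := by
    refine (rig_iff_rk ?_ ?_ hc.ge).2 ?_
    · intro p hp
      rw [Finset.mem_singleton.1 hp]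
      exact hc
    · intro p hp
      rw [Finset.mem_singleton.1 hp]
    · rw [rk_singleton hc, hc]
  exact h1.mono (Finset.singleton_subset_iff.2 h)

lemma rig_extend_set {Δ : Finset (Finset V)} (hΔ : Pairs Δ) {X : Finset V} (hX : Rig Δ X)
    {a b : V} (ha : a ∈ X) (hb : b ∈ X) (hab : a ≠ b) :
    ∀ T : Finset V, (∀ r ∈ T, r ∉ X → {r, a} ∈ Δ ∧ {r, b} ∈ Δ) → Rig Δ (T ∪ X) := by
  intro T
  induction T using Finset.induction_on with
  | empty => intro _; rwa [Finset.empty_union]
  | insert r T hr ih =>
    intro h
    have h1 := ih fun s hs => h s (Finset.mem_insert_of_mem hs)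
    by_cases hrX : r ∈ T ∪ X
    · rwa [Finset.insert_union, Finset.insert_eq_of_mem hrX]
    · have hrX' : r ∉ X := fun h2 => hrX (Finset.mem_union_right _ h2)
      obtain ⟨h2, h3⟩ := h r (Finset.mem_insert_self _ _) hrX'
      rw [Finset.insert_union]
      exact h1.extend hΔ hrX (Finset.mem_union_right _ ha) (Finset.mem_union_right _ hb) hab h2 h3

/-- a complete graph minus an edge is rigid -/
lemma rig_KK_erase {N e : Finset V} (hN : 4 ≤ N.card) (he : e ∈ KK N) :
    Rig ((KK N).erase e) N := by
  unfold KK at he
  rw [Finset.mem_powersetCard] at he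
  obtain ⟨heN, hec⟩ := he
  have h1 : 2 ≤ (N \ e).card := by
    rw [Finset.card_sdiff_of_subset heN]
    omega
  obtain ⟨a, ha, b, hb, hab⟩ := Finset.one_lt_card.1 h1
  rw [Finset.mem_sdiff] at ha hb
  have hmem : ∀ r s : V, r ∈ N → s ∈ N → r ≠ s → s ∉ e → {r, s} ∈ (KK N).erase e := by
    intro r s hr hs hrs hse
    rw [Finset.mem_erase]
    constructor
    · intro h
      apply hse
      rw [← h]
      simp
    · unfold KK
      rw [Finset.mem_powersetCard]
      refine ⟨?_, Finset.card_pair hrs⟩
      intro c hc
      rw [Finset.mem_insert, Finset.mem_singleton] at hc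
      rcases hc with rfl | rfl
      · exact hr
      · exact hs
  have hP : Pairs ((KK N).erase e) := by
    intro p hp
    have := Finset.mem_of_mem_erase hp
    unfold KK at this
    exact (Finset.mem_powersetCard.1 this).2
  have h2 : Rig ((KK N).erase e) {a, b} := rig_pair hab (hmem a b ha.1 hb.1 hab hb.2)
  have h3 := rig_extend_set hP h2 (a := a) (b := b) (by simp) (by simp) hab N (fun r hr hrX => by
    have hra : r ≠ a := fun h => hrX (by simp [h])
    have hrb : r ≠ b := fun h => hrX (by simp [h])
    exact ⟨hmem r a hr ha.1 hra ha.2, hmem r b hr hb.1 hrb hb.2⟩)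
  have h4 : N ∪ {a, b} = N := by
    rw [Finset.union_eq_left]
    intro c hc
    rw [Finset.mem_insert, Finset.mem_singleton] at hc
    rcases hc with rfl | rfl
    · exact ha.1
    · exact hb.1
  rwa [h4] at h3

end PkgRRV

open PkgRRV

theorem pRRV (_hKR : S_KR) (hRED : S_RED) (hDEG : S_DEG) (hBC : S_BC) : S_RRV := by
  intro V _ U Γ v hOn hU5 hTC hRR hvU hRv
  obtain ⟨hP, hsub⟩ := hOn
  obtain ⟨N, hN⟩ : ∃ N : Finset V, N = Nb U Γ {v} := ⟨_, rfl⟩
  rw [← hN]
  have hR' : Rig (del Γ v ∪ KK N) (U.erase v) := hRv.mono Finset.subset_union_left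
  have hmemN : ∀ i, i ∈ N → i ∈ U ∧ i ≠ v := by
    intro i hi
    rw [hN, mem_Nb] at hi
    exact ⟨hi.1, fun h => hi.2.1 (by simp [h])⟩
  have hP' : Pairs (del Γ v ∪ KK N) := by
    intro g hg
    rcases Finset.mem_union.1 hg with h | h
    · unfold del at h
      exact hP g (Finset.mem_filter.1 h).1
    · unfold KK at h
      exact (Finset.mem_powersetCard.1 h).2
  have hsub' : ∀ g ∈ del Γ v ∪ KK N, g ⊆ U.erase v := by
    intro g hg
    rcases Finset.mem_union.1 hg with h | h
    · unfold del at h
      rw [Finset.mem_filter] at h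
      intro c hc
      rw [Finset.mem_erase]
      exact ⟨fun e => h.2 (e ▸ hc), hsub g h.1 hc⟩
    · unfold KK at h
      intro c hc
      rw [Finset.mem_erase]
      have := hmemN c ((Finset.mem_powersetCard.1 h).1 hc)
      exact ⟨this.2, this.1⟩
  refine ⟨hR', fun e he => ?_⟩
  by_cases hed : e ∈ del Γ v
  · have hed' := hed
    unfold del at hed'
    rw [Finset.mem_filter] at hed'
    obtain ⟨heΓ, hve⟩ := hed'
    by_cases heK : e ∈ KK N
    · by_cases h4 : 4 ≤ N.card
      · -- at least four neighbours
        have h1 : Rig ((del Γ v ∪ KK N).erase e) N :=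
          (rig_KK_erase h4 heK).mono (Finset.erase_subset_erase e Finset.subset_union_right)
        have hK := heK
        unfold KK at hK
        rw [Finset.mem_powersetCard] at hK
        refine rig_of_rig_insert (fun g hg => hP' g (Finset.mem_of_mem_erase hg)) h1 hK.2 hK.1
          (fun g hg => hsub' g (Finset.mem_of_mem_erase hg)) ?_
        rwa [Finset.insert_erase he]
      · -- three neighbours
        have h3 := (hDEG V U Γ v ⟨hP, hsub⟩ hRR (by omega) hvU).1
        rw [← hN] at h3
        have hN3 : N.card = 3 := by omega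
        have hK := heK
        unfold KK at hK
        rw [Finset.mem_powersetCard] at hK
        obtain ⟨x, y, hxy, rfl⟩ := Finset.card_eq_two.1 hK.2
        have h5 : (N \ {x, y}).card = 1 := by
          rw [Finset.card_sdiff_of_subset hK.1, hK.2, hN3]
        obtain ⟨z, hz⟩ := Finset.card_eq_one.1 h5
        have hzN : z ∈ N \ {x, y} := by rw [hz]; simp
        rw [Finset.mem_sdiff, Finset.mem_insert, Finset.mem_singleton] at hzN
        push Not at hzN
        have hxz : x ≠ z := fun h => hzN.2.1 h.symm
        have hyz : y ≠ z := fun h => hzN.2.2 h.symm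
        have hNe : N = {x, y, z} := by
          ext c
          constructor
          · intro hc
            by_cases hcx : c ∈ ({x, y} : Finset V)
            · rw [Finset.mem_insert, Finset.mem_singleton] at hcx
              rcases hcx with rfl | rfl <;> simp
            · have : c ∈ N \ {x, y} := Finset.mem_sdiff.2 ⟨hc, hcx⟩
              rw [hz, Finset.mem_singleton] at this
              simp [this]
          · intro hc
            simp only [Finset.mem_insert, Finset.mem_singleton] at hc
            rcases hc with rfl | rfl | rfl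
            · exact hK.1 (by simp)
            · exact hK.1 (by simp)
            · exact hzN.1
        have h6 := hBC V U Γ v x y z ⟨hP, hsub⟩ hU5 hTC hRR hvU hRv hxy hxz hyz (hN ▸ hNe) heΓ
        refine h6.mono fun g hg => ?_
        rw [Finset.mem_union, Finset.mem_insert, Finset.mem_singleton] at hg
        have hxN : x ∈ N := hK.1 (by simp)
        have hyN : y ∈ N := hK.1 (by simp)
        have hKm : ∀ {a b : V}, a ∈ N → b ∈ N → a ≠ b → ({a, b} : Finset V) ∈ KK N := by
          intro a b ha hb hab
          unfold KK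
          rw [Finset.mem_powersetCard]
          refine ⟨?_, Finset.card_pair hab⟩
          intro c hc
          rw [Finset.mem_insert, Finset.mem_singleton] at hc
          rcases hc with rfl | rfl
          · exact ha
          · exact hb
        rw [Finset.mem_erase, Finset.mem_union]
        have hzxy : z ∉ ({x, y} : Finset V) := by
          simp [hzN.2.1, hzN.2.2]
        rcases hg with hg | rfl | rfl
        · rw [Finset.mem_erase] at hg
          exact ⟨hg.1, Or.inl hg.2⟩
        · refine ⟨fun h => hzxy (by rw [← h]; simp), Or.inr (hKm hxN hzN.1 hxz)⟩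
        · refine ⟨fun h => hzxy (by rw [← h]; simp), Or.inr (hKm hyN hzN.1 hyz)⟩
    · -- an edge not between neighbours
      have hOnE : On U (Γ.erase e) :=
        ⟨fun g hg => hP g (Finset.mem_of_mem_erase hg),
          fun g hg => hsub g (Finset.mem_of_mem_erase hg)⟩
      have h1 := (hRED V U (Γ.erase e) v hOnE (hRR.2 e heΓ) (by omega) hvU).1
      have h2 : Nb U (Γ.erase e) {v} = N := by
        rw [hN]
        ext i
        rw [mem_Nb, mem_Nb]
        constructor
        · rintro ⟨h3, h4, c, hc, h5⟩
          exact ⟨h3, h4, c, hc, Finset.mem_of_mem_erase h5⟩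
        · rintro ⟨h3, h4, c, hc, h5⟩
          refine ⟨h3, h4, c, hc, Finset.mem_erase.2 ⟨fun h => ?_, h5⟩⟩
          rw [Finset.mem_singleton] at hc
          apply hve
          rw [← h, ← hc]
          simp
      rw [h2] at h1
      refine h1.mono fun g hg => ?_
      rw [Finset.mem_erase, Finset.mem_union]
      rcases Finset.mem_union.1 hg with h | h
      · unfold del at h ⊢
        rw [Finset.mem_filter, Finset.mem_erase] at h
        exact ⟨h.1.1, Or.inl (Finset.mem_filter.2 ⟨h.1.2, h.2⟩)⟩
      · exact ⟨fun h' => heK (h' ▸ h), Or.inr h⟩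
  · refine hRv.mono fun g hg => Finset.mem_erase.2 ⟨fun h => hed (h ▸ hg), ?_⟩
    exact Finset.mem_union_left _ hg

end Pool.Agent.T2H90.CJ
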