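import Pool.Agent.T2H90.CJ.StmG

/-!
# Package SEPN : globally rigid graphs are 3-connected
-/

set_option autoImplicit false

namespace Pool.Agent.T2H90.CJ

open Pool.Agent.H598R2.Cnt Pool.Agent.TH694.GP Pool.Agent.H135R2 Pool.Agent.H632R2.Cogirth
open Pool.Agent.H135R2.VS (Conf fl IR Str Ker)

namespace PkgSEPN

/-- the signed distance (scaled) from the line through `A`, `B` -/
def S (A B z : Fin 2 → ℝ) : ℝ := (A 0 - B 0) * (z 1 - A 1) - (A 1 - B 1) * (z 0 - A 0)

/-- the square of the distance of `A`, `B` -/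
def N (A B : Fin 2 → ℝ) : ℝ := (A 0 - B 0) ^ 2 + (A 1 - B 1) ^ 2

/-- reflection -/
noncomputable def R (A B z : Fin 2 → ℝ) : Fin 2 → ℝ :=
  ![z 0 + 2 * S A B z / N A B * (A 1 - B 1), z 1 - 2 * S A B z / N A B * (A 0 - B 0)]

theorem R0 (A B z : Fin 2 → ℝ) : R A B z 0 = z 0 + 2 * S A B z / N A B * (A 1 - B 1) := rfl

theorem R1 (A B z : Fin 2 → ℝ) : R A B z 1 = z 1 - 2 * S A B z / N A B * (A 0 - B 0) := rfl

theorem R_dist (A B z w : Fin 2 → ℝ) (hN : N A B ≠ 0) :
    (R A B z 0 - R A B w 0) * (R A B z 0 - R A B w 0) +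
      (R A B z 1 - R A B w 1) * (R A B z 1 - R A B w 1) =
    (z 0 - w 0) * (z 0 - w 0) + (z 1 - w 1) * (z 1 - w 1) := by
  rw [R0, R0, R1, R1]
  have e : S A B z - S A B w = (A 0 - B 0) * (z 1 - w 1) - (A 1 - B 1) * (z 0 - w 0) := by
    unfold S
    ring
  set s := S A B z with hs
  set t := S A B w with ht
  have hN' : N A B = (A 0 - B 0) ^ 2 + (A 1 - B 1) ^ 2 := rfl
  set M := N A B with hM
  set u := A 0 - B 0 with hu
  set v := A 1 - B 1 with hv
  have e1 : z 0 + 2 * s / M * v - (w 0 + 2 * t / M * v) = (z 0 - w 0) + 2 * (s - t) / M * v := by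
    ring
  have e2 : z 1 - 2 * s / M * u - (w 1 - 2 * t / M * u) = (z 1 - w 1) - 2 * (s - t) / M * u := by
    ring
  rw [e1, e2]
  set g := s - t with hg
  have e3 : (z 0 - w 0 + 2 * g / M * v) * (z 0 - w 0 + 2 * g / M * v) +
      (z 1 - w 1 - 2 * g / M * u) * (z 1 - w 1 - 2 * g / M * u) =
      (z 0 - w 0) * (z 0 - w 0) + (z 1 - w 1) * (z 1 - w 1) -
        4 * g / M * (u * (z 1 - w 1) - v * (z 0 - w 0)) + 4 * g ^ 2 / M ^ 2 * (u ^ 2 + v ^ 2) := by
    ring
  rw [e3, ← e, ← hN']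
  field_simp
  ring

theorem R_cross (A B z w : Fin 2 → ℝ) (hN : N A B ≠ 0) :
    (R A B z 0 - w 0) * (R A B z 0 - w 0) + (R A B z 1 - w 1) * (R A B z 1 - w 1) =
    (z 0 - w 0) * (z 0 - w 0) + (z 1 - w 1) * (z 1 - w 1) + 4 * S A B z * S A B w / N A B := by
  rw [R0, R1]
  have e : S A B z - S A B w = (A 0 - B 0) * (z 1 - w 1) - (A 1 - B 1) * (z 0 - w 0) := by
    unfold S
    ring
  set s := S A B z with hs
  set t := S A B w with ht
  have hN' : N A B = (A 0 - B 0) ^ 2 + (A 1 - B 1) ^ 2 := rfl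
  set M := N A B with hM
  set u := A 0 - B 0 with hu
  set v := A 1 - B 1 with hv
  have e3 : (z 0 + 2 * s / M * v - w 0) * (z 0 + 2 * s / M * v - w 0) +
      (z 1 - 2 * s / M * u - w 1) * (z 1 - 2 * s / M * u - w 1) =
      (z 0 - w 0) * (z 0 - w 0) + (z 1 - w 1) * (z 1 - w 1) -
        4 * s / M * (u * (z 1 - w 1) - v * (z 0 - w 0)) + 4 * s ^ 2 / M ^ 2 * (u ^ 2 + v ^ 2) := by
    ring
  rw [e3, ← e, ← hN']
  field_simp
  ring

theorem R_fix (A B z : Fin 2 → ℝ) (h : S A B z = 0) : R A B z = z := by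
  funext k
  fin_cases k
  · change R A B z 0 = z 0
    rw [R0, h]
    ring
  · change R A B z 1 = z 1
    rw [R1, h]
    ring

theorem fl_two {V : Type} (p q : Conf 2 V) (i j : V) :
    fl p q i j = (p i 0 - p j 0) * (q i 0 - q j 0) + (p i 1 - p j 1) * (q i 1 - q j 1) := by
  unfold VS.fl
  rw [Fin.sum_univ_two]

end PkgSEPN

open PkgSEPN in
theorem pSEPN : S_SEPN := by
  intro V _ _ G hV hGR X hX
  obtain ⟨-, ⟨x, hx⟩, hM2, hne⟩ := hX
  set M := Nb Finset.univ (prs G) X with hM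
  obtain ⟨y, hy⟩ : ∃ y, y ∉ X ∪ M := by
    by_contra hcon
    push Not at hcon
    exact hne (Finset.eq_univ_of_forall hcon)
  rw [Finset.mem_union, not_or] at hy
  have hxM : x ∉ M := fun h => (mem_Nb.1 h).2.1 hx
  have hxy : x ≠ y := fun h => hy.1 (h ▸ hx)
  have hsub : M ⊆ (Finset.univ.erase x).erase y := by
    intro z hz
    rw [Finset.mem_erase, Finset.mem_erase]
    refine ⟨?_, ?_, Finset.mem_univ z⟩
    · rintro rfl
      exact hy.2 hz
    · rintro rfl
      exact hxM hz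
  have hcard : 2 ≤ ((Finset.univ.erase x).erase y : Finset V).card := by
    rw [Finset.card_erase_of_mem (Finset.mem_erase.2 ⟨hxy.symm, Finset.mem_univ y⟩),
      Finset.card_erase_of_mem (Finset.mem_univ x), Finset.card_univ]
    omega
  obtain ⟨M', hMM', hM't, hM'c⟩ := Finset.exists_subsuperset_card_eq hsub hM2 hcard
  obtain ⟨a, b, hab, rfl⟩ := Finset.card_eq_two.1 hM'c
  have ha := hM't (show a ∈ ({a, b} : Finset V) by simp)
  have hb := hM't (show b ∈ ({a, b} : Finset V) by simp)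
  rw [Finset.mem_erase, Finset.mem_erase] at ha hb
  obtain ⟨p, hp⟩ := Pool.Agent.H632R2.Laman.exists_gen V
  have hcol : ∀ z : V, z ≠ a → z ≠ b → S (p a) (p b) (p z) ≠ 0 := by
    intro z hza hzb h
    have h1 := Pool.Agent.H632R2.Laman.Gen.not_collinear hp hab hza.symm hzb.symm
    apply h1
    unfold S at h
    linarith
  have hN : N (p a) (p b) ≠ 0 := by
    have h1 := Pool.Agent.H632R2.Laman.Gen.ne hp hab 0
    have h2 : p a 0 - p b 0 ≠ 0 := sub_ne_zero.2 h1
    have h3 : 0 < (p a 0 - p b 0) ^ 2 := by positivity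
    unfold N
    positivity
  have hfix : ∀ z ∈ M, R (p a) (p b) (p z) = p z := by
    intro z hz
    apply R_fix
    have hz' := hMM' hz
    rw [Finset.mem_insert, Finset.mem_singleton] at hz'
    rcases hz' with rfl | rfl
    · unfold S
      ring
    · unfold S
      ring
  set q : Conf 2 V := fun i => if i ∈ X then R (p a) (p b) (p i) else p i with hq
  have hqX : ∀ i ∈ X, q i = R (p a) (p b) (p i) := fun i hi => by rw [hq]; exact if_pos hi
  have hqn : ∀ i, i ∉ X → q i = p i := fun i hi => by rw [hq]; exact if_neg hi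
  have hqM : ∀ i ∈ X ∪ M, q i = R (p a) (p b) (p i) := by
    intro i hi
    by_cases hiX : i ∈ X
    · exact hqX i hiX
    · rw [hqn i hiX, hfix i ((Finset.mem_union.1 hi).resolve_left hiX)]
  have key : ∀ i ∈ X, ∀ j, G.Adj i j → fl q q i j = fl p p i j := by
    intro i hi j hij
    have hj : j ∈ X ∪ M := by
      rw [Finset.mem_union]
      by_cases hjX : j ∈ X
      · exact Or.inl hjX
      · right
        rw [hM, mem_Nb]
        exact ⟨Finset.mem_univ j, hjX, i, hi, (mem_prs G _).2 ⟨j, i, hij.symm, rfl⟩⟩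
    rw [fl_two, fl_two, hqX i hi, hqM j hj]
    exact R_dist (p a) (p b) (p i) (p j) hN
  have heq : ∀ i j, G.Adj i j → fl q q i j = fl p p i j := by
    intro i j hij
    by_cases hi : i ∈ X
    · exact key i hi j hij
    · by_cases hj : j ∈ X
      · rw [VS.fl_symm q q i j, VS.fl_symm p p i j]
        exact key j hj i hij.symm
      · rw [fl_two, fl_two, hqn i hi, hqn j hj]
  have hfin := hGR p hp q heq x y
  rw [fl_two, fl_two, hqX x hx, hqn y hy.1, R_cross (p a) (p b) (p x) (p y) hN] at hfin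
  have h0 : 4 * S (p a) (p b) (p x) * S (p a) (p b) (p y) / N (p a) (p b) = 0 := by linarith
  rw [div_eq_zero_iff] at h0
  rcases h0 with h0 | h0
  · rcases mul_eq_zero.1 h0 with h1 | h1
    · rcases mul_eq_zero.1 h1 with h2 | h2
      · norm_num at h2
      · exact hcol x ha.2.1.symm hb.2.1.symm h2
    · exact hcol y ha.1.symm hb.1.symm h1
  · exact hN h0

end Pool.Agent.T2H90.CJ
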