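import Pool.Agent.T2H90.CJ.StmC

set_option autoImplicit false

namespace Pool.Agent.T2H90.CJ

open Pool.Agent.H598R2.Cnt Pool.Agent.TH694.GP

theorem pST : S_ST := by
  intro V _ U Γ v hOn hv
  obtain ⟨hP, hsub⟩ := hOn
  have h6 : ∀ i, i ∈ Nb U Γ {v} ↔ {v, i} ∈ Γ := by
    intro i
    rw [mem_Nb]
    constructor
    · rintro ⟨_, _, x, hx, hxi⟩
      rw [Finset.mem_singleton] at hx
      subst hx
      rwa [Finset.pair_comm]
    · intro h
      have hc := hP _ h
      have hne : v ≠ i := by
        rintro rfl
        simp at hc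
      refine ⟨hsub _ h (by simp), ?_, v, Finset.mem_singleton_self v, ?_⟩
      · rw [Finset.mem_singleton]
        exact fun h' => hne h'.symm
      · rwa [Finset.pair_comm]
  have h4 : v ∉ Nb U Γ {v} := by
    intro h
    rw [mem_Nb] at h
    exact h.2.1 (Finset.mem_singleton_self v)
  have h5 : Nb U Γ {v} ⊆ U := by
    intro i hi
    rw [mem_Nb] at hi
    exact hi.1
  have h1 : Γ.filter (fun e => v ∈ e) = star v (Nb U Γ {v}) := by
    ext p
    unfold star
    rw [Finset.mem_filter, Finset.mem_image]
    constructor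
    · rintro ⟨hp, hvp⟩
      obtain ⟨a, b, hab, rfl⟩ := Finset.card_eq_two.1 (hP p hp)
      rw [Finset.mem_insert, Finset.mem_singleton] at hvp
      rcases hvp with rfl | rfl
      · exact ⟨b, (h6 b).2 hp, rfl⟩
      · refine ⟨a, (h6 a).2 ?_, Finset.pair_comm _ _⟩
        rwa [Finset.pair_comm]
    · rintro ⟨i, hi, rfl⟩
      exact ⟨(h6 i).1 hi, by simp⟩
  refine ⟨h1, ?_, ?_, h4, h5, h6⟩
  · rw [h1]
    unfold star
    refine Finset.card_image_of_injOn ?_
    intro i hi j hj hij
    have hij' : ({v, i} : Finset V) = {v, j} := hij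
    have hiv : i ≠ v := by
      rintro rfl
      exact h4 hi
    have : i ∈ ({v, j} : Finset V) := by
      rw [← hij']
      simp
    rw [Finset.mem_insert, Finset.mem_singleton] at this
    rcases this with h | h
    · exact absurd h hiv
    · exact h
  · rw [← h1]
    unfold del
    rw [Finset.union_comm]
    exact Finset.filter_union_filter_not_eq _ _

end Pool.Agent.T2H90.CJ
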