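import Pool.Agent.T2H90.CJ.StmG

set_option autoImplicit false

namespace Pool.Agent.T2H90.CJ

open Pool.Agent.H598R2.Cnt Pool.Agent.TH694.GP Pool.Agent.H135R2 Pool.Agent.H632R2.Cogirth
open Pool.Agent.H135R2.VS (Conf fl IR Str Ker)

theorem pSUF (hCOMB : S_COMB) (hK4 : S_K4) (hT3 : S_T3) : S_SUF := by
  intro V _ _ p U Γ hp hOn h4 hTC hRR
  induction hn : U.card using Nat.strong_induction_on generalizing U Γ with
  | _ n ih =>
  by_cases h5 : 5 ≤ U.card
  · obtain ⟨v, hv, h3, hR, hOn', hTC', hRR'⟩ := hCOMB V U Γ hOn h5 hTC hRR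
    refine hT3 V p U Γ v hp hOn hv h3 hR ?_
    have hc : (U.erase v).card = U.card - 1 := Finset.card_erase_of_mem hv
    exact ih (U.erase v).card (by omega) (U.erase v) _ hOn' (by omega) hTC' hRR' rfl
  · have hK := hK4 V U Γ hOn (by omega) hTC
    intro q hq i hi j hj
    by_cases hij : i = j
    · subst hij
      rw [VS.fl_self, VS.fl_self]
    · refine hq i j ?_
      rw [hK, KK, Finset.mem_powersetCard]
      refine ⟨?_, Finset.card_pair hij⟩
      intro x hx
      rcases Finset.mem_insert.1 hx with rfl | hx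
      · exact hi
      · rw [Finset.mem_singleton] at hx
        subst hx
        exact hj

end Pool.Agent.T2H90.CJ
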