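import Pool.Agent.T2H90.CJ.StmG

set_option autoImplicit false

namespace Pool.Agent.T2H90.CJ

open Pool.Agent.H598R2.Cnt Pool.Agent.TH694.GP Pool.Agent.H135R2 Pool.Agent.H632R2.Cogirth
open Pool.Agent.H135R2.VS (Conf fl IR Str Ker)

theorem pT3A (hRNG : S_RNG) : S_T3A := by
  classical
  intro V _ _ p q Γ X N v hp hΓ hR hX hvX hNX hv hq hqv w
  obtain ⟨D, hD⟩ := hp.der (fun i => if i = v then w else 0)
  have hder : ∀ i j, fl q q i j = fl p p i j →
      fl q (fun i => VS.dv D (q i)) i j = fl p (fun i => if i = v then w else 0) i j := by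
    intro i j h
    have h2 := congrArg D h
    have hD' : (fun i => VS.dv D (p i)) = (fun i => if i = v then w else 0) := by
      ext i a
      exact hD i a
    rw [VS.der_fl, VS.der_fl, hD', VS.fl_comm _ q, VS.fl_comm _ p] at h2
    linarith
  obtain ⟨s, t, hst⟩ := hRNG V p q Γ X hp hΓ hR hX hq (fun i => VS.dv D (q i)) (by
    intro i j hij
    have hvi : i ≠ v := fun h => hv _ hij (by rw [h]; simp)
    have hvj : j ≠ v := fun h => hv _ hij (by rw [h]; simp)
    rw [hder i j (hq i j hij)]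
    simp [fl, hvi, hvj])
  refine ⟨![D (q v 0) + s * q v 1 - t 0, D (q v 1) - s * q v 0 - t 1], fun i hi => ?_⟩
  have hiX := hNX hi
  have hiv : i ≠ v := fun h => hvX (h ▸ hiX)
  obtain ⟨h0, h1⟩ := hst i hiX
  have h2 := hder v i (hqv i hi)
  simp only [fl, Fin.sum_univ_two, VS.dv, if_true, if_neg hiv, Pi.zero_apply] at h2 h0 h1
  simp only [dotProduct, Fin.sum_univ_two, Pi.sub_apply, Matrix.cons_val_zero, Matrix.cons_val_one]
  rw [h0, h1] at h2
  linear_combination h2

end Pool.Agent.T2H90.CJ
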