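import Pool.Agent.T2H90.CJ.StmC

/-!
# Package TCV of project CJ: replacing a vertex by the complete graph on its neighbours preserves
3-connectedness.
-/

set_option autoImplicit false

namespace Pool.Agent.T2H90.CJ

open Pool.Agent.H598R2.Cnt Pool.Agent.TH694.GP

namespace PkgTCV

variable {V : Type} [DecidableEq V]

theorem mem_KK_pair {N : Finset V} {a b : V} (ha : a ∈ N) (hb : b ∈ N) (hab : a ≠ b) :
    ({a, b} : Finset V) ∈ KK N := by
  unfold KK
  rw [Finset.mem_powersetCard]
  refine ⟨?_, Finset.card_pair hab⟩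
  intro x hx
  rw [Finset.mem_insert, Finset.mem_singleton] at hx
  rcases hx with rfl | rfl
  · exact ha
  · exact hb

theorem mem_del_pair {Γ : Finset (Finset V)} {a b v : V} (h : ({a, b} : Finset V) ∈ Γ)
    (ha : a ≠ v) (hb : b ≠ v) : ({a, b} : Finset V) ∈ del Γ v := by
  unfold del
  rw [Finset.mem_filter]
  refine ⟨h, ?_⟩
  intro hv
  rw [Finset.mem_insert, Finset.mem_singleton] at hv
  rcases hv with hv | hv
  · exact ha hv.symm
  · exact hb hv.symm

end PkgTCV

open PkgTCV in
theorem pTCV : S_TCV := by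
  intro V _ U Γ v hOn hTC hv X hX
  obtain ⟨hXU, hXne, hcard, hne⟩ := hX
  have hMsub : Nb (U.erase v) (del Γ v ∪ KK (Nb U Γ {v})) X ⊆ U.erase v := by
    intro w hw
    rw [mem_Nb] at hw
    exact hw.1
  by_cases hmeet : ∃ a, a ∈ X ∧ a ∈ Nb U Γ {v}
  · obtain ⟨a, haX, haN⟩ := hmeet
    have hN : ∀ w ∈ Nb U Γ {v}, w ∉ X → w ∈ Nb (U.erase v) (del Γ v ∪ KK (Nb U Γ {v})) X := by
      intro w hw hwX
      have hw' := hw
      rw [mem_Nb] at hw'
      rw [mem_Nb]
      refine ⟨?_, hwX, a, haX, ?_⟩
      · rw [Finset.mem_erase]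
        refine ⟨?_, hw'.1⟩
        intro h
        exact hw'.2.1 (Finset.mem_singleton.mpr h)
      · apply Finset.mem_union_right
        apply mem_KK_pair hw haN
        rintro rfl
        exact hwX haX
    have hsub : Nb U Γ (insert v X) ⊆ Nb (U.erase v) (del Γ v ∪ KK (Nb U Γ {v})) X := by
      intro w hw
      rw [mem_Nb] at hw
      obtain ⟨h1, h2, x, hx, h3⟩ := hw
      rw [Finset.mem_insert] at h2
      push Not at h2
      rw [Finset.mem_insert] at hx
      by_cases hxv : x = v
      · apply hN w _ h2.2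
        rw [mem_Nb]
        refine ⟨h1, ?_, v, Finset.mem_singleton_self v, ?_⟩
        · rw [Finset.mem_singleton]
          exact h2.1
        · rw [← hxv]
          exact h3
      · have hxX : x ∈ X := hx.resolve_left hxv
        rw [mem_Nb]
        exact ⟨Finset.mem_erase.mpr ⟨h2.1, h1⟩, h2.2, x, hxX,
          Finset.mem_union_left _ (mem_del_pair h3 h2.1 hxv)⟩
    apply hTC (insert v X)
    refine ⟨?_, Finset.insert_nonempty v X, (Finset.card_le_card hsub).trans hcard, ?_⟩
    · intro w hw
      rw [Finset.mem_insert] at hw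
      rcases hw with rfl | hw
      · exact hv
      · exact (Finset.mem_erase.mp (hXU hw)).2
    · intro hU
      apply hne
      apply Finset.Subset.antisymm (Finset.union_subset hXU hMsub)
      intro u hu
      rw [Finset.mem_erase] at hu
      have hu2 := hu.2
      rw [← hU, Finset.mem_union, Finset.mem_insert] at hu2
      rw [Finset.mem_union]
      rcases hu2 with (h | h) | h
      · exact absurd h hu.1
      · exact Or.inl h
      · exact Or.inr (hsub h)
  · push Not at hmeet
    have hsub : Nb U Γ X ⊆ Nb (U.erase v) (del Γ v ∪ KK (Nb U Γ {v})) X := by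
      intro w hw
      rw [mem_Nb] at hw
      obtain ⟨h1, h2, x, hx, h3⟩ := hw
      have hxU := Finset.mem_erase.mp (hXU hx)
      have hwv : w ≠ v := by
        rintro rfl
        apply hmeet x hx
        rw [mem_Nb]
        refine ⟨hxU.2, ?_, w, Finset.mem_singleton_self w, ?_⟩
        · rw [Finset.mem_singleton]
          exact hxU.1
        · rw [Finset.pair_comm]
          exact h3
      rw [mem_Nb]
      exact ⟨Finset.mem_erase.mpr ⟨hwv, h1⟩, h2, x, hx,
        Finset.mem_union_left _ (mem_del_pair h3 hwv hxU.1)⟩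
    apply hTC X
    refine ⟨?_, hXne, (Finset.card_le_card hsub).trans hcard, ?_⟩
    · intro w hw
      exact (Finset.mem_erase.mp (hXU hw)).2
    · intro hU
      have hv' := hv
      rw [← hU, Finset.mem_union] at hv'
      rcases hv' with h | h
      · exact (Finset.mem_erase.mp (hXU h)).1 rfl
      · exact (Finset.mem_erase.mp (hMsub (hsub h))).1 rfl

end Pool.Agent.T2H90.CJ
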