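import Pool.Agent.T2H90.CJ.StmG

/-!
# Project CJ, package TRI: trilateration
-/

set_option autoImplicit false

namespace Pool.Agent.T2H90.CJ

open Pool.Agent.H598R2.Cnt Pool.Agent.TH694.GP Pool.Agent.H135R2 Pool.Agent.H632R2.Cogirth
open Pool.Agent.H135R2.VS (Conf fl IR Str Ker)

namespace PkgTRI

theorem fl_sq {V : Type} (q : Conf 2 V) (i j : V) :
    fl q q i j = (q i 0 - q j 0) ^ 2 + (q i 1 - q j 1) ^ 2 := by
  unfold fl
  rw [Fin.sum_univ_two]
  ring

/-- the configuration as points of the plane -/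
def P2 {V : Type} (q : Conf 2 V) (v : V) : Plane := WithLp.toLp 2 (q v)

theorem dist_iff_fl {V : Type} (p q : Conf 2 V) (i j : V) :
    dist (P2 q i) (P2 q j) = dist (P2 p i) (P2 p j) ↔ fl q q i j = fl p p i j := by
  rw [Geo.dist_iff, fl_sq, fl_sq]
  rfl

end PkgTRI

open PkgTRI

theorem pTRI : S_TRI := by
  intro V _ _ p q X N v hp hNX hN hX hv
  obtain ⟨φ, hφ, hφ2⟩ := Geo.exists_iso (X : Set V) (P2 q) (P2 p) (fun i hi j hj =>
    (dist_iff_fl p q i j).mpr (hX i hi j hj))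
  obtain ⟨a, ha, b, hb, c, hc, hab, hac, hbc⟩ := Finset.two_lt_card.mp hN
  have hd : ∀ x ∈ N, dist (φ (P2 q v)) (P2 p x) = dist (P2 p v) (P2 p x) := by
    intro x hx
    rw [← hφ2 x (hNX hx), hφ.dist_eq, hφ2 x (hNX hx)]
    exact (dist_iff_fl p q v x).mpr (hv x hx)
  have hnc : (P2 p a 0 - P2 p b 0) * (P2 p a 1 - P2 p c 1)
      - (P2 p a 1 - P2 p b 1) * (P2 p a 0 - P2 p c 0) ≠ 0 :=
    Pool.Agent.H632R2.Laman.Gen.not_collinear (z := p) hp hab hac hbc
  have hφv : φ (P2 q v) = P2 p v :=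
    Geo.three_pts hnc (hd a ha) (hd b hb) (hd c hc)
  have hall : ∀ i ∈ insert v X, φ (P2 q i) = P2 p i := by
    intro i hi
    rcases Finset.mem_insert.mp hi with rfl | hi
    · exact hφv
    · exact hφ2 i hi
  intro i hi j hj
  rw [← dist_iff_fl, ← hall i hi, ← hall j hj, hφ.dist_eq]

end Pool.Agent.T2H90.CJ
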