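import Pool.Agent.T2H90.CJ.StmC

set_option autoImplicit false

namespace Pool.Agent.T2H90.CJ

open Pool.Agent.H598R2.Cnt Pool.Agent.TH694.GP

namespace PkgUNI

variable {V : Type} [DecidableEq V]

/-- a separator which meets a connected subset contains it -/
theorem sub_of_meet {Γ A S : Finset (Finset V)} (hΓ : Pairs Γ) (hA : Con A) (hAΓ : A ⊆ Γ) (hS : Sepr Γ S)
    {x : Finset V} (hxA : x ∈ A) (hxS : x ∈ S) : A ⊆ S := by
  have h1 := sepr_restrict hΓ hS hAΓ
  have h2 := cmp_subset_of_sepr h1 (Finset.mem_inter.2 ⟨hxA, hxS⟩)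
  rw [hA x hxA] at h2
  exact h2.trans Finset.inter_subset_right

end PkgUNI

theorem pUNI : S_UNI := by
  intro V _ A B hp hA hB hne e he
  obtain ⟨c, hc⟩ := hne
  rw [Finset.mem_inter] at hc
  refine Finset.Subset.antisymm (cmp_subset _ _) ?_
  have hS := sepr_cmp hp he
  have heS := mem_cmp_self he
  have hAs : A ⊆ A ∪ B := Finset.subset_union_left
  have hBs : B ⊆ A ∪ B := Finset.subset_union_right
  rcases Finset.mem_union.1 he with h | h
  · have h1 := PkgUNI.sub_of_meet hp hA hAs hS h heS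
    have h2 := PkgUNI.sub_of_meet hp hB hBs hS hc.2 (h1 hc.1)
    exact Finset.union_subset h1 h2
  · have h1 := PkgUNI.sub_of_meet hp hB hBs hS h heS
    have h2 := PkgUNI.sub_of_meet hp hA hAs hS hc.1 (h1 hc.2)
    exact Finset.union_subset h2 h1

end Pool.Agent.T2H90.CJ
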