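import Pool.Agent.T2H90.CJ.StmC

/-!
# Project CJ, package VV

A connected graph (in the sense of the count matroid) has a vertex whose deletion leaves a rigid graph.
-/

set_option autoImplicit false

namespace Pool.Agent.T2H90.CJ

open Pool.Agent.H598R2.Cnt Pool.Agent.TH694.GP

namespace PkgVV

variable {V : Type} [DecidableEq V]

theorem vs_mono {E Γ : Finset (Finset V)} (h : E ⊆ Γ) : vs E ⊆ vs Γ := by
  intro x hx
  obtain ⟨p, hp, hxp⟩ := mem_vs.1 hx
  exact mem_vs.2 ⟨p, h hp, hxp⟩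

theorem del_mono {E Γ : Finset (Finset V)} (h : E ⊆ Γ) (u : V) : del E u ⊆ del Γ u := by
  unfold del
  exact Finset.filter_subset_filter _ h

/-- a maximal proper connected subset -/
theorem exists_max {Γ C : Finset (Finset V)} (hC : C ⊆ Γ) (hcon : Con C) (h2 : 2 ≤ C.card)
    (hne : C ≠ Γ) : ∃ E ⊆ Γ, Con E ∧ 2 ≤ E.card ∧ E ≠ Γ ∧
      ∀ E', Con E' → E ⊆ E' → E' ⊆ Γ → E' = E ∨ E' = Γ := by
  classical
  obtain ⟨E, hE, hmax⟩ := Finset.exists_max_image
    (Γ.powerset.filter (fun E => Con E ∧ 2 ≤ E.card ∧ E ≠ Γ)) Finset.card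
    ⟨C, Finset.mem_filter.2 ⟨Finset.mem_powerset.2 hC, hcon, h2, hne⟩⟩
  rw [Finset.mem_filter, Finset.mem_powerset] at hE
  refine ⟨E, hE.1, hE.2.1, hE.2.2.1, hE.2.2.2, fun E' h1 h3 h4 => ?_⟩
  by_cases h5 : E' = Γ
  · exact Or.inr h5
  · left
    have h6 := hmax E' (Finset.mem_filter.2 ⟨Finset.mem_powerset.2 h4, h1,
      hE.2.2.1.trans (Finset.card_le_card h3), h5⟩)
    exact (Finset.eq_of_subset_of_card_le h3 h6).symm

/-- a proper connected subset with at least two elements, if there are at least two more elements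
than the rank -/
theorem exists_con (hCIR : S_CIR) {Γ : Finset (Finset V)} (hΓ : Pairs Γ)
    (h : rk Γ + 1 < Γ.card) : ∃ C ⊆ Γ, Con C ∧ 2 ≤ C.card ∧ C ≠ Γ := by
  obtain ⟨I, -, hI⟩ := exists_maxl (Finset.empty_subset Γ) (M1.sp_empty (V := V))
  have h1 := rk_eq hΓ hI
  have h2 : ∃ e ∈ Γ, e ∉ I := by
    by_contra hcon
    push Not at hcon
    have := Finset.card_le_card (show Γ ⊆ I from hcon)
    omega
  obtain ⟨e, he, heI⟩ := h2
  have h3 : insert e I ⊆ Γ := Finset.insert_subset he hI.1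
  obtain ⟨C, hC, hCc, heC⟩ := (hCIR V).2 I e (fun p hp => hΓ p (h3 hp)) hI.2.1 (hI.2.2 e he heI)
  obtain ⟨h4, h5, h6⟩ := (hCIR V).1 C hCc
  refine ⟨C, hC.trans h3, h5, h6, ?_⟩
  rintro rfl
  have h7 := Finset.card_le_card hC
  rw [Finset.card_insert_of_notMem heI] at h7
  omega

end PkgVV

open PkgVV in
theorem pVV (hCIR : S_CIR) (hCRR : S_CRR) (hDEG3 : S_DEG3) (hYDEG : S_YDEG) (hEAR : S_EAR)
    (hDEG : S_DEG) : S_VV := by
  intro V _ Γ
  induction Γ using Finset.strongInduction with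
  | H Γ ih =>
    intro hΓ hcon h2
    obtain ⟨hOn, hRR, h4⟩ := hCRR V Γ hΓ hcon h2
    have hrk := (rig_iff_rk hΓ hOn.2 (by omega)).1 hRR.1
    by_cases hcase : Γ.card ≤ rk Γ + 1
    · obtain ⟨u, hu, hdeg⟩ := hDEG3 V (vs Γ) Γ hOn (by omega)
      exact ⟨u, hu, (hDEG V (vs Γ) Γ u hOn hRR (by omega) hu).2 hdeg⟩
    · obtain ⟨C, hCΓ, hC, hC2, hCne⟩ := exists_con hCIR hΓ (by omega)
      obtain ⟨E, hEΓ, hE, hE2, hEne, hmax⟩ := exists_max hCΓ hC hC2 hCne
      have hEp : Pairs E := fun p hp => hΓ p (hEΓ hp)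
      have hEn : E.Nonempty := Finset.card_pos.1 (by omega)
      obtain ⟨hr, hsp⟩ := hEAR V Γ E hΓ hcon hE hEΓ hEn hEne hmax
      obtain ⟨hOnE, hRRE, h4E⟩ := hCRR V E hEp hE hE2
      have hrkE := (rig_iff_rk hEp hOnE.2 (by omega)).1 hRRE.1
      have hvs : vs E ⊆ vs Γ := vs_mono hEΓ
      have hY : (vs Γ \ vs E).card + (vs E).card = (vs Γ).card :=
        Finset.card_sdiff_add_card_eq_card hvs
      rcases (vs Γ \ vs E).eq_empty_or_nonempty with h0 | h0
      · have hvse : vs E = vs Γ :=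
          Finset.Subset.antisymm hvs (Finset.sdiff_eq_empty_iff_subset.1 h0)
        obtain ⟨u, hu, hrig⟩ := ih E (Finset.ssubset_iff_subset_ne.2 ⟨hEΓ, hEne⟩) hEp hE hE2
        rw [hvse] at hu hrig
        exact ⟨u, hu, hrig.mono (del_mono hEΓ u)⟩
      · obtain ⟨u, hu, hdeg⟩ := hYDEG V (vs Γ) (vs Γ \ vs E) Γ (Γ \ E) hOn Finset.sdiff_subset
          Finset.sdiff_subset h0 hsp (by omega) (by
            intro e he hne
            rw [Finset.mem_sdiff]
            refine ⟨he, fun heE => ?_⟩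
            obtain ⟨x, hx⟩ := hne
            rw [Finset.mem_inter, Finset.mem_sdiff] at hx
            exact hx.2.2 (sub_vs heE hx.1))
        have hu' : u ∈ vs Γ := (Finset.mem_sdiff.1 hu).1
        exact ⟨u, hu', (hDEG V (vs Γ) Γ u hOn hRR (by omega) hu').2 hdeg⟩

end Pool.Agent.T2H90.CJ
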