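import Pool.Agent.T2H90.CJ.StmC

set_option autoImplicit false

namespace Pool.Agent.T2H90.CJ

open Pool.Agent.H598R2.Cnt Pool.Agent.TH694.GP

theorem pYDEG (hST : S_ST) : S_YDEG := by
  intro V _ U Y Γ F hOn hFΓ hYU hY hSp hF hmeet
  by_contra hcon
  push Not at hcon
  have h1 : ∑ u ∈ Y, (F.filter (fun e => u ∈ e)).card = ∑ e ∈ F, (Y.filter (fun u => u ∈ e)).card :=
    Finset.sum_card_bipartiteAbove_eq_sum_card_bipartiteBelow (fun (u : V) (e : Finset V) => u ∈ e)
  have h2 : ∀ e ∈ F, (Y.filter (fun u => u ∈ e)).card ≤ 1 + if e ⊆ Y then 1 else 0 := by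
    intro e he
    have hc := hOn.1 e (hFΓ he)
    have hsub : Y.filter (fun u => u ∈ e) ⊆ e := fun u hu => (Finset.mem_filter.1 hu).2
    by_cases h : e ⊆ Y
    · rw [if_pos h]
      have := Finset.card_le_card hsub
      omega
    · rw [if_neg h]
      have hlt : (Y.filter (fun u => u ∈ e)).card < e.card := by
        refine Finset.card_lt_card ⟨hsub, fun h' => h ?_⟩
        intro u hu
        exact (Finset.mem_filter.1 (h' hu)).1
      omega
  have h3 : ∑ e ∈ F, (Y.filter (fun u => u ∈ e)).card ≤ F.card + ins F Y := by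
    refine (Finset.sum_le_sum h2).trans ?_
    rw [Finset.sum_add_distrib, Finset.sum_const, smul_eq_mul, mul_one, ← Finset.card_filter]
    exact le_refl _
  have h4 : ∑ _u ∈ Y, 4 ≤ ∑ u ∈ Y, (F.filter (fun e => u ∈ e)).card := by
    refine Finset.sum_le_sum fun u hu => ?_
    have h := (hST V U Γ u hOn (hYU hu)).2.1
    have h5 : Γ.filter (fun e => u ∈ e) ⊆ F.filter (fun e => u ∈ e) := by
      intro e he
      rw [Finset.mem_filter] at he ⊢
      exact ⟨hmeet e he.1 ⟨u, Finset.mem_inter.2 ⟨he.2, hu⟩⟩, he.2⟩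
    have h6 := Finset.card_le_card h5
    have := hcon u hu
    omega
  rw [Finset.sum_const, smul_eq_mul] at h4
  have hYpos : 0 < Y.card := Finset.card_pos.2 hY
  by_cases hc : 2 ≤ Y.card
  · have h5 := hSp Y hc
    omega
  · have h5 : ins F Y = 0 := by
      unfold ins
      rw [Finset.card_eq_zero, Finset.filter_eq_empty_iff]
      intro e he hsub
      have h6 := hOn.1 e (hFΓ he)
      have h7 := Finset.card_le_card hsub
      omega
    omega

end Pool.Agent.T2H90.CJ
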