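import Pool.Agent.T2H90.CJ.PKR
import Pool.Agent.T2H90.CJ.PKV
import Pool.Agent.T2H90.CJ.PST
import Pool.Agent.T2H90.CJ.PCOV
import Pool.Agent.T2H90.CJ.PDEG
import Pool.Agent.T2H90.CJ.PRED
import Pool.Agent.T2H90.CJ.PCNT
import Pool.Agent.T2H90.CJ.PBIG
import Pool.Agent.T2H90.CJ.PCON3
import Pool.Agent.T2H90.CJ.PCIR
import Pool.Agent.T2H90.CJ.PUNI
import Pool.Agent.T2H90.CJ.PLINK
import Pool.Agent.T2H90.CJ.PEAR
import Pool.Agent.T2H90.CJ.PYDEG
import Pool.Agent.T2H90.CJ.PCRR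
import Pool.Agent.T2H90.CJ.PDEG3
import Pool.Agent.T2H90.CJ.PVV
import Pool.Agent.T2H90.CJ.PTCV
import Pool.Agent.T2H90.CJ.PBA
import Pool.Agent.T2H90.CJ.PBC
import Pool.Agent.T2H90.CJ.PRRV
import Pool.Agent.T2H90.CJ.PCOMB
import Pool.Agent.T2H90.CJ.PK4
import Pool.Agent.T2H90.CJ.PIRG
import Pool.Agent.T2H90.CJ.PIRS
import Pool.Agent.T2H90.CJ.PRNG
import Pool.Agent.T2H90.CJ.PT3A
import Pool.Agent.T2H90.CJ.PLIN
import Pool.Agent.T2H90.CJ.PTRI
import Pool.Agent.T2H90.CJ.PT3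
import Pool.Agent.T2H90.CJ.PSUF
import Pool.Agent.T2H90.CJ.PSEPN
import Pool.Agent.T2H90.CJ.PQF
import Pool.Agent.T2H90.CJ.PNPA
import Pool.Agent.T2H90.CJ.PHB
import Pool.Agent.T2H90.CJ.PHA
import Pool.Agent.T2H90.CJ.PHEN
import Pool.Agent.T2H90.CJ.PNEC
import Pool.Agent.T2H90.CJ.PLK
import Pool.Agent.T2H90.CJ.PLR
import Pool.Agent.T2H90.CJ.PCJJ
import Pool.Agent.T2H90.CJ.PGE

/-!
# The theorem of Connelly, Jackson and Jordan

A graph with at least four vertices is globally rigid in the plane if and only if it is 3-connected and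
redundantly rigid.  Assembly of the packages of the project CJ.
-/

set_option autoImplicit false

namespace Pool.Agent.T2H90.CJ

open Pool.Agent.H598R2.Cnt Pool.Agent.TH694.GP Pool.Agent.H632R2.Cogirth

theorem mKR : S_KR := pKR
theorem mKV : S_KV := pKV mKR
theorem mST : S_ST := pST
theorem mCOV : S_COV := pCOV mST
theorem mDEG : S_DEG := pDEG mST mCOV
theorem mRED : S_RED := pRED mKR mKV mST mCOV
theorem mCNT : S_CNT := pCNT
theorem mBIG : S_BIG := pBIG
theorem mCON3 : S_CON3 := pCON3 mCNT mBIG mCOV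
theorem mCIR : S_CIR := pCIR
theorem mUNI : S_UNI := pUNI
theorem mLINK : S_LINK := pLINK mCIR
theorem mEAR : S_EAR := pEAR mCIR mUNI mLINK
theorem mYDEG : S_YDEG := pYDEG mST
theorem mCRR : S_CRR := pCRR
theorem mDEG3 : S_DEG3 := pDEG3 mST
theorem mVV : S_VV := pVV mCIR mCRR mDEG3 mYDEG mEAR mDEG
theorem mTCV : S_TCV := pTCV
theorem mBA : S_BA := pBA mKV mST
theorem mBC : S_BC := pBC mBA mCNT mBIG mDEG mST
theorem mRRV : S_RRV := pRRV mKR mRED mDEG mBC
theorem mCOMB : S_COMB := pCOMB mCOV mCON3 mVV mDEG mTCV mRRV mRED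
theorem mK4 : S_K4 := pK4
theorem mIRG : S_IRG := pIRG
theorem mIRS : S_IRS := pIRS mIRG
theorem mRNG : S_RNG := pRNG
theorem mT3A : S_T3A := pT3A mRNG
theorem mLIN : S_LIN := pLIN
theorem mTRI : S_TRI := pTRI
theorem mT3 : S_T3 := pT3 mT3A mLIN mTRI mST
theorem mSUF : S_SUF := pSUF mCOMB mK4 mT3
theorem mSEPN : S_SEPN := pSEPN
theorem mQF : S_QF := pQF
theorem mNPA : S_NPA := pNPA
theorem mHB : S_HB := pHB mQF
theorem mHA : S_HA := pHA
theorem mHEN : S_HEN := pHEN mIRS mNPA mHB mHA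
theorem mNEC : S_NEC := pNEC mIRS mHEN
theorem mLK : S_LK := pLK
theorem mLR : S_LR := pLR
theorem mCJJ : S_CJJ := pCJJ mSUF mSEPN mNEC mLK mLR
theorem mGE : S_GE := pGE

/-- **The theorem of Connelly, Jackson and Jordan** (R. Connelly 2005, B. Jackson and T. Jordan 2005): for graphs with at
least four vertices, global rigidity in the plane is equivalent to 3-connectedness and redundant rigidity. -/
theorem connelly_jackson_jordan {V : Type} [Fintype V] [DecidableEq V] (G : SimpleGraph V)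
    (h4 : 4 ≤ Fintype.card V) :
    Pool.Agent.TH694.GP.GloballyRigid G ↔
      (∀ S : Finset V, S.card ≤ 2 → (G.induce {v | v ∉ S}).Connected) ∧
      RigidInPlane G ∧ ∀ e ∈ G.edgeSet, RigidInPlane (G.deleteEdges {e}) := by
  rw [← mGE V G]
  exact mCJJ V G h4

end Pool.Agent.T2H90.CJ
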