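import Pool.Agent.T2H90.CJ.StmC

/-!
# Package CRR: connected sets are redundantly rigid
-/

set_option autoImplicit false

namespace Pool.Agent.T2H90.CJ

open Pool.Agent.H598R2.Cnt Pool.Agent.TH694.GP

theorem pCRR : S_CRR := by
  intro V _ Γ hΓ hcon h2
  have hsub : ∀ p ∈ Γ, p ⊆ vs Γ := fun p hp => sub_vs hp
  have hne : Γ.Nonempty := by
    rw [← Finset.card_pos]
    omega
  obtain ⟨e0, he0⟩ := hne
  have hrk := rk_cmp hΓ he0
  have h2v := two_le_vs hΓ he0
  rw [hcon e0 he0] at hrk h2v
  have her : ∀ e ∈ Γ, rk (Γ.erase e) = rk Γ := by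
    intro e he
    by_contra hcontra
    have h3 : rk (Γ.erase e) ≤ rk Γ := rk_mono (Finset.erase_subset _ _)
    have h4 := rk_union_le {e} (Γ.erase e)
    have e1 : {e} ∪ Γ.erase e = Γ := by
      ext x
      rw [Finset.mem_union, Finset.mem_singleton, Finset.mem_erase]
      constructor
      · rintro (rfl | h)
        · exact he
        · exact h.2
      · intro h
        by_cases hx : x = e
        · exact Or.inl hx
        · exact Or.inr ⟨hx, h⟩
    rw [e1, rk_singleton (hΓ e he)] at h4
    have hsep : Sepr Γ {e} := by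
      refine ⟨Finset.singleton_subset_iff.mpr he, ?_⟩
      rw [rk_singleton (hΓ e he), Finset.sdiff_singleton_eq_erase]
      omega
    have h5 := cmp_subset_of_sepr hsep (Finset.mem_singleton_self e)
    rw [hcon e he] at h5
    have h6 := Finset.card_le_card h5
    rw [Finset.card_singleton] at h6
    omega
  refine ⟨⟨hΓ, hsub⟩, ⟨(rig_iff_rk hΓ hsub h2v).mpr hrk, ?_⟩, ?_⟩
  · intro e he
    refine (rig_iff_rk (fun p hp => hΓ p (Finset.mem_of_mem_erase hp))
      (fun p hp => hsub p (Finset.mem_of_mem_erase hp)) h2v).mpr ?_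
    rw [her e he]
    exact hrk
  · by_contra hcon4
    have h3 : Γ ⊆ (vs Γ).powersetCard 2 := by
      intro p hp
      rw [Finset.mem_powersetCard]
      exact ⟨hsub p hp, hΓ p hp⟩
    have h4 := Finset.card_le_card h3
    rw [Finset.card_powersetCard] at h4
    have h5 := rk_le_card (Γ.erase e0)
    rw [her e0 he0, Finset.card_erase_of_mem he0] at h5
    have h6 : (vs Γ).card = 2 ∨ (vs Γ).card = 3 := by omega
    rcases h6 with h6 | h6
    · rw [h6] at h4 hrk
      have : Nat.choose 2 2 = 1 := by decide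
      omega
    · rw [h6] at h4 hrk
      have : Nat.choose 3 2 = 3 := by decide
      omega

end Pool.Agent.T2H90.CJ
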