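import Pool.Agent.T2H90.CJ.StmC

/-!
# Project CJ, package KR (helper55): complete graphs are rigid
-/

set_option autoImplicit false

namespace Pool.Agent.T2H90.CJ

open Pool.Agent.H598R2.Cnt Pool.Agent.TH694.GP

namespace PkgKR

variable {V : Type} [DecidableEq V]

theorem pairs_KK (N : Finset V) : Pairs (KK N) := fun p hp =>
  (Finset.mem_powersetCard.1 hp).2

theorem pair_mem {N : Finset V} {a b : V} (ha : a ∈ N) (hb : b ∈ N) (hab : a ≠ b) :
    ({a, b} : Finset V) ∈ KK N := by
  refine Finset.mem_powersetCard.2 ⟨?_, Finset.card_pair hab⟩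
  intro x hx
  rw [Finset.mem_insert, Finset.mem_singleton] at hx
  rcases hx with rfl | rfl
  · exact ha
  · exact hb

theorem KK_mono {M N : Finset V} (h : M ⊆ N) : KK M ⊆ KK N := fun p hp =>
  Finset.mem_powersetCard.2
    ⟨(Finset.mem_powersetCard.1 hp).1.trans h, (Finset.mem_powersetCard.1 hp).2⟩

theorem sp_singleton (e : Finset V) : Sp ({e} : Finset (Finset V)) := by
  intro X hX
  have : ins ({e} : Finset (Finset V)) X ≤ 1 :=
    (ins_le_card _ _).trans (Finset.card_singleton e).le
  omega

theorem rig_KK (N : Finset V) (hN : 2 ≤ N.card) : Rig (KK N) N := by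
  induction N using Finset.induction_on with
  | empty => simp at hN
  | insert v X hv ih =>
    rw [Finset.card_insert_of_notMem hv] at hN
    by_cases h2 : 2 ≤ X.card
    · obtain ⟨a, ha, b, hb, hab⟩ := Finset.one_lt_card.1 (show 1 < X.card by omega)
      have h3 := (ih h2).mono (KK_mono (Finset.subset_insert v X))
      refine Rig.extend (pairs_KK _) h3 hv ha hb hab ?_ ?_
      · exact pair_mem (Finset.mem_insert_self _ _) (Finset.mem_insert_of_mem ha)
          (fun h => hv (h ▸ ha))
      · exact pair_mem (Finset.mem_insert_self _ _) (Finset.mem_insert_of_mem hb)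
          (fun h => hv (h ▸ hb))
    · have hc : (insert v X).card = 2 := by
        rw [Finset.card_insert_of_notMem hv]
        omega
      refine ⟨{insert v X}, ?_, sp_singleton _, ?_, ?_⟩
      · intro p hp
        rw [Finset.mem_singleton] at hp
        rw [hp]
        exact Finset.mem_powersetCard.2 ⟨subset_rfl, hc⟩
      · intro p hp
        rw [Finset.mem_singleton] at hp
        rw [hp]
      · rw [Finset.card_singleton, hc]

end PkgKR

theorem pKR : S_KR := by
  intro V _ N hN
  have h := PkgKR.rig_KK N hN
  exact ⟨h, (rig_iff_rk (PkgKR.pairs_KK N)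
    (fun p hp => (Finset.mem_powersetCard.1 hp).1) hN).1 h⟩

end Pool.Agent.T2H90.CJ
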