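import Pool.Agent.T2H90.CJ.StmG

set_option autoImplicit false

namespace Pool.Agent.T2H90.CJ

open Pool.Agent.H598R2.Cnt Pool.Agent.TH694.GP Pool.Agent.H135R2 Pool.Agent.H632R2.Cogirth
open Pool.Agent.H135R2.VS (Conf fl IR Str Ker)

theorem pT3 (hT3A : S_T3A) (hLIN : S_LIN) (hTRI : S_TRI) (hST : S_ST) : S_T3 := by
  classical
  intro V _ _ p U Γ v hp hOn hvU hN hR hyp q hq
  obtain ⟨-, -, -, hvN, hNU, hmem⟩ := hST V U Γ v hOn hvU
  set N := Nb U Γ {v} with hNdef
  have hNX : N ⊆ U.erase v := by
    intro i hi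
    exact Finset.mem_erase.2 ⟨fun h => hvN (h ▸ hi), hNU hi⟩
  have hX2 : 2 ≤ (U.erase v).card := by
    have := Finset.card_le_card hNX
    omega
  have hqv : ∀ i ∈ N, fl q q v i = fl p p v i := fun i hi => hq v i ((hmem i).1 hi)
  have hdelq : Eqv p q (del Γ v) := fun i j hij => hq i j (Finset.mem_filter.1 hij).1
  have hA := hT3A V p q (del Γ v) (U.erase v) N v hp
    (fun e he => hOn.1 e (Finset.mem_filter.1 he).1) hR hX2 (by simp) hNX
    (fun e he => (Finset.mem_filter.1 he).2) hdelq hqv
  have hL := hLIN V N (fun i => q v - q i) (fun i => p v - p i) hN (by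
    intro i hi j hj hij
    have hiv : v ≠ i := fun h => hvN (h ▸ hi)
    have hjv : v ≠ j := fun h => hvN (h ▸ hj)
    have := Pool.Agent.H632R2.Laman.Gen.not_collinear (show Pool.Agent.H632R2.Laman.Gen p from hp) hiv hjv hij
    simp only [Pi.sub_apply]
    exact this) (fun i hi => by
      have := hqv i hi
      rw [VS.fl_dot, VS.fl_dot] at this
      exact this) hA
  have hC : Cng p q (U.erase v) := by
    apply hyp
    intro i j hij
    rcases Finset.mem_union.1 hij with h | h
    · exact hdelq i j h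
    · have hs : ({i, j} : Finset V) ⊆ N := (Finset.mem_powersetCard.1 h).1
      have hi : i ∈ N := hs (by simp)
      have hj : j ∈ N := hs (by simp)
      have h1 := hL i hi j hj
      have h2 := hL i hi i hi
      have h3 := hL j hj j hj
      simp only [dotProduct, Fin.sum_univ_two, Pi.sub_apply] at h1 h2 h3
      simp only [fl, Fin.sum_univ_two]
      linear_combination h2 + h3 - 2 * h1
  have := hTRI V p q (U.erase v) N v hp hNX hN hC hqv
  rwa [Finset.insert_erase hvU] at this

end Pool.Agent.T2H90.CJ
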