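import Pool.Agent.TH694.GP.M3

/-!
# Project CJ (helper90): the theorem of Connelly, Jackson and Jordan, combinatorial part

A graph with at least four vertices is globally rigid in the plane if and only if it is 3-connected and
redundantly rigid. Consequence: unconditional full answers to MP_35f203_lc and MP_5d015b_lc (the algorithms are
already there, conditional on this theorem).

Language (library files H598R2/Count, TH694/GP/Defs, M1, M2, M3): a graph on the finite vertex set `U` is a finite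
set `Γ` of pairs contained in `U`; `Sp I`: `I` is (2,3)-sparse; `rk Γ`: size of the largest sparse subset;
`Rig Γ X`: `Γ` contains a sparse set of `2|X| - 3` pairs inside `X` (`rig_iff_rk`: `rk Γ + 3 = 2 |X|`, if all pairs are
in `X`); `Nb U Γ X`: neighbours of `X`; `Sepd U Γ X`: `X` is nonempty, has at most two neighbours and together with them
is not everything; `Sepr Γ S`: `S` is a separator of the matroid on `Γ`; `cmp Γ e`: the component of `e`;
`vs D`: the vertices covered by `D`; `rk_cmp`: `rk (cmp Γ e) + 3 = 2 |vs (cmp Γ e)|`; `bodies Γ`: the sets `vs (cmp Γ e)`;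
`bodies_spec`, `vs_inter_le`, `rk_filter`, `rk_sum`, `rk_split`, `rk_submod`, `rk_union_le`, `rk_mono`, `rk_le_of_sub`.

Package `X`: file `Pool/Agent/T2H90/CJ/PX.lean`, theorem `pX : S_X` with the other statements it uses as hypotheses,
in the order given in the table, namespace `Pool.Agent.T2H90.CJ` (lemmas in the sub-namespace `PkgX`).
-/

set_option autoImplicit false

namespace Pool.Agent.T2H90.CJ

open Pool.Agent.H598R2.Cnt Pool.Agent.TH694.GP

/-- the edges which do not contain `v` -/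
def del {V : Type} [DecidableEq V] (Γ : Finset (Finset V)) (v : V) : Finset (Finset V) :=
  Γ.filter (fun e => v ∉ e)

/-- the complete graph on `N` -/
def KK {V : Type} [DecidableEq V] (N : Finset V) : Finset (Finset V) := N.powersetCard 2

/-- the edges from `v` to the vertices in `N` -/
def star {V : Type} [DecidableEq V] (v : V) (N : Finset V) : Finset (Finset V) :=
  N.image (fun i => ({v, i} : Finset V))

/-- `Γ` is a graph on `U` -/
def On {V : Type} [DecidableEq V] (U : Finset V) (Γ : Finset (Finset V)) : Prop :=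
  Pairs Γ ∧ ∀ p ∈ Γ, p ⊆ U

/-- redundantly rigid -/
def RR {V : Type} [DecidableEq V] (U : Finset V) (Γ : Finset (Finset V)) : Prop :=
  Rig Γ U ∧ ∀ e ∈ Γ, Rig (Γ.erase e) U

/-- 3-connected (for `4 ≤ |U|`) -/
def TC {V : Type} [DecidableEq V] (U : Finset V) (Γ : Finset (Finset V)) : Prop :=
  ∀ X, ¬ Sepd U Γ X

/-- connected in the matroid sense -/
def Con {V : Type} [DecidableEq V] (Γ : Finset (Finset V)) : Prop := ∀ e ∈ Γ, cmp Γ e = Γ

/-- circuits of the count matroid -/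
def Circ {V : Type} [DecidableEq V] (C : Finset (Finset V)) : Prop :=
  Pairs C ∧ ¬ Sp C ∧ ∀ e ∈ C, Sp (C.erase e)

/-- KR. Complete graphs are rigid. Proof: `Rig (KK N) N` by induction on `N` from a pair with `Rig.extend`
(0-extension, `Rig.mono`), then `rig_iff_rk`. -/
def S_KR : Prop := ∀ (V : Type) [DecidableEq V] (N : Finset V), 2 ≤ N.card →
  Rig (KK N) N ∧ rk (KK N) + 3 = 2 * N.card

/-- KV (uses KR). If `A` contains the complete graph on `N`, adding a vertex `v` joined to `N` raises the rank by at most 2.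
Proof: `K = KK (insert v N)` contains `star v N` and `KK N`; `rk K + 3 = 2 (|N| + 1)`; submodularity (`rk_submod`, monotone) for
`A` and `K`: `rk (A ∪ K) + rk (A ∩ K) ≤ rk A + rk K`, `rk (KK N) ≤ rk (A ∩ K)`. (`A` is not assumed to avoid `v`.) -/
def S_KV : Prop := ∀ (V : Type) [DecidableEq V] (A : Finset (Finset V)) (N : Finset V) (v : V),
  Pairs A → v ∉ N → 2 ≤ N.card → KK N ⊆ A → rk (A ∪ star v N) ≤ rk A + 2

/-- ST. The edges at `v` are the pairs `{v, i}`, `i` a neighbour. (`mem_Nb`; `{i, v}` there, use `Finset.pair_comm`.) -/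
def S_ST : Prop := ∀ (V : Type) [DecidableEq V] (U : Finset V) (Γ : Finset (Finset V)) (v : V),
  On U Γ → v ∈ U →
  Γ.filter (fun e => v ∈ e) = star v (Nb U Γ {v}) ∧
  (Γ.filter (fun e => v ∈ e)).card = (Nb U Γ {v}).card ∧
  del Γ v ∪ star v (Nb U Γ {v}) = Γ ∧ v ∉ Nb U Γ {v} ∧ Nb U Γ {v} ⊆ U ∧
  (∀ i, i ∈ Nb U Γ {v} ↔ {v, i} ∈ Γ)

/-- COV (uses ST). A rigid graph with at least 3 vertices covers its vertices, even twice. Proof: `rk Γ + 3 = 2 |U|`;
`rk (del Γ v) + 3 ≤ 2 (|U| - 1)` (`rk_le_of_sub`), `rk Γ ≤ rk (del Γ v) + (number of edges at v)` (`rk_union_le`, `rk_le_card`). -/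
def S_COV : Prop := ∀ (V : Type) [DecidableEq V] (U : Finset V) (Γ : Finset (Finset V)),
  On U Γ → Rig Γ U → 3 ≤ U.card → vs Γ = U ∧ ∀ v ∈ U, 2 ≤ (Nb U Γ {v}).card

/-- DEG (uses ST). In a redundantly rigid graph all degrees are at least 3, and deleting a vertex of degree 3 leaves a rigid
graph. Proof: there is an edge `e` at `v` (as in COV); `Γ.erase e` is rigid, `rk (Γ.erase e) + 3 = 2 |U|`, and
`Γ.erase e = del Γ v ∪ (the other deg - 1 edges at v)`, so `rk (del Γ v) + (deg - 1) + 3 ≥ 2 |U|` and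
`rk (del Γ v) + 3 ≤ 2 (|U| - 1)`. -/
def S_DEG : Prop := ∀ (V : Type) [DecidableEq V] (U : Finset V) (Γ : Finset (Finset V)) (v : V),
  On U Γ → RR U Γ → 3 ≤ U.card → v ∈ U →
  3 ≤ (Nb U Γ {v}).card ∧ ((Nb U Γ {v}).card ≤ 3 → Rig (del Γ v) (U.erase v))

/-- RED (uses KR, KV, ST, COV). Replacing a vertex by the complete graph on its neighbours preserves rigidity.
Proof: with `N = Nb U Γ {v}`, `2 ≤ |N|` (COV), `Δ = del Γ v ∪ KK N`: `Γ ⊆ Δ ∪ star v N`, so `2 |U| - 3 = rk Γ ≤ rk Δ + 2` by KV. -/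
def S_RED : Prop := ∀ (V : Type) [DecidableEq V] (U : Finset V) (Γ : Finset (Finset V)) (v : V),
  On U Γ → Rig Γ U → 3 ≤ U.card → v ∈ U →
  Rig (del Γ v ∪ KK (Nb U Γ {v})) (U.erase v) ∧ On (U.erase v) (del Γ v ∪ KK (Nb U Γ {v}))

/-- CNT (pure counting). `r(u)` = number of members of `𝓑` containing `u`. Double counting:
`∑_B #{u ∈ B, r(u) ≥ 2} = ∑_{u ∈ U, r(u) ≥ 2} r(u) ≤ ∑_{u ∈ U} 2 (r(u) - 1) = 2 ∑ |B| - 2 |U|`, with equality only if `r ≤ 2` everywhere. -/
def S_CNT : Prop := ∀ (V : Type) [DecidableEq V] (U : Finset V) (𝓑 : Finset (Finset V)),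
  (∀ B ∈ 𝓑, B ⊆ U) → (∀ u ∈ U, ∃ B ∈ 𝓑, u ∈ B) →
  (∑ B ∈ 𝓑, (B.filter (fun u => 2 ≤ (𝓑.filter (fun B' => u ∈ B')).card)).card + 2 * U.card
      ≤ 2 * ∑ B ∈ 𝓑, B.card) ∧
  (∑ B ∈ 𝓑, (B.filter (fun u => 2 ≤ (𝓑.filter (fun B' => u ∈ B')).card)).card + 2 * U.card
      = 2 * ∑ B ∈ 𝓑, B.card → ∀ u ∈ U, (𝓑.filter (fun B' => u ∈ B')).card ≤ 2)

/-- BIG. A body with a non-bridge edge has at least 4 vertices; without bridges all bodies are big. Proof: let `D = cmp Γ e`.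
`rk D + 3 = 2 |B|`, `B = vs D`, all pairs of `D` are in `B`, so `|D| ≤ binom |B| 2`. If `|B| ≤ 3` then `binom |B| 2 ≤ 2 |B| - 3`, so
`rk D = |D|`, `D` is sparse; then `{e}` is a separator of `D`, hence of `Γ` (`sepr_trans`, `sepr_cmp`), so `cmp Γ e = {e}` and
`rk (Γ.erase e) + 1 = rk Γ`: `e` is a bridge. -/
def S_BIG : Prop := ∀ (V : Type) [DecidableEq V] (Γ : Finset (Finset V)) (e : Finset V), Pairs Γ → e ∈ Γ →
  (rk (Γ.erase e) = rk Γ → 4 ≤ (vs (cmp Γ e)).card) ∧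
  (rk (Γ.erase e) ≠ rk Γ → cmp Γ e = {e})

/-- CON3 (uses CNT, BIG, COV). 3-connected and redundantly rigid implies connected in the matroid sense.
Proof: `𝓑 = bodies Γ`, `k = |𝓑|`. `rk Γ = ∑_B (2 |B| - 3) = 2 |U| - 3` (`rk_filter` with the predicate True, `rig_iff_rk`). Let `s_B` be the number of
`u ∈ B` in at least 2 bodies. If `k ≥ 2`, then `s_B ≥ 3` for all `B`: `|B| ≥ 4` (BIG: redundantly rigid means no bridges); if `s_B ≤ 2`, let
`X` = the vertices of `B` in no other body: nonempty, and its neighbours are vertices of `B` not in `X` (an edge at `x ∈ X` has its body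
containing `x`, so its body is `B`); so `|Nb U Γ X| ≤ 2`, `X ∪ Nb U Γ X ⊆ B ≠ U` (another body has 2 vertices in `U` and meets `B` in at most one,
`vs_inter_le`), contradiction to `TC`. With CNT: `3 k ≤ ∑ s_B ≤ 2 ∑ |B| - 2 |U| = 3 k - 3`. So `k ≤ 1`, and all `cmp Γ e` are equal
(`cmp_eq_of_vs`); as `f ∈ cmp Γ f`, `cmp Γ e = Γ`. -/
def S_CON3 : Prop := ∀ (V : Type) [DecidableEq V] (U : Finset V) (Γ : Finset (Finset V)),
  On U Γ → 3 ≤ U.card → TC U Γ → RR U Γ → Con Γ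

/-- CIR. Circuits. (1) `C.erase e` is sparse (`C` is nonempty since the empty set is sparse) and `C` is not, so `rk C = |C| - 1`
(`rk_of_sp`, `card_le_rk`; `rk C = |C|` would make `C` sparse by `exists_card_rk`). (2) if `S` is a separator with `∅ ≠ S ≠ C` then `S` and `C \ S` are sparse, so
`rk S + rk (C \ S) = |C|`, contradiction; so `cmp C e = C`. (3) a minimal non-sparse subset of `insert e I`; it contains `e` as `I` is sparse. -/
def S_CIR : Prop := ∀ (V : Type) [DecidableEq V],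
  (∀ C : Finset (Finset V), Circ C → rk C + 1 = C.card ∧ Con C ∧ 2 ≤ C.card) ∧
  (∀ (I : Finset (Finset V)) (e : Finset V), Pairs (insert e I) → Sp I → ¬ Sp (insert e I) →
    ∃ C ⊆ insert e I, Circ C ∧ e ∈ C)

/-- UNI. The union of two connected sets with a common element is connected. Proof: let `S` be a separator of `A ∪ B` with `e ∈ S`. By
`sepr_restrict` the intersections with `A` and `B` are separators of `A`, `B`. If `e ∈ A` then `A ⊆ S` (as `cmp A e = A`), so `S` meets `B`, so `B ⊆ S`. -/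
def S_UNI : Prop := ∀ (V : Type) [DecidableEq V] (A B : Finset (Finset V)), Pairs (A ∪ B) → Con A → Con B →
  (A ∩ B).Nonempty → Con (A ∪ B)

/-- LINK (uses CIR). If `Γ` is connected and `∅ ≠ E ⊊ Γ`, some circuit meets both `E` and `Γ \ E`. Proof: otherwise take `I` maximal sparse in `E`
and `J ⊇ I` maximal sparse in `Γ` (`exists_maxl`). `J \ I` avoids `E`, and is maximal sparse in `Γ \ E`: for `f ∈ Γ \ E`, `f ∉ J` the circuit `C ⊆ insert f J`
contains `f`, so it avoids `E`, so `insert f (J \ I)` is not sparse. So `rk E + rk (Γ \ E) = |I| + |J \ I| = rk Γ` (`rk_eq`), `E` is a separator, and `cmp Γ e ⊆ E`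
for `e ∈ E`. -/
def S_LINK : Prop := ∀ (V : Type) [DecidableEq V] (Γ E : Finset (Finset V)), Pairs Γ → Con Γ → E ⊆ Γ →
  E.Nonempty → E ≠ Γ → ∃ C ⊆ Γ, Circ C ∧ (C ∩ E).Nonempty ∧ (C \ E).Nonempty

/-- EAR (uses CIR, UNI, LINK). `E` a maximal proper connected subset. Proof: among the circuits `C ⊆ Γ` which meet `E` and `Γ \ E` (LINK) choose one, `C₀`, with
`|C₀ \ E|` minimal, `A = C₀ \ E`. `E ∪ C₀` is connected (UNI, CIR), bigger than `E`, so `= Γ`, `Γ \ E = A`, which is sparse (a proper subset of a circuit).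
Rank: `rk Γ + rk (E ∩ C₀) ≤ rk E + rk C₀` gives `rk Γ + 1 ≤ rk E + |A|` (`E ∩ C₀` is sparse, `rk C₀ = |C₀| - 1`).
Conversely suppose `rk Γ + 1 < rk E + |A|`. Take `I` maximal sparse in `E`, `J ⊇ I` maximal sparse in `Γ`; `J = I ∪ A₁`, `A₁ = J ∩ A`,
`|A₁| = rk Γ - rk E ≤ |A| - 2`. Take `a ≠ b` in `A \ A₁`. The circuit `C ⊆ insert a J`, `a ∈ C`, has `C \ E ⊆ insert a A₁`, which misses `b`, so it is smaller than `A`; so by minimality
`C` does not meet `E`, so `C ⊆ insert a A₁ ⊆ A`, a proper subset of `C₀`, so `C` is sparse, contradiction. -/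
def S_EAR : Prop := ∀ (V : Type) [DecidableEq V] (Γ E : Finset (Finset V)), Pairs Γ → Con Γ → Con E → E ⊆ Γ →
  E.Nonempty → E ≠ Γ → (∀ E', Con E' → E ⊆ E' → E' ⊆ Γ → E' = E ∨ E' = Γ) →
  rk Γ + 1 = rk E + (Γ \ E).card ∧ Sp (Γ \ E)

/-- YDEG (uses ST). Counting degrees. `Y ⊆ U` nonempty, all edges which meet `Y` are in the sparse set `F` with `|F| ≤ 2 |Y| + 1`: some vertex of `Y` has degree at most 3.
Proof: otherwise `4 |Y| ≤ ∑_{u ∈ Y} deg u = ∑_{e ∈ Γ} |e ∩ Y| ≤ (number of edges which meet Y) + (number of edges inside Y)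
≤ 2 |Y| + 1 + ins F Y`; for `|Y| ≥ 2`: `ins F Y ≤ 2 |Y| - 3`; for `|Y| = 1`: `ins F Y = 0` (pairs). -/
def S_YDEG : Prop := ∀ (V : Type) [DecidableEq V] (U Y : Finset V) (Γ F : Finset (Finset V)), On U Γ →
  F ⊆ Γ → Y ⊆ U → Y.Nonempty → Sp F → F.card ≤ 2 * Y.card + 1 → (∀ e ∈ Γ, (e ∩ Y).Nonempty → e ∈ F) →
  ∃ u ∈ Y, (Nb U Γ {u}).card ≤ 3

/-- CRR. A connected set with at least 2 elements is redundantly rigid on its vertices. Proof: `cmp Γ e = Γ`, so `rk Γ + 3 = 2 |vs Γ|` (`rk_cmp`). For `e ∈ Γ`: if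
`rk (Γ.erase e) ≠ rk Γ`, then `rk (Γ.erase e) + 1 = rk Γ` (`rk_union_le`, `rk_singleton`, `rk_mono`), so `{e}` is a separator and `Γ = cmp Γ e ⊆ {e}`, contradiction.
`4 ≤ |vs Γ|`: the number of pairs in a set of size at most 3 is at most `2 |vs Γ| - 3 = rk Γ`, so `Γ` would be sparse, and removing `e` would lower the rank. -/
def S_CRR : Prop := ∀ (V : Type) [DecidableEq V] (Γ : Finset (Finset V)), Pairs Γ → Con Γ → 2 ≤ Γ.card →
  On (vs Γ) Γ ∧ RR (vs Γ) Γ ∧ 4 ≤ (vs Γ).card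

/-- DEG3. If `|Γ| ≤ 2 |U| - 1` then some vertex of `U` has degree at most 3 (uses ST). Proof: the sum of the degrees is `2 |Γ| < 4 |U|`. -/
def S_DEG3 : Prop := ∀ (V : Type) [DecidableEq V] (U : Finset V) (Γ : Finset (Finset V)), On U Γ →
  Γ.card + 1 ≤ 2 * U.card → ∃ u ∈ U, (Nb U Γ {u}).card ≤ 3

/-- VV (uses CIR, CRR, DEG3, YDEG, EAR, DEG). A connected graph has a vertex whose deletion leaves a rigid graph. Proof: strong induction on `|Γ|`. `U = vs Γ`; by CRR `Γ` is redundantly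
rigid on `U`, so `rk Γ + 3 = 2 |U|`. If `|Γ| ≤ rk Γ + 1 = 2 |U| - 2`: DEG3 and DEG. Otherwise take a maximal sparse `I ⊆ Γ` (`exists_maxl`), `e ∈ Γ \ I`, the circuit `C ⊆ insert e I`
(CIR): it is connected, `2 ≤ |C| ≤ rk Γ + 1 < |Γ|`. So there is a connected `E ⊊ Γ` with `2 ≤ |E|`, of maximal size; it satisfies the maximality in EAR. With `F = Γ \ E`,
`Y = U \ vs E`: `rk E + 3 = 2 |vs E|` (CRR for `E`), so by EAR `|F| = 2 |Y| + 1`. If `Y = ∅`: the induction hypothesis for `E` (`vs E = U`) and `Rig.mono`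
(`del E u ⊆ del Γ u`). If `Y ≠ ∅`: an edge which meets `Y` is not in `E`; YDEG gives `u ∈ Y` of degree at most 3, and DEG finishes. -/
def S_VV : Prop := ∀ (V : Type) [DecidableEq V] (Γ : Finset (Finset V)), Pairs Γ → Con Γ → 2 ≤ Γ.card →
  ∃ u ∈ vs Γ, Rig (del Γ u) ((vs Γ).erase u)

/-- TCV. Replacing a vertex `v` by the complete graph on its neighbours preserves 3-connectedness. Proof: write `N = Nb U Γ {v}`, `Γ' = del Γ v ∪ KK N`, `U' = U.erase v`, and let
`Sepd U' Γ' X`, `M = Nb U' Γ' X`, `|M| ≤ 2`. If `X ∩ N = ∅`: `Nb U Γ X ⊆ M` (`v` is not a neighbour of `X`), so `Sepd U Γ X`. If `X` meets `N`, then `N ⊆ X ∪ M` (`N` is complete in `Γ'`), and for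
`X' = insert v X`: `Nb U Γ X' ⊆ M`, `X' ∪ Nb U Γ X' ⊆ insert v (X ∪ M) ≠ U`, so `Sepd U Γ X'`. -/
def S_TCV : Prop := ∀ (V : Type) [DecidableEq V] (U : Finset V) (Γ : Finset (Finset V)) (v : V), On U Γ →
  TC U Γ → v ∈ U → TC (U.erase v) (del Γ v ∪ KK (Nb U Γ {v}))

/-- BA (uses KV, ST). `v` of degree 3, neighbours `x, y, z`, `{x, y} ∈ Γ`, `Δ = (del Γ v).erase {x, y} ∪ {{x, z}, {y, z}}`, `W = U.erase v`. Suppose that `Δ` is not rigid on `W`.
Proof. `del Γ v ⊆ insert {x, y} Δ` is rigid on `W`, so `rk Δ + 1 ≥ 2 |W| - 3`, and `rk Δ ≠ 2 |W| - 3`: this is (1). (2): if `X` is the vertex set of a body of `Δ` containing `x, y`, then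
`Rig Δ X`, and `rig_of_rig_insert` would make `Δ` rigid. (3): let `f ∈ Δ`, `f ≠ {x, z}, {y, z}`, so `f ∈ Γ`, `Γ.erase f` is rigid on `U`, rank `2 |W| - 1`. `Γ.erase f ⊆ A ∪ star v {x, y, z}` with
`A = insert {x, y} (Δ.erase f)` which contains `KK {x, y, z}`; so `2 |W| - 1 ≤ rk A + 2 ≤ rk (Δ.erase f) + 3` (KV), so `rk (Δ.erase f) + 4 ≥ 2 |W|`. -/
def S_BA : Prop := ∀ (V : Type) [DecidableEq V] (U : Finset V) (Γ : Finset (Finset V)) (v x y z : V), On U Γ →
  5 ≤ U.card → RR U Γ → v ∈ U → Rig (del Γ v) (U.erase v) → x ≠ y → x ≠ z → y ≠ z →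
  Nb U Γ {v} = {x, y, z} → {x, y} ∈ Γ →
  ¬ Rig ((del Γ v).erase {x, y} ∪ {{x, z}, {y, z}}) (U.erase v) →
  rk ((del Γ v).erase {x, y} ∪ {{x, z}, {y, z}}) + 4 = 2 * (U.erase v).card ∧
  (∀ B ∈ bodies ((del Γ v).erase {x, y} ∪ {{x, z}, {y, z}}), ¬ (x ∈ B ∧ y ∈ B)) ∧
  ∀ f ∈ (del Γ v).erase {x, y} ∪ {{x, z}, {y, z}}, f ≠ {x, z} → f ≠ {y, z} →
    rk (((del Γ v).erase {x, y} ∪ {{x, z}, {y, z}}).erase f) = rk ((del Γ v).erase {x, y} ∪ {{x, z}, {y, z}})

/-- BC (uses BA, CNT, BIG, DEG, ST). In the situation of BA, `Δ` IS rigid if the graph is 3-connected. Proof. Suppose not. `𝓑 = bodies Δ`, `k = |𝓑|`, `r(u)` = number of bodies containing `u`,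
`s_B` = number of `u ∈ B` with `r(u) ≥ 2`. `∑ (2 |B| - 3) = rk Δ = 2 |W| - 4` (`rk_filter` with True), so `2 ∑ |B| = 3 k + 2 |W| - 4` and CNT gives `∑ s_B ≤ 3 k - 4`, with `r ≤ 2` everywhere
in the case of equality. (Every `u ∈ W` is in a body: `deg u ≥ 3` in `Γ` by DEG, and at most two edges at `u`, `{u, v}` and `{x, y}`, are not in `Δ`; `x, y, z` are covered by `{x, z}, {y, z}`.)
Let `B₁`, `B₂` be the bodies of the edges `{x, z}`, `{y, z}`; they are different (BA (2)) and both contain `z`, so `r(z) ≥ 2`. By BIG and BA (3) every body other than `{x, z}`, `{y, z}` has at least 4 vertices.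
Claim: for such a body `B` at least three vertices `u ∈ B` have `r(u) ≥ 2` or `u ∈ {x, y}`: otherwise let `X` be the set of the other vertices of `B`, nonempty; an edge of `Γ` at `u ∈ X` is in `Δ` (`u ≠ x, y, z` as
`r(z) ≥ 2`, so it is not `{x, y}` and not at `v`), and its body is `B`; so `Nb U Γ X ⊆ B \ X` has at most two elements and `X ∪ Nb U Γ X ⊆ B ⊆ U.erase v`, contradiction to TC. So `s_B ≥ 3` for the bodies `B ≠ B₁, B₂` (if `x ∈ B ≠ B₁`
then `r(x) ≥ 2`; the same for `y`), `s_B ≥ 2` if `B = B₁` or `B₂` has at least 4 vertices (not both `x, y ∈ B`), and `s_B ≥ 1` if `B = {x, z}` or `{y, z}` (because of `z`). So `3 (k - 2) + s₁ + s₂ ≤ 3 k - 4`, hence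
`s₁ = s₂ = 1`, `B₁ = {x, z}`, `B₂ = {y, z}`, `r(x) = r(y) = 1`, and equality holds, so `r(z) = 2`. So the neighbours of `x, y, z` in `Γ` are in `{x, y, z, v}`, and `X = {x, y, z, v}` has no neighbours and is not `U`
(`|U| ≥ 5`): contradiction to TC. -/
def S_BC : Prop := ∀ (V : Type) [DecidableEq V] (U : Finset V) (Γ : Finset (Finset V)) (v x y z : V), On U Γ →
  5 ≤ U.card → TC U Γ → RR U Γ → v ∈ U → Rig (del Γ v) (U.erase v) → x ≠ y → x ≠ z → y ≠ z →
  Nb U Γ {v} = {x, y, z} → {x, y} ∈ Γ →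
  Rig ((del Γ v).erase {x, y} ∪ {{x, z}, {y, z}}) (U.erase v)

/-- RRV (uses KR, RED, DEG, BC). `Γ' = del Γ v ∪ KK N`, `N = Nb U Γ {v}`, is redundantly rigid on `U' = U.erase v`. Proof: rigid by mono. Let `e ∈ Γ'`. If `e ∉ del Γ v`: `del Γ v ⊆ Γ'.erase e`. If `e ∈ del Γ v`, `e ∉ KK N`: apply RED to
`Γ.erase e` (which has the same neighbours of `v`, as `v ∉ e`): `del (Γ.erase e) v ∪ KK N ⊆ Γ'.erase e`. If `e ∈ KK N` and `|N| ≥ 4`: there are `a ≠ b` in `N \ e`; `KK N` minus `e` is rigid on `N` (the complete graph on `{a, b}` extended twice to the ends of `e` with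
`Rig.extend`, then to the other vertices of `N`), and `rig_of_rig_insert` for `Γ'.erase e`. If `|N| = 3` (DEG: `3 ≤ |N|`), `e = {x, y}`, `N = {x, y, z}`: BC and mono. -/
def S_RRV : Prop := ∀ (V : Type) [DecidableEq V] (U : Finset V) (Γ : Finset (Finset V)) (v : V), On U Γ →
  5 ≤ U.card → TC U Γ → RR U Γ → v ∈ U → Rig (del Γ v) (U.erase v) →
  RR (U.erase v) (del Γ v ∪ KK (Nb U Γ {v}))

/-- COMB (uses COV, CON3, VV, DEG, TCV, RRV, RED). The reduction. Proof: CON3, VV (with `vs Γ = U`, COV; `2 ≤ |Γ|` as `rk Γ = 2 |U| - 3 ≥ 7`), DEG, TCV, RRV; the last part is in RED. -/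
def S_COMB : Prop := ∀ (V : Type) [DecidableEq V] (U : Finset V) (Γ : Finset (Finset V)), On U Γ →
  5 ≤ U.card → TC U Γ → RR U Γ → ∃ v ∈ U, 3 ≤ (Nb U Γ {v}).card ∧ Rig (del Γ v) (U.erase v) ∧
    On (U.erase v) (del Γ v ∪ KK (Nb U Γ {v})) ∧
    TC (U.erase v) (del Γ v ∪ KK (Nb U Γ {v})) ∧ RR (U.erase v) (del Γ v ∪ KK (Nb U Γ {v}))

/-- K4. With four vertices 3-connected means complete. Proof: if `a ≠ b` in `U` and `{a, b} ∉ Γ`, then `X = {a}` has at most two neighbours and `b ∉ X ∪ Nb U Γ X`. -/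
def S_K4 : Prop := ∀ (V : Type) [DecidableEq V] (U : Finset V) (Γ : Finset (Finset V)), On U Γ →
  U.card = 4 → TC U Γ → Γ = KK U

end Pool.Agent.T2H90.CJ
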