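import Pool.Agent.T2H90.CJ.StmC
import Pool.Agent.H135R2.VS.Ght
import Pool.Agent.H632R2.Cogirth
import Pool.Agent.TH694.GP.Geo

/-!
# Project CJ (helper90): the theorem of Connelly, Jackson and Jordan, geometric part

Language: `Conf 2 V = V → Fin 2 → ℝ` (file H135R2/VS/Frame), `fl p m i j = ∑ a, (p i a - p j a) * (m i a - m j a)`,
so `fl p p i j` is the squared distance and `fl p m i j = 0` on all edges says that `m` is a flex (infinitesimal motion) of `p`;
`VS.Gen p`: generic (the same as `Laman.Gen p`, definitionally); `Gen.der`: a derivation of ℝ with prescribed values on the coordinates of a generic `p`;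
`der_fl` (file Conn): `D (fl p m i j) = fl (D p) m i j + fl p (D m) i j`; `IR G p`: infinitesimally rigid;
`Str G p ω`: `ω` is an equilibrium stress, `Ker ω`: kernel of the stress matrix, `en ω` its energy form; `Laman.rv p e`: row of the pair `e` in the
rigidity matrix; `prs G`: the pairs of the graph `G` (`mem_prs` below).

Package `X`: file `Pool/Agent/T2H90/CJ/PX.lean`, theorem `pX : S_X` with the other statements it uses as hypotheses,
in the order given in the table, namespace `Pool.Agent.T2H90.CJ` (lemmas in the sub-namespace `PkgX`).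
-/

set_option autoImplicit false

namespace Pool.Agent.T2H90.CJ

open Pool.Agent.H598R2.Cnt Pool.Agent.TH694.GP Pool.Agent.H135R2 Pool.Agent.H632R2.Cogirth
open Pool.Agent.H135R2.VS (Conf fl IR Str Ker)

theorem mem_prs {V : Type} [Fintype V] [DecidableEq V] (G : SimpleGraph V) (e : Finset V) :
    e ∈ prs G ↔ ∃ u v, G.Adj u v ∧ e = {u, v} := by
  classical
  simp only [prs, Finset.mem_image, SimpleGraph.mem_edgeFinset]
  constructor
  · rintro ⟨a, ha, rfl⟩
    induction a with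
    | _ u v => exact ⟨u, v, ha, toFinset_mk u v⟩
  · rintro ⟨u, v, h, rfl⟩
    exact ⟨s(u, v), h, toFinset_mk u v⟩

/-- the edges in `Γ` have the same lengths -/
def Eqv {V : Type} [DecidableEq V] (p q : Conf 2 V) (Γ : Finset (Finset V)) : Prop :=
  ∀ i j, ({i, j} : Finset V) ∈ Γ → fl q q i j = fl p p i j

/-- all distances in `X` are the same -/
def Cng {V : Type} (p q : Conf 2 V) (X : Finset V) : Prop :=
  ∀ i ∈ X, ∀ j ∈ X, fl q q i j = fl p p i j

/-- global rigidity in coordinates -/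
def GRc {V : Type} (G : SimpleGraph V) : Prop :=
  ∀ p : Conf 2 V, VS.Gen p → ∀ q : Conf 2 V, (∀ i j, G.Adj i j → fl q q i j = fl p p i j) →
    ∀ i j, fl q q i j = fl p p i j

/-- `S_IRG`. Generic rigid frameworks are infinitesimally rigid (on the part `X`). Proof. Let `I ⊆ Γ` be sparse with `2 |X| - 3` pairs inside `X`. First:
`∑ w, ∑ a, rv p {i, j} w a * m w a = fl p m i j` for `i ≠ j` (`rv_pair`). The rows `rv p e`, `e ∈ I`, are independent (`indep_gen_of_sp`). Let `i ≠ j` in `X`, `{i, j} ∉ I`.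
`insert {i, j} I` has `2 |X| - 2` pairs inside `X`, so it is not sparse, so its rows are not independent (`sp_of_indep`), so `rv p {i, j}` is in the span of the rows of `I`
(`linearIndepOn_insert`). The linear functional `r ↦ ∑ w, ∑ a, r w a * m w a` vanishes on the rows of `I`, hence at `rv p {i, j}`. -/
def S_IRG : Prop := ∀ (V : Type) [Fintype V] [DecidableEq V] (p : Conf 2 V) (Γ : Finset (Finset V)) (X : Finset V),
  VS.Gen p → Pairs Γ → Rig Γ X → 2 ≤ X.card → ∀ m : Conf 2 V, (∀ i j, ({i, j} : Finset V) ∈ Γ → fl p m i j = 0) →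
  ∀ i ∈ X, ∀ j ∈ X, fl p m i j = 0

/-- `S_IRS` (uses IRG). Proof. `←` is IRG (`mem_prs`). `→`: by `rig_iff_rank` and `rank_eq` (Cogirth) the rank of `rigidityMatrix G p` is to be shown `≥ 2 |V| - 3`. The kernel of
`(rigidityMatrix G p).mulVecLin` consists of the flexes; by `IR G p` and `trivial_motion` (`Gen.as`) every flex is `m i = L (p i) + b` with `L` skew, i.e. `L x = s (- x 1, x 0)`; so
the kernel is contained in the range of a linear map from `ℝ³`, so it has dimension at most 3, and rank + dimension of the kernel = `2 |V|`. -/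
def S_IRS : Prop := ∀ (V : Type) [Fintype V] [DecidableEq V] (G : SimpleGraph V) (p : Conf 2 V),
  VS.Gen p → 3 ≤ Fintype.card V → (IR G p ↔ Rig (prs G) Finset.univ)

/-- `S_RNG`. The flexes of an equivalent framework `q` on a rigid part. Proof. `I ⊆ Γ` as in IRG. The rows `rv q e`, `e ∈ I`, are independent: for every `v : Conf 2 V` let `D` be the derivation with
`D p = v`; differentiating `fl q q i j = fl p p i j` gives `fl q (D q) i j = fl p v i j` for `{i, j} ∈ I`. If `∑ λ_e rv q e = 0` then `∑ λ_e fl q (D q) e = 0`, so `∑ λ_e fl p v e = 0` for all `v`,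
so `∑ λ_e rv p e = 0`, so `λ = 0` (`indep_gen_of_sp`). Hence the linear map `(X → Fin 2 → ℝ) → (I → ℝ)`, `m ↦ (fl q m e)_e` (extend `m` by 0; the pairs of `I` are in `X`) is surjective
and its kernel has dimension `2 |X| - (2 |X| - 3) = 3`. The linear map `(s, t) ↦ (s J (q i) + t)_i` from `ℝ³` to this kernel is injective (`q` is not constant on `X`: for `{i, j} ∈ I`,
`fl q q i j = fl p p i j ≠ 0`), so it is surjective. -/
def S_RNG : Prop := ∀ (V : Type) [Fintype V] [DecidableEq V] (p q : Conf 2 V) (Γ : Finset (Finset V)) (X : Finset V),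
  VS.Gen p → Pairs Γ → Rig Γ X → 2 ≤ X.card → Eqv p q Γ → ∀ m : Conf 2 V,
  (∀ i j, ({i, j} : Finset V) ∈ Γ → fl q m i j = 0) →
  ∃ (s : ℝ) (t : Fin 2 → ℝ), ∀ i ∈ X, m i 0 = - s * q i 1 + t 0 ∧ m i 1 = s * q i 0 + t 1

/-- `S_T3A` (uses RNG). Proof. Let `D` be the derivation with `D (p v) = w` and `D (p i) = 0` for `i ≠ v` (`Gen.der`), `m i a = D (q i a)`. For `{i, j} ∈ Γ` (`i, j ≠ v`):
`2 fl q m i j = D (fl q q i j) = D (fl p p i j) = 2 fl p (D p) i j = 0`. By RNG `m i = s J (q i) + t` on `X`, `J x = (- x 1, x 0)`. For `i ∈ N`: `D` of `fl q q v i = fl p p v i`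
gives `(q v - q i) ⬝ᵥ (m v - m i) = (p v - p i) ⬝ᵥ w`; take `y = m v - s J (q v) - t`: `(q v - q i) ⬝ᵥ J (q v - q i) = 0`. -/
def S_T3A : Prop := ∀ (V : Type) [Fintype V] [DecidableEq V] (p q : Conf 2 V) (Γ : Finset (Finset V)) (X N : Finset V) (v : V),
  VS.Gen p → Pairs Γ → Rig Γ X → 2 ≤ X.card → v ∉ X → N ⊆ X → (∀ e ∈ Γ, v ∉ e) → Eqv p q Γ →
  (∀ i ∈ N, fl q q v i = fl p p v i) →
  ∀ w : Fin 2 → ℝ, ∃ y : Fin 2 → ℝ, ∀ i ∈ N, (q v - q i) ⬝ᵥ y = (p v - p i) ⬝ᵥ w

/-- `S_LIN`. Linear algebra in the plane. Proof. A linear relation `∑ λ_i a_i = 0` gives `∑ λ_i b_i ⬝ᵥ w = 0` for all `w`, so `∑ λ_i b_i = 0`. Take different `i₀, i₁, i₂ ∈ N`. As `b_{i₀}, b_{i₁}` are independent, so are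
`a_{i₀}, a_{i₁}`, so for every `i ∈ N` there are `α, β` with `a_i = α a_{i₀} + β a_{i₁}` and then `b_i = α b_{i₀} + β b_{i₁}`. For `i = i₂`: `α, β ≠ 0` (`b_{i₂}` is not parallel to `b_{i₀}, b_{i₁}`), and
`a_{i₂} ⬝ᵥ a_{i₂} = b_{i₂} ⬝ᵥ b_{i₂}` gives `2 α β (a_{i₀} ⬝ᵥ a_{i₁} - b_{i₀} ⬝ᵥ b_{i₁}) = 0`. So the Gram matrices of `(a_{i₀}, a_{i₁})` and `(b_{i₀}, b_{i₁})` agree and the statement follows by expanding. -/
def S_LIN : Prop := ∀ (V : Type) [DecidableEq V] (N : Finset V) (a b : V → Fin 2 → ℝ), 3 ≤ N.card →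
  (∀ i ∈ N, ∀ j ∈ N, i ≠ j → b i 0 * b j 1 - b i 1 * b j 0 ≠ 0) →
  (∀ i ∈ N, a i ⬝ᵥ a i = b i ⬝ᵥ b i) →
  (∀ w : Fin 2 → ℝ, ∃ y : Fin 2 → ℝ, ∀ i ∈ N, a i ⬝ᵥ y = b i ⬝ᵥ w) →
  ∀ i ∈ N, ∀ j ∈ N, a i ⬝ᵥ a j = b i ⬝ᵥ b j

/-- `S_TRI`. Trilateration. Proof: `Geo.exists_iso` (for `q`, `p` on `X`) gives an isometry `φ` with `φ (q i) = p i` for `i ∈ X`; `φ (q v)` and `p v` have the same distances to the three non-collinear points `p i`,
`i ∈ N` (`Gen.not_collinear`), so `φ (q v) = p v` (`Geo.three_pts`), so `dist (q v) (q j) = dist (p v) (p j)` for `j ∈ X`. Translate with `Geo.dist_iff` (`fl q q i j = (q i 0 - q j 0)^2 + (q i 1 - q j 1)^2`). -/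
def S_TRI : Prop := ∀ (V : Type) [Fintype V] [DecidableEq V] (p q : Conf 2 V) (X N : Finset V) (v : V),
  VS.Gen p → N ⊆ X → 3 ≤ N.card → Cng p q X → (∀ i ∈ N, fl q q v i = fl p p v i) → Cng p q (insert v X)

/-- `S_T3` (uses T3A, LIN, TRI, ST). A vertex can be replaced by the complete graph on its neighbours. Proof. `a_i = q v - q i`, `b_i = p v - p i`, `N = Nb U Γ {v}` (`{v, i} ∈ Γ` for `i ∈ N`, ST). T3A (for `del Γ v`, `X = U.erase v`) and
LIN (`Gen.not_collinear`) give `a_i ⬝ᵥ a_j = b_i ⬝ᵥ b_j` for `i, j ∈ N`, so `fl q q i j = |a_i - a_j|² = fl p p i j`. So `q` is equivalent to `p` for `del Γ v ∪ KK N`, hence `Cng p q (U.erase v)`, and TRI finishes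
(`insert v (U.erase v) = U`). -/
def S_T3 : Prop := ∀ (V : Type) [Fintype V] [DecidableEq V] (p : Conf 2 V) (U : Finset V) (Γ : Finset (Finset V)) (v : V),
  VS.Gen p → On U Γ → v ∈ U → 3 ≤ (Nb U Γ {v}).card → Rig (del Γ v) (U.erase v) →
  (∀ q, Eqv p q (del Γ v ∪ KK (Nb U Γ {v})) → Cng p q (U.erase v)) → ∀ q, Eqv p q Γ → Cng p q U

/-- `S_SUF` (uses COMB, K4, T3). 3-connected and redundantly rigid graphs are globally rigid. Proof: induction on `|U|`; `|U| = 4`: K4 (every pair in `U` is in `KK U`; `fl q q i i = 0`); `|U| ≥ 5`: COMB, the induction hypothesis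
for `U.erase v` and T3. -/
def S_SUF : Prop := ∀ (V : Type) [Fintype V] [DecidableEq V] (p : Conf 2 V) (U : Finset V) (Γ : Finset (Finset V)),
  VS.Gen p → On U Γ → 4 ≤ U.card → TC U Γ → RR U Γ → ∀ q, Eqv p q Γ → Cng p q U

/-- `S_SEPN`. Globally rigid graphs with at least 4 vertices are 3-connected. Proof. Let `Sepd univ (prs G) X`, `M` its neighbours, `x ∈ X`, `y ∉ X ∪ M`. As `|V| ≥ 4`, there is `M'`, `M ⊆ M'`, `|M'| = 2`, `x, y ∉ M'` (`Finset.exists_subsuperset_card_eq`);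
`M' = {a, b}`. Let `p` be generic (`Laman.exists_gen`), `n = J (p a - p b)`, `c = n ⬝ᵥ p a`, `r z = z - 2 (n ⬝ᵥ z - c) / (n ⬝ᵥ n) n` the reflection in the line through `p a`, `p b`; `q i = r (p i)` for `i ∈ X`, `q i = p i` otherwise. `r` preserves
distances and fixes `p i` for `i ∈ M` and every edge is inside `X ∪ M` or avoids `X`, so `q` is equivalent to `p`. But `|r (p x) - p y|² - |p x - p y|² = 4 (n ⬝ᵥ p x - c) (n ⬝ᵥ p y - c) / (n ⬝ᵥ n) ≠ 0` by `Gen.not_collinear`. -/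
def S_SEPN : Prop := ∀ (V : Type) [Fintype V] [DecidableEq V] (G : SimpleGraph V),
  4 ≤ Fintype.card V → GRc G → TC Finset.univ (prs G)

/-- `S_QF`. A quadratic form which vanishes at three pairwise nonparallel vectors of the plane is zero. Proof: the determinant of the system for `(x, y, z)` is twice the product of the three cross products up to sign; or: write `u₃ = α u₁ + β u₂`. -/
def S_QF : Prop := ∀ (x y z : ℝ) (u v w : Fin 2 → ℝ),
  u 0 * v 1 - u 1 * v 0 ≠ 0 → u 0 * w 1 - u 1 * w 0 ≠ 0 → v 0 * w 1 - v 1 * w 0 ≠ 0 →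
  x * u 0 ^ 2 + 2 * y * u 0 * u 1 + z * u 1 ^ 2 = 0 → x * v 0 ^ 2 + 2 * y * v 0 * v 1 + z * v 1 ^ 2 = 0 →
  x * w 0 ^ 2 + 2 * y * w 0 * w 1 + z * w 1 ^ 2 = 0 → x = 0 ∧ y = 0 ∧ z = 0

/-- `S_NPA`. Different edges of a generic configuration are not parallel. Proof: one of `i, j`, say `i` (else swap, the sign changes), is not in `{k, l}`. Suppose that the cross product is 0; apply the derivation with `D (p i) = w`, `D (p h) = 0` for
`h ≠ i`: `w 0 * (p k 1 - p l 1) - w 1 * (p k 0 - p l 0) = 0` for all `w`, so `p k = p l`, contradiction to `Laman.Gen.ne`. -/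
def S_NPA : Prop := ∀ (V : Type) [Fintype V] [DecidableEq V] (p : Conf 2 V) (i j k l : V), VS.Gen p → i ≠ j → k ≠ l →
  ({i, j} : Finset V) ≠ {k, l} → (p i 0 - p j 0) * (p k 1 - p l 1) - (p i 1 - p j 1) * (p k 0 - p l 0) ≠ 0

/-- `S_HB` (uses QF). An affine image of `p` with three pairwise nonparallel edges of the same length is congruent to `p`. Proof: `q i c = A c ⬝ᵥ p i + b c`, so `fl q q i j = ∑ c, (A c ⬝ᵥ (p i - p j))²`; with `u = p i - p j`:
`fl q q i j - fl p p i j = x u₀² + 2 y u₀ u₁ + z u₁²`, `x = ∑ c, A c 0 ^ 2 - 1`, `y = ∑ c, A c 0 * A c 1`, `z = ∑ c, A c 1 ^ 2 - 1`; QF. (`i k, j k`, `k : Fin 3`, are the three edges.) -/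
def S_HB : Prop := ∀ (V : Type) (p q : Conf 2 V) (A : Fin 2 → Fin 2 → ℝ) (b : Fin 2 → ℝ) (i j : Fin 3 → V),
  (∀ h c, q h c = A c ⬝ᵥ p h + b c) → (∀ k, fl q q (i k) (j k) = fl p p (i k) (j k)) →
  (∀ k l, k ≠ l → (p (i k) 0 - p (j k) 0) * (p (i l) 1 - p (j l) 1) - (p (i k) 1 - p (j k) 1) * (p (i l) 0 - p (j l) 0) ≠ 0) →
  ∀ h h', fl q q h h' = fl p p h h'

/-- `S_HA`. If deleting the edge `{a, b}` makes `m` a flex then the stress of `{a, b}` is zero. Proof: `Str.sum_fl` for `m`: only the terms `(a, b)` and `(b, a)` are nonzero (`fl p m i j = 0` on the other edges, `ω i j = 0` off the edges), so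
`(ω a b + ω b a) * fl p m a b = 0`, so `ω b a = - ω a b`. Let `ω'` be `ω` with the entries at `(a, b)` and `(b, a)` replaced by 0. Then `en ω' = en ω`, hence `Ker ω' = Ker ω`. -/
def S_HA : Prop := ∀ (V : Type) [Fintype V] [DecidableEq V] (H : SimpleGraph V) (p m : Conf 2 V) (ω : V → V → ℝ) (a b : V),
  Str H p ω → H.Adj a b → (∀ i j, (H.deleteEdges {s(a, b)}).Adj i j → fl p m i j = 0) → fl p m a b ≠ 0 →
  ∃ ω' : V → V → ℝ, Str (H.deleteEdges {s(a, b)}) p ω' ∧ Ker ω' = Ker ω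

/-- `S_HEN` (uses IRS, NPA, HB, HA). Proof. `H' = H.deleteEdges {s(a, b)}`. Suppose that `¬ IR H' p`: there is `m` with `fl p m i j = 0` on `H'` and `fl p m i₀ j₀ ≠ 0`; by `IR H p`, `fl p m a b ≠ 0`. HA gives `ω'`. By `VS.ir_of_gr` (pointwise!) it is enough to
show that every `q` which is equivalent to `p` for `H'` is congruent to `p`; then `IR H' p`, a contradiction. `Str.transfer` gives `Str H' q ω'`, so the coordinates of `q` are in `Ker ω' = Ker ω`, so `q h c = A c ⬝ᵥ p h + b c`. By IRS `H` has at least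
`2 |V| - 3 ≥ 5` edges, so `H'` has three different edges; they are pairwise nonparallel by NPA; HB. -/
def S_HEN : Prop := ∀ (V : Type) [Fintype V] [DecidableEq V] (H : SimpleGraph V) (p : Conf 2 V) (ω : V → V → ℝ) (a b : V),
  4 ≤ Fintype.card V → VS.Gen p → IR H p → Str H p ω →
  (∀ y ∈ Ker ω, ∃ (α : Fin 2 → ℝ) (β : ℝ), ∀ i, y i = α ⬝ᵥ p i + β) → H.Adj a b → IR (H.deleteEdges {s(a, b)}) p

/-- `S_NEC` (uses IRS, HEN). Globally rigid graphs with at least 4 vertices are redundantly rigid. Proof: `VS.ght_exists` (`d = 2`) gives `p`, `ω`; IRS gives `Rig (prs G) univ`; for `e ∈ prs G`, `e = {a, b}` with `G.Adj a b` (`mem_prs`),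
`prs (G.deleteEdges {s(a, b)}) = (prs G).erase {a, b}` (`prs_deleteEdges`), HEN and IRS. -/
def S_NEC : Prop := ∀ (V : Type) [Fintype V] [DecidableEq V] (G : SimpleGraph V),
  4 ≤ Fintype.card V → GRc G → RR Finset.univ (prs G)

/-- `S_LK`. Proof: adapt the proof of `link_conn` in TH694/GP/L1.lean (the same statement for `nps G`, `Finset.range n`). -/
def S_LK : Prop := ∀ (V : Type) [Fintype V] [DecidableEq V] (G : SimpleGraph V), 4 ≤ Fintype.card V →
  ((∀ S : Finset V, S.card ≤ 2 → (G.induce {v | v ∉ S}).Connected) ↔ TC Finset.univ (prs G))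

/-- `S_LR`. Proof: `rigid_iff` and `prs_deleteEdges` (Cogirth); see `link_rigid` in TH694/GP/L1.lean. -/
def S_LR : Prop := ∀ (V : Type) [Fintype V] [DecidableEq V] (G : SimpleGraph V), 2 ≤ Fintype.card V →
  ((RigidInPlane G ∧ ∀ e ∈ G.edgeSet, RigidInPlane (G.deleteEdges {e})) ↔ RR Finset.univ (prs G))

/-- `S_CJJ` (uses SUF, SEPN, NEC, LK, LR): the theorem of Connelly, Jackson and Jordan. Proof: LK, LR translate the right side to `TC univ (prs G) ∧ RR univ (prs G)`; SUF with `U = univ`; SEPN, NEC. -/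
def S_CJJ : Prop := ∀ (V : Type) [Fintype V] [DecidableEq V] (G : SimpleGraph V), 4 ≤ Fintype.card V →
  (GRc G ↔ (∀ S : Finset V, S.card ≤ 2 → (G.induce {v | v ∉ S}).Connected) ∧
    RigidInPlane G ∧ ∀ e ∈ G.edgeSet, RigidInPlane (G.deleteEdges {e}))

/-- `S_GE`. The two forms of global rigidity agree. Proof: `WithLp.toLp`, `Geo.dist_iff`, `Fin.sum_univ_two`. -/
def S_GE : Prop := ∀ (V : Type) [Fintype V] [DecidableEq V] (G : SimpleGraph V), GRc G ↔ Pool.Agent.TH694.GP.GloballyRigid G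

end Pool.Agent.T2H90.CJ
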